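import Mathlib
import Pool.Agent.L5helper93.Ein.Lap

/-!
# The quadratic reaction term of an algebraic curvature tensor
-/

namespace Pool.Agent.L5helper93.Sas

open Finset Matrix Pool.Agent.L5helper93.Ein

set_option linter.unusedSectionVars false
set_option linter.unusedVariables false
set_option linter.unusedSimpArgs false

variable {ι : Type*} [Fintype ι] [DecidableEq ι] {A B : ι → ι → ι → ι → ℝ}

/-- The endomorphism of a pair of indices. -/
def Mt (A : ι → ι → ι → ι → ℝ) (k l : ι) : Matrix ι ι ℝ := Matrix.of fun m p => A k l m p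

/-- The square of the matrix `P`. -/
def Gm (A : ι → ι → ι → ι → ℝ) (a b c d : ι) : ℝ :=
  (Pm A * Pm A : Matrix (ι × ι) (ι × ι) ℝ) (a, b) (c, d)

theorem Gm_eq (a b c d : ι) : Gm A a b c d = ∑ i, ∑ q, A a i b q * A i c q d := by
  unfold Gm
  rw [Matrix.mul_apply, Fintype.sum_prod_type]
  rfl

theorem Gm_symm (h : IsCurv A) (a b c d : ι) : Gm A a b c d = Gm A c d a b := by
  unfold Gm
  rw [Matrix.mul_apply, Matrix.mul_apply]
  refine Finset.sum_congr rfl fun x _ => ?_
  rw [P_symm h (a, b) x, P_symm h x (c, d), mul_comm]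

theorem Gm_swap (h : IsCurv A) (a b c d : ι) : Gm A b a d c = Gm A a b c d := by
  unfold Gm
  have h1 : ∀ p q : ι × ι, Pm A p.swap q.swap = Pm A p q := by
    rintro ⟨a, b⟩ ⟨c, d⟩
    simp only [Pm, Matrix.of_apply, Prod.swap]
    exact h.pair b d a c
  rw [Matrix.mul_apply, Matrix.mul_apply]
  rw [← Equiv.sum_comp (Equiv.prodComm ι ι)]
  refine Finset.sum_congr rfl fun x _ => ?_
  have e1 := h1 (a, b) x
  have e2 := h1 x (c, d)
  simp only [Prod.swap_prod_mk] at e1 e2
  rw [Equiv.coe_prodComm, e1, e2]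

/-- The reaction term. -/
def Qt (A : ι → ι → ι → ι → ℝ) (k l m p : ι) : ℝ :=
  2 * (Gm A k l m p - Gm A k l p m + Gm A k m l p - Gm A k p l m)

theorem Qt_curv (h : IsCurv A) : IsCurv (Qt A) where
  a1 := by
    intro k l m p
    unfold Qt
    have e1 := Gm_swap h k l p m
    have e2 := Gm_swap h k l m p
    have e3 := Gm_symm h l m k p
    have e4 := Gm_symm h l p k m
    linarith
  a2 := by
    intro k l m p
    unfold Qt
    ring
  bi := by
    intro a b c d
    unfold Qt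
    have e1 := Gm_symm h c d a b
    have e2 := Gm_symm h a d b c
    have e3 := Gm_swap h a b d c
    have e4 := Gm_symm h b d c a
    have e5 := Gm_swap h a c b d
    have e6 := Gm_swap h b c d a
    linarith

/-- The inner product of tensors. -/
def ip (A B : ι → ι → ι → ι → ℝ) : ℝ := ∑ a, ∑ b, ∑ c, ∑ d, A a b c d * B a b c d

theorem ip_self : ip A A = nS A := by
  unfold ip nS
  simp only [sq]

theorem ip_comm : ip A B = ip B A := by
  unfold ip
  simp only [mul_comm]

theorem ip_cs : ip A B ^ 2 ≤ ip A A * ip B B := by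
  have h : ∀ F : ι → ι → ι → ι → ℝ, ∑ a, ∑ b, ∑ c, ∑ d, F a b c d =
      ∑ x : (ι × ι) × (ι × ι), F x.1.1 x.1.2 x.2.1 x.2.2 := by
    intro F
    rw [← sum4, ← Fintype.sum_prod_type']
  unfold ip
  rw [h, h, h]
  have := Finset.sum_mul_sq_le_sq_mul_sq (Finset.univ : Finset ((ι × ι) × (ι × ι)))
    (fun x => A x.1.1 x.1.2 x.2.1 x.2.2) (fun x => B x.1.1 x.1.2 x.2.1 x.2.2)
  simpa only [sq] using this

/-- The cubic form. -/
def cub (A : ι → ι → ι → ι → ℝ) : ℝ := 8 * X3 A - 4 * Y3 A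

theorem M1_apply (h : IsCurv A) (a b c d : ι) :
    (Pm A - Pm A * Tm : Matrix (ι × ι) (ι × ι) ℝ) (a, b) (c, d) = A a b c d := by
  rw [Matrix.sub_apply, mul_T]
  simp only [Pm, Matrix.of_apply, Prod.swap, Prod.fst_swap, Prod.snd_swap]
  have b1 := h.bi a b c d
  have i1 := h.a1 c a b d
  have i2 := h.pair b c a d
  linarith

theorem sum_M1 (h : IsCurv A) (a b c d : ι) :
    ∑ i, ∑ q, A a b i q * A i q c d = 2 * (Gm A a b c d - Gm A a b d c) := by
  have c1 := P_comm h
  have t := T_sq (ι := ι)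
  have e1 : Pm A * Tm * Pm A = Pm A * Pm A * Tm := by
    rw [mul_assoc, ← c1, mul_assoc]
  have e2 : Pm A * Tm * (Pm A * Tm) = Pm A * Pm A := by
    rw [← mul_assoc, e1, mul_assoc, t, mul_one]
  have h2 : (Pm A - Pm A * Tm) * (Pm A - Pm A * Tm) = (2 : ℝ) • (Pm A * Pm A) -
      (2 : ℝ) • (Pm A * Pm A * Tm) := by
    rw [sub_mul, mul_sub, mul_sub, e1, e2, ← mul_assoc]
    module
  have h3 : ((Pm A - Pm A * Tm) * (Pm A - Pm A * Tm) : Matrix (ι × ι) (ι × ι) ℝ) (a, b) (c, d) =
      ∑ i, ∑ q, A a b i q * A i q c d := by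
    rw [Matrix.mul_apply, Fintype.sum_prod_type]
    simp only [M1_apply h]
  rw [← h3, h2, Matrix.sub_apply, Matrix.smul_apply, Matrix.smul_apply, mul_T]
  simp only [smul_eq_mul, Prod.swap_prod_mk]
  unfold Gm
  ring

theorem ip_Qt (hA : IsCurv A) (hB : IsCurv B) : ip (Qt A) B =
    8 * (Pm A * Pm A * Pm B).trace - 4 * (Pm A * Pm A * Pm B * Tm).trace := by
  have tr : ∀ F : Matrix (ι × ι) (ι × ι) ℝ, (F * Pm B).trace =
      ∑ a, ∑ b, ∑ c, ∑ d, F (a, b) (c, d) * B a c b d := by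
    intro F
    rw [Matrix.trace]
    simp only [Matrix.diag_apply, Matrix.mul_apply]
    rw [← sum4 (fun a b c d => F (a, b) (c, d) * B a c b d)]
    refine Finset.sum_congr rfl fun x _ => Finset.sum_congr rfl fun y _ => ?_
    rw [P_symm hB y x]
    rfl
  have t1 : (Pm A * Pm A * Pm B).trace = ∑ a, ∑ b, ∑ c, ∑ d, Gm A a b c d * B a c b d :=
    tr _
  have t2 : (Pm A * Pm A * Pm B * Tm).trace =
      ∑ a, ∑ b, ∑ c, ∑ d, Gm A a b c d * B a d b c * (-1) * (-1) := by
    have e1 : (Pm A * Pm A * Pm B * Tm).trace = ((Pm A * Pm A * Tm) * Pm B).trace := by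
      rw [mul_assoc (Pm A * Pm A) (Pm B) Tm, P_comm hB, ← mul_assoc]
    rw [e1, tr]
    have e2 : ∀ a b c d, (Pm A * Pm A * Tm : Matrix (ι × ι) (ι × ι) ℝ) (a, b) (c, d) =
        Gm A a b d c := by
      intro a b c d
      rw [mul_T]; rfl
    simp only [e2]
    refine Finset.sum_congr rfl fun a _ => Finset.sum_congr rfl fun b _ => ?_
    rw [Finset.sum_comm]
    refine Finset.sum_congr rfl fun c _ => Finset.sum_congr rfl fun d _ => ?_
    ring
  have u1 : ∑ k, ∑ l, ∑ m, ∑ p, Gm A k l m p * B k l m p =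
      ∑ a, ∑ b, ∑ c, ∑ d, Gm A a b c d * B a c b d -
      ∑ a, ∑ b, ∑ c, ∑ d, Gm A a b c d * B a d b c := by
    simp only [← Finset.sum_sub_distrib]
    refine Finset.sum_congr rfl fun a _ => Finset.sum_congr rfl fun b _ =>
      Finset.sum_congr rfl fun c _ => Finset.sum_congr rfl fun d _ => ?_
    have := M1_apply hB a b c d
    rw [Matrix.sub_apply, mul_T] at this
    simp only [Pm, Matrix.of_apply, Prod.swap, Prod.fst_swap, Prod.snd_swap] at this
    rw [← this]
    ring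
  have u2 : ∑ k, ∑ l, ∑ m, ∑ p, Gm A k l p m * B k l m p =
      - ∑ k, ∑ l, ∑ m, ∑ p, Gm A k l m p * B k l m p := by
    simp only [← Finset.sum_neg_distrib]
    refine Finset.sum_congr rfl fun a _ => Finset.sum_congr rfl fun b _ => ?_
    rw [Finset.sum_comm]
    refine Finset.sum_congr rfl fun c _ => Finset.sum_congr rfl fun d _ => ?_
    rw [hB.a2 a b d c]
    ring
  have u3 : ∑ k, ∑ l, ∑ m, ∑ p, Gm A k m l p * B k l m p =
      ∑ a, ∑ b, ∑ c, ∑ d, Gm A a b c d * B a c b d := by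
    refine Finset.sum_congr rfl fun a _ => ?_
    rw [Finset.sum_comm]
  have u4 : ∑ k, ∑ l, ∑ m, ∑ p, Gm A k p l m * B k l m p =
      - ∑ a, ∑ b, ∑ c, ∑ d, Gm A a b c d * B a c b d := by
    simp only [← Finset.sum_neg_distrib]
    refine Finset.sum_congr rfl fun a _ => ?_
    calc ∑ l, ∑ m, ∑ p, Gm A a p l m * B a l m p
        = ∑ l, ∑ p, ∑ m, Gm A a p l m * B a l m p :=
          Finset.sum_congr rfl fun l _ => Finset.sum_comm
      _ = ∑ p, ∑ l, ∑ m, Gm A a p l m * B a l m p := Finset.sum_comm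
      _ = _ := by
          refine Finset.sum_congr rfl fun b _ => Finset.sum_congr rfl fun c _ =>
            Finset.sum_congr rfl fun d _ => ?_
          rw [hB.a2 a c d b]
          ring
  have u5 : ∑ a, ∑ b, ∑ c, ∑ d, Gm A a b c d * B a d b c * (-1) * (-1) =
      ∑ a, ∑ b, ∑ c, ∑ d, Gm A a b c d * B a d b c := by
    refine Finset.sum_congr rfl fun a _ => Finset.sum_congr rfl fun b _ =>
      Finset.sum_congr rfl fun c _ => Finset.sum_congr rfl fun d _ => ?_
    ring
  have total : ip (Qt A) B = 2 * (∑ k, ∑ l, ∑ m, ∑ p, Gm A k l m p * B k l m p -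
      ∑ k, ∑ l, ∑ m, ∑ p, Gm A k l p m * B k l m p +
      ∑ k, ∑ l, ∑ m, ∑ p, Gm A k m l p * B k l m p -
      ∑ k, ∑ l, ∑ m, ∑ p, Gm A k p l m * B k l m p) := by
    unfold ip Qt
    simp only [← Finset.sum_sub_distrib, ← Finset.sum_add_distrib, Finset.mul_sum]
    refine Finset.sum_congr rfl fun a _ => Finset.sum_congr rfl fun b _ =>
      Finset.sum_congr rfl fun c _ => Finset.sum_congr rfl fun d _ => ?_
    ring
  rw [total, u2, u3, u4, u1, t1, t2, u5]
  ring

theorem cub_eq (hA : IsCurv A) : cub A = ip (Qt A) A := by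
  rw [ip_Qt hA hA]
  rfl

theorem Pm_add (t : ℝ) : Pm (fun a b c d => A a b c d + t * B a b c d) = Pm A + t • Pm B := by
  ext p q
  simp [Pm]

/-- The Taylor expansion of the cubic form. -/
theorem cub_add (hA : IsCurv A) (hB : IsCurv B) (t : ℝ) :
    cub (fun a b c d => A a b c d + t * B a b c d) =
      cub A + 3 * t * ip (Qt A) B + 3 * t ^ 2 * ip (Qt B) A + t ^ 3 * cub B := by
  rw [ip_Qt hA hB, ip_Qt hB hA]
  unfold cub X3 Y3
  rw [Pm_add]
  have hAT := P_comm hA
  have hBT := P_comm hB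
  generalize Pm A = P at *
  generalize Pm B = Q at *
  generalize (Tm : Matrix (ι × ι) (ι × ι) ℝ) = T at *
  have e1 : (P + t • Q) * (P + t • Q) * (P + t • Q) = P * P * P +
      t • (P * P * Q + P * Q * P + Q * P * P) + t ^ 2 • (P * Q * Q + Q * P * Q + Q * Q * P) +
      t ^ 3 • (Q * Q * Q) := by
    simp only [add_mul, mul_add, smul_mul_assoc, mul_smul_comm, smul_smul, smul_add]
    module
  have c1 : (P * Q * P).trace = (P * P * Q).trace := by
    rw [Matrix.trace_mul_cycle]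
  have c2 : (Q * P * P).trace = (P * P * Q).trace := by
    rw [mul_assoc, Matrix.trace_mul_comm]
  have c3 : (Q * P * Q).trace = (Q * Q * P).trace := by
    rw [mul_assoc, Matrix.trace_mul_comm, mul_assoc, Matrix.trace_mul_comm]
  have c4 : (P * Q * Q).trace = (Q * Q * P).trace := by
    rw [mul_assoc, Matrix.trace_mul_comm]
  have d1 : (P * Q * P * T).trace = (P * P * Q * T).trace := by
    rw [mul_assoc (P * Q) P T, hAT, ← mul_assoc, Matrix.trace_mul_comm]
    rw [mul_assoc P Q T, ← mul_assoc, ← mul_assoc]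
  have d2 : (Q * P * P * T).trace = (P * P * Q * T).trace := by
    rw [mul_assoc Q P P, mul_assoc Q (P * P) T, Matrix.trace_mul_comm]
    rw [mul_assoc (P * P) T Q, ← hBT, ← mul_assoc]
  have d3 : (Q * P * Q * T).trace = (Q * Q * P * T).trace := by
    rw [mul_assoc (Q * P) Q T, hBT, ← mul_assoc, Matrix.trace_mul_comm]
    rw [mul_assoc Q P T, ← mul_assoc, ← mul_assoc]
  have d4 : (P * Q * Q * T).trace = (Q * Q * P * T).trace := by
    rw [mul_assoc P Q Q, mul_assoc P (Q * Q) T, Matrix.trace_mul_comm]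
    rw [mul_assoc (Q * Q) T P, ← hAT, ← mul_assoc]
  rw [e1]
  simp only [add_mul, smul_mul_assoc, Matrix.trace_add, Matrix.trace_smul, smul_eq_mul, c1, c2,
    c3, c4, d1, d2, d3, d4, smul_add]
  ring

/-- The norm of a sum. -/
theorem nS_add (t : ℝ) : nS (fun a b c d => A a b c d + t * B a b c d) =
    nS A + 2 * t * ip A B + t ^ 2 * nS B := by
  unfold nS ip
  simp only [Finset.mul_sum, ← Finset.sum_add_distrib]
  refine Finset.sum_congr rfl fun a _ => Finset.sum_congr rfl fun b _ =>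
      Finset.sum_congr rfl fun c _ => Finset.sum_congr rfl fun d _ => ?_
  ring

/-- The reaction term as a sum of endomorphisms. -/
theorem Mt_Qt (h : IsCurv A) (k l : ι) : Mt (Qt A) k l = ∑ i, ∑ q, A k l i q • Mt A i q +
    (2 : ℝ) • ∑ i, (Mt A k i * Mt A i l - Mt A i l * Mt A k i) := by
  ext m p
  have e1 := sum_M1 h k l m p
  simp only [Matrix.add_apply, Matrix.smul_apply, Matrix.sum_apply, Matrix.sub_apply,
    Matrix.mul_apply, smul_eq_mul, Mt, Matrix.of_apply]
  rw [e1]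
  unfold Qt
  rw [Gm_eq (a := k) (b := m) (c := l) (d := p), Gm_eq (a := k) (b := p) (c := l) (d := m)]
  have e2 : ∀ i, ∑ q, A i l m q * A k i q p = ∑ q, A k i p q * A i l q m := by
    intro i
    refine Finset.sum_congr rfl fun q _ => ?_
    rw [h.a2 i l m q, h.a2 k i q p]
    ring
  simp only [Finset.sum_sub_distrib, e2]
  ring

theorem Qt_comm (h : IsCurv A) {J : Matrix ι ι ℝ} (hJ : ∀ k l, J * Mt A k l = Mt A k l * J)
    (k l : ι) : J * Mt (Qt A) k l = Mt (Qt A) k l * J := by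
  have h1 : ∀ k l, Commute J (Mt A k l) := hJ
  have : Commute J (Mt (Qt A) k l) := by
    rw [Mt_Qt h]
    refine Commute.add_right (Commute.sum_right _ _ _ fun i _ =>
      Commute.sum_right _ _ _ fun q _ => (h1 i q).smul_right _) (Commute.smul_right
      (Commute.sum_right _ _ _ fun i _ => ?_) _)
    exact ((h1 k i).mul_right (h1 i l)).sub_right ((h1 i l).mul_right (h1 k i))
  exact this

theorem Qt_kill (h : IsCurv A) {v : ι → ℝ} (hv : ∀ k l, Mt A k l *ᵥ v = 0)
    (k l : ι) : Mt (Qt A) k l *ᵥ v = 0 := by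
  rw [Mt_Qt h, Matrix.add_mulVec, Matrix.smul_mulVec, Matrix.sum_mulVec, Matrix.sum_mulVec]
  have e1 : ∀ i, (∑ q, A k l i q • Mt A i q) *ᵥ v = 0 := by
    intro i
    rw [Matrix.sum_mulVec]
    refine Finset.sum_eq_zero fun q _ => ?_
    rw [Matrix.smul_mulVec, hv, smul_zero]
  have e2 : ∀ i, (Mt A k i * Mt A i l - Mt A i l * Mt A k i) *ᵥ v = 0 := by
    intro i
    rw [Matrix.sub_mulVec, ← Matrix.mulVec_mulVec, ← Matrix.mulVec_mulVec, hv, hv,
      Matrix.mulVec_zero, Matrix.mulVec_zero, sub_zero]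
  simp [e1, e2]

end Pool.Agent.L5helper93.Sas
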