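import Mathlib
import Pool.Agent.L5helper93.Sas.Quad

/-!
# Curvature tensors commuting with two complex structures
-/

namespace Pool.Agent.L5helper93.Sas

open Finset Matrix Pool.Agent.L5helper93.Ein

set_option linter.unusedSectionVars false
set_option linter.unusedVariables false
set_option linter.unusedSimpArgs false

variable {ι : Type*} [Fintype ι] [DecidableEq ι] {A B : ι → ι → ι → ι → ℝ}

/-- The matrix `A (a, ·, b, ·)`. -/
def Bm (A : ι → ι → ι → ι → ℝ) (a b : ι → ℝ) : Matrix ι ι ℝ :=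
  Matrix.of fun i q => ∑ k, ∑ l, A k i l q * (a k * b l)

/-- The quadrilinear form. -/
def T4 (A : ι → ι → ι → ι → ℝ) (a b c d : ι → ℝ) : ℝ := b ⬝ᵥ (Bm A a c *ᵥ d)

theorem Bm_add_left (a a' b : ι → ℝ) : Bm A (a + a') b = Bm A a b + Bm A a' b := by
  ext i q
  simp only [Bm, Matrix.of_apply, Matrix.add_apply, Pi.add_apply, ← Finset.sum_add_distrib]
  exact Finset.sum_congr rfl fun k _ => Finset.sum_congr rfl fun l _ => by ring

theorem Bm_add_right (a b b' : ι → ℝ) : Bm A a (b + b') = Bm A a b + Bm A a b' := by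
  ext i q
  simp only [Bm, Matrix.of_apply, Matrix.add_apply, Pi.add_apply, ← Finset.sum_add_distrib]
  exact Finset.sum_congr rfl fun k _ => Finset.sum_congr rfl fun l _ => by ring

theorem Bm_smul_left (t : ℝ) (a b : ι → ℝ) : Bm A (t • a) b = t • Bm A a b := by
  ext i q
  simp only [Bm, Matrix.of_apply, Matrix.smul_apply, Pi.smul_apply, smul_eq_mul, Finset.mul_sum]
  exact Finset.sum_congr rfl fun k _ => Finset.sum_congr rfl fun l _ => by ring

theorem Bm_smul_right (t : ℝ) (a b : ι → ℝ) : Bm A a (t • b) = t • Bm A a b := by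
  ext i q
  simp only [Bm, Matrix.of_apply, Matrix.smul_apply, Pi.smul_apply, smul_eq_mul, Finset.mul_sum]
  exact Finset.sum_congr rfl fun k _ => Finset.sum_congr rfl fun l _ => by ring

theorem Bm_transpose (h : IsCurv A) (a b : ι → ℝ) : (Bm A a b)ᵀ = Bm A b a := by
  ext i q
  simp only [Bm, Matrix.of_apply, Matrix.transpose_apply]
  rw [Finset.sum_comm]
  refine Finset.sum_congr rfl fun k _ => Finset.sum_congr rfl fun l _ => ?_
  rw [h.pair l q k i]
  ring

theorem T4_eq (a b c d : ι → ℝ) : T4 A a b c d =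
    ∑ k, ∑ i, ∑ l, ∑ q, A k i l q * (a k * b i * (c l * d q)) := by
  unfold T4 Bm dotProduct mulVec
  simp only [dotProduct, Matrix.of_apply, Finset.mul_sum, Finset.sum_mul]
  calc ∑ i, ∑ q, ∑ k, ∑ l, b i * (A k i l q * (a k * c l) * d q)
      = ∑ i, ∑ k, ∑ q, ∑ l, b i * (A k i l q * (a k * c l) * d q) :=
        Finset.sum_congr rfl fun i _ => Finset.sum_comm
    _ = ∑ k, ∑ i, ∑ q, ∑ l, b i * (A k i l q * (a k * c l) * d q) := Finset.sum_comm
    _ = ∑ k, ∑ i, ∑ l, ∑ q, b i * (A k i l q * (a k * c l) * d q) :=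
        Finset.sum_congr rfl fun k _ => Finset.sum_congr rfl fun i _ => Finset.sum_comm
    _ = _ := Finset.sum_congr rfl fun k _ => Finset.sum_congr rfl fun i _ =>
        Finset.sum_congr rfl fun l _ => Finset.sum_congr rfl fun q _ => by ring

theorem T4_a1 (h : IsCurv A) (a b c d : ι → ℝ) : T4 A a b c d = - T4 A b a c d := by
  rw [T4_eq, T4_eq, Finset.sum_comm]
  simp only [← Finset.sum_neg_distrib]
  refine Finset.sum_congr rfl fun k _ => Finset.sum_congr rfl fun i _ =>
        Finset.sum_congr rfl fun l _ => Finset.sum_congr rfl fun q _ => ?_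
  rw [h.a1 i k l q]
  ring

theorem T4_a2 (h : IsCurv A) (a b c d : ι → ℝ) : T4 A a b c d = - T4 A a b d c := by
  rw [T4_eq, T4_eq]
  simp only [← Finset.sum_neg_distrib]
  refine Finset.sum_congr rfl fun k _ => Finset.sum_congr rfl fun i _ => ?_
  rw [Finset.sum_comm]
  refine Finset.sum_congr rfl fun l _ => Finset.sum_congr rfl fun q _ => ?_
  rw [h.a2 k i q l]
  ring

theorem T4_pair (h : IsCurv A) (a b c d : ι → ℝ) : T4 A a b c d = T4 A c d a b := by
  rw [T4_eq, T4_eq]
  have e : ∀ F : ι → ι → ι → ι → ℝ, ∑ a, ∑ b, ∑ c, ∑ d, F a b c d =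
      ∑ c, ∑ d, ∑ a, ∑ b, F a b c d := by
    intro F
    rw [← sum4, Finset.sum_comm, ← sum4 (fun c d a b => F a b c d)]
  rw [e]
  refine Finset.sum_congr rfl fun k _ => Finset.sum_congr rfl fun i _ =>
        Finset.sum_congr rfl fun l _ => Finset.sum_congr rfl fun q _ => ?_
  rw [h.pair l q k i]
  ring

theorem T4_bi (h : IsCurv A) (a b c d : ι → ℝ) :
    T4 A a b c d + T4 A b c a d + T4 A c a b d = 0 := by
  simp only [T4_eq]
  have e1 : ∑ k, ∑ i, ∑ l, ∑ q, A k i l q * (b k * c i * (a l * d q)) =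
      ∑ k, ∑ i, ∑ l, ∑ q, A i l k q * (a k * b i * (c l * d q)) := by
    calc _ = ∑ k, ∑ l, ∑ i, ∑ q, A k i l q * (b k * c i * (a l * d q)) :=
          Finset.sum_congr rfl fun k _ => Finset.sum_comm
      _ = ∑ l, ∑ k, ∑ i, ∑ q, A k i l q * (b k * c i * (a l * d q)) := Finset.sum_comm
      _ = _ := Finset.sum_congr rfl fun k _ => Finset.sum_congr rfl fun i _ =>
        Finset.sum_congr rfl fun l _ => Finset.sum_congr rfl fun q _ => by ring
  have e2 : ∑ k, ∑ i, ∑ l, ∑ q, A k i l q * (c k * a i * (b l * d q)) =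
      ∑ k, ∑ i, ∑ l, ∑ q, A l k i q * (a k * b i * (c l * d q)) := by
    calc _ = ∑ i, ∑ k, ∑ l, ∑ q, A k i l q * (c k * a i * (b l * d q)) := Finset.sum_comm
      _ = ∑ i, ∑ l, ∑ k, ∑ q, A k i l q * (c k * a i * (b l * d q)) :=
          Finset.sum_congr rfl fun k _ => Finset.sum_comm
      _ = _ := Finset.sum_congr rfl fun k _ => Finset.sum_congr rfl fun i _ =>
        Finset.sum_congr rfl fun l _ => Finset.sum_congr rfl fun q _ => by ring
  rw [e1, e2]
  simp only [← Finset.sum_add_distrib]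
  refine Finset.sum_eq_zero fun k _ => Finset.sum_eq_zero fun i _ =>
        Finset.sum_eq_zero fun l _ => Finset.sum_eq_zero fun q _ => ?_
  have := h.bi k i l q
  rw [← add_mul, ← add_mul, this, zero_mul]

theorem T4_add1 (a a' b c d : ι → ℝ) : T4 A (a + a') b c d = T4 A a b c d + T4 A a' b c d := by
  unfold T4
  rw [Bm_add_left, Matrix.add_mulVec, dotProduct_add]

theorem T4_add2 (a b b' c d : ι → ℝ) : T4 A a (b + b') c d = T4 A a b c d + T4 A a b' c d := by
  unfold T4
  rw [add_dotProduct]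

theorem T4_add3 (a b c c' d : ι → ℝ) : T4 A a b (c + c') d = T4 A a b c d + T4 A a b c' d := by
  unfold T4
  rw [Bm_add_right, Matrix.add_mulVec, dotProduct_add]

theorem T4_add4 (a b c d d' : ι → ℝ) : T4 A a b c (d + d') = T4 A a b c d + T4 A a b c d' := by
  unfold T4
  rw [Matrix.mulVec_add, dotProduct_add]

theorem T4_smul1 (t : ℝ) (a b c d : ι → ℝ) : T4 A (t • a) b c d = t * T4 A a b c d := by
  unfold T4
  rw [Bm_smul_left, Matrix.smul_mulVec, dotProduct_smul, smul_eq_mul]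

theorem T4_smul2 (t : ℝ) (a b c d : ι → ℝ) : T4 A a (t • b) c d = t * T4 A a b c d := by
  unfold T4
  rw [smul_dotProduct, smul_eq_mul]

theorem T4_smul3 (t : ℝ) (a b c d : ι → ℝ) : T4 A a b (t • c) d = t * T4 A a b c d := by
  unfold T4
  rw [Bm_smul_right, Matrix.smul_mulVec, dotProduct_smul, smul_eq_mul]

theorem T4_smul4 (t : ℝ) (a b c d : ι → ℝ) : T4 A a b c (t • d) = t * T4 A a b c d := by
  unfold T4
  rw [Matrix.mulVec_smul, dotProduct_smul, smul_eq_mul]

/-- The quaternionic structure on the horizontal space; `v` are the vertical vectors. -/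
structure Quat (J : Fin 3 → Matrix ι ι ℝ) (v : Fin 3 → ι → ℝ) : Prop where
  skew : ∀ a, (J a)ᵀ = - J a
  sq : ∀ a, J a * J a = - 1 + vecMulVec (v a) (v a)
  m01 : J 0 * J 1 = J 2 + vecMulVec (v 0) (v 1)
  m12 : J 1 * J 2 = J 0 + vecMulVec (v 1) (v 2)
  m20 : J 2 * J 0 = J 1 + vecMulVec (v 2) (v 0)
  on : ∀ a b, v a ⬝ᵥ v b = if a = b then 1 else 0

/-- Algebraic curvature tensors which commute with the quaternionic structure and vanish on
vertical vectors. -/
structure HKT (J : Fin 3 → Matrix ι ι ℝ) (v : Fin 3 → ι → ℝ) (A : ι → ι → ι → ι → ℝ) :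
    Prop where
  curv : IsCurv A
  comm : ∀ a k l, J a * Mt A k l = Mt A k l * J a
  kill : ∀ a k l, Mt A k l *ᵥ v a = 0

variable {J : Fin 3 → Matrix ι ι ℝ} {v : Fin 3 → ι → ℝ}

theorem HKT.react (h : HKT J v A) : HKT J v (Qt A) where
  curv := Qt_curv h.curv
  comm a := Qt_comm h.curv (h.comm a)
  kill a := Qt_kill h.curv (h.kill a)

theorem Mt_add (t : ℝ) (k l : ι) : Mt (fun a b c d => A a b c d + t * B a b c d) k l =
    Mt A k l + t • Mt B k l := by
  ext m p
  simp [Mt]

theorem Mt_smul (t : ℝ) (k l : ι) : Mt (fun a b c d => t * A a b c d) k l = t • Mt A k l := by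
  ext m p
  simp [Mt]

theorem HKT.add (h : HKT J v A) (h' : HKT J v B) (t : ℝ) :
    HKT J v (fun a b c d => A a b c d + t * B a b c d) where
  curv := by
    refine ⟨?_, ?_, ?_⟩
    · intro a b c d; simp only [h.curv.a1 a b c d, h'.curv.a1 a b c d]; ring
    · intro a b c d; simp only [h.curv.a2 a b c d, h'.curv.a2 a b c d]; ring
    · intro a b c d
      have e1 := h.curv.bi a b c d
      have e2 := h'.curv.bi a b c d
      linear_combination e1 + t * e2
  comm := by
    intro a k l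
    rw [Mt_add, mul_add, add_mul, h.comm, mul_smul_comm, smul_mul_assoc, h'.comm]
  kill := by
    intro a k l
    rw [Mt_add, Matrix.add_mulVec, Matrix.smul_mulVec, h.kill, h'.kill, smul_zero, add_zero]

theorem HKT.smul (h : HKT J v A) (t : ℝ) : HKT J v (fun a b c d => t * A a b c d) where
  curv := by
    refine ⟨?_, ?_, ?_⟩
    · intro a b c d; simp only [h.curv.a1 a b c d]; ring
    · intro a b c d; simp only [h.curv.a2 a b c d]; ring
    · intro a b c d
      have e1 := h.curv.bi a b c d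
      linear_combination t * e1
  comm := by
    intro a k l
    rw [Mt_smul, mul_smul_comm, smul_mul_assoc, h.comm]
  kill := by
    intro a k l
    rw [Mt_smul, Matrix.smul_mulVec, h.kill, smul_zero]

/-! ### The quaternionic structure -/

theorem Quat.Jv (q : Quat J v) (a : Fin 3) : J a *ᵥ v a = 0 := by
  have h1 : (J a *ᵥ v a) ⬝ᵥ (J a *ᵥ v a) = 0 := by
    have h2 : J a *ᵥ (J a *ᵥ v a) = 0 := by
      rw [Matrix.mulVec_mulVec, q.sq, Matrix.add_mulVec, Matrix.neg_mulVec, Matrix.one_mulVec,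
        Matrix.vecMulVec_mulVec, q.on]
      simp
    rw [Matrix.dotProduct_mulVec, ← Matrix.mulVec_transpose, q.skew, Matrix.neg_mulVec, h2]
    simp
  exact dotProduct_self_eq_zero.1 h1

theorem Quat.skew_dot (q : Quat J v) (a : Fin 3) (x y : ι → ℝ) :
    (J a *ᵥ x) ⬝ᵥ y = - (x ⬝ᵥ (J a *ᵥ y)) := by
  rw [Matrix.dotProduct_mulVec, ← Matrix.mulVec_transpose, q.skew, Matrix.neg_mulVec,
    neg_dotProduct, neg_neg]

theorem Quat.sqv (q : Quat J v) (a : Fin 3) (x : ι → ℝ) :
    J a *ᵥ (J a *ᵥ x) = - x + (v a ⬝ᵥ x) • v a := by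
  rw [Matrix.mulVec_mulVec, q.sq, Matrix.add_mulVec, Matrix.neg_mulVec, Matrix.one_mulVec,
    Matrix.vecMulVec_mulVec, op_smul_eq_smul]

theorem Quat.m10 (q : Quat J v) : J 1 * J 0 = - J 2 + vecMulVec (v 1) (v 0) := by
  have := congrArg Matrix.transpose q.m01
  rw [Matrix.transpose_mul, q.skew, q.skew, Matrix.transpose_add, q.skew, neg_mul_neg,
    Matrix.transpose_vecMulVec] at this
  exact this

theorem Quat.m21 (q : Quat J v) : J 2 * J 1 = - J 0 + vecMulVec (v 2) (v 1) := by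
  have := congrArg Matrix.transpose q.m12
  rw [Matrix.transpose_mul, q.skew, q.skew, Matrix.transpose_add, q.skew, neg_mul_neg,
    Matrix.transpose_vecMulVec] at this
  exact this

theorem Quat.m02 (q : Quat J v) : J 0 * J 2 = - J 1 + vecMulVec (v 0) (v 2) := by
  have := congrArg Matrix.transpose q.m20
  rw [Matrix.transpose_mul, q.skew, q.skew, Matrix.transpose_add, q.skew, neg_mul_neg,
    Matrix.transpose_vecMulVec] at this
  exact this

/-! ### Shifting the complex structures -/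

theorem HKT.Bm_J (h : HKT J v A) (q : Quat J v) (s : Fin 3) (a b : ι → ℝ) :
    Bm A a (J s *ᵥ b) = - (Bm A a b * J s) := by
  ext i r
  have hc : ∀ k l m p, ∑ r, J s m r * A k l r p = ∑ r, A k l m r * J s r p := by
    intro k l m p
    have := congrFun (congrFun (h.comm s k l) m) p
    simpa only [Matrix.mul_apply, Mt, Matrix.of_apply] using this
  have hs : ∀ m r, J s m r = - J s r m := by
    intro m r
    have := congrFun (congrFun (q.skew s) r) m
    simpa only [Matrix.transpose_apply, Matrix.neg_apply] using this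
  simp only [Bm, Matrix.of_apply, Matrix.neg_apply, Matrix.mul_apply, mulVec, dotProduct]
  have e1 : ∀ k, ∑ l, A k i l r * (a k * ∑ m, J s l m * b m) =
      ∑ m, a k * b m * - ∑ l, A k i m l * J s l r := by
    intro k
    simp only [Finset.mul_sum]
    rw [Finset.sum_comm]
    refine Finset.sum_congr rfl fun m _ => ?_
    rw [← hc, mul_neg, Finset.mul_sum, ← Finset.sum_neg_distrib]
    refine Finset.sum_congr rfl fun l _ => ?_
    rw [hs m l]
    ring
  rw [Finset.sum_congr rfl fun k _ => e1 k]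
  simp only [Finset.sum_mul]
  rw [Finset.sum_comm]
  calc ∑ m, ∑ k, a k * b m * - ∑ l, A k i m l * J s l r
      = ∑ m, ∑ k, ∑ l, - (A k i m l * (a k * b m) * J s l r) := by
        refine Finset.sum_congr rfl fun m _ => Finset.sum_congr rfl fun k _ => ?_
        rw [mul_neg, Finset.mul_sum, ← Finset.sum_neg_distrib]
        exact Finset.sum_congr rfl fun l _ => by ring
    _ = ∑ m, ∑ l, ∑ k, - (A k i m l * (a k * b m) * J s l r) :=
        Finset.sum_congr rfl fun m _ => Finset.sum_comm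
    _ = ∑ l, ∑ m, ∑ k, - (A k i m l * (a k * b m) * J s l r) := Finset.sum_comm
    _ = ∑ l, ∑ k, ∑ m, - (A k i m l * (a k * b m) * J s l r) :=
        Finset.sum_congr rfl fun m _ => Finset.sum_comm
    _ = - ∑ l, ∑ k, ∑ m, (A k i m l * (a k * b m) * J s l r) := by
        simp only [Finset.sum_neg_distrib]

theorem HKT.Bm_v (h : HKT J v A) (s : Fin 3) (a b : ι → ℝ) : Bm A a b *ᵥ v s = 0 := by
  ext i
  have hc : ∀ k l m, ∑ p, A k l m p * v s p = 0 := by
    intro k l m
    have := congrFun (h.kill s k l) m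
    simpa only [mulVec, dotProduct, Mt, Matrix.of_apply, Pi.zero_apply] using this
  simp only [Bm, mulVec, dotProduct, Matrix.of_apply, Pi.zero_apply, Finset.sum_mul]
  calc ∑ q, ∑ k, ∑ l, A k i l q * (a k * b l) * v s q
      = ∑ k, ∑ q, ∑ l, A k i l q * (a k * b l) * v s q := Finset.sum_comm
    _ = ∑ k, ∑ l, ∑ q, A k i l q * (a k * b l) * v s q :=
        Finset.sum_congr rfl fun k _ => Finset.sum_comm
    _ = 0 := by
        refine Finset.sum_eq_zero fun k _ => Finset.sum_eq_zero fun l _ => ?_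
        have : ∀ q, A k i l q * (a k * b l) * v s q = (a k * b l) * (A k i l q * v s q) := by
          intro q; ring
        simp only [this, ← Finset.mul_sum, hc, mul_zero]

theorem HKT.J34 (h : HKT J v A) (q : Quat J v) (s : Fin 3) (a b c d : ι → ℝ) :
    T4 A a b (J s *ᵥ c) d = - T4 A a b c (J s *ᵥ d) := by
  unfold T4
  rw [h.Bm_J q, Matrix.neg_mulVec, dotProduct_neg, Matrix.mulVec_mulVec]

theorem HKT.J12 (h : HKT J v A) (q : Quat J v) (s : Fin 3) (a b c d : ι → ℝ) :
    T4 A (J s *ᵥ a) b c d = - T4 A a (J s *ᵥ b) c d := by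
  rw [T4_pair h.curv, h.J34 q, T4_pair h.curv]

theorem HKT.v4 (h : HKT J v A) (s : Fin 3) (a b c : ι → ℝ) : T4 A a b c (v s) = 0 := by
  unfold T4
  rw [h.Bm_v, dotProduct_zero]

theorem HKT.v3 (h : HKT J v A) (s : Fin 3) (a b c : ι → ℝ) : T4 A a b (v s) c = 0 := by
  rw [T4_a2 h.curv, h.v4, neg_zero]

theorem HKT.v2 (h : HKT J v A) (s : Fin 3) (a b c : ι → ℝ) : T4 A a (v s) b c = 0 := by
  rw [T4_pair h.curv, h.v4]

theorem HKT.v1 (h : HKT J v A) (s : Fin 3) (a b c : ι → ℝ) : T4 A (v s) a b c = 0 := by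
  rw [T4_pair h.curv, h.v3]

theorem HKT.JJ (h : HKT J v A) (q : Quat J v) (s : Fin 3) (a b c d : ι → ℝ) :
    T4 A a b (J s *ᵥ c) (J s *ᵥ d) = T4 A a b c d := by
  rw [h.J34 q, q.sqv, T4_add4, T4_smul4, h.v4]
  have : (-d : ι → ℝ) = (-1 : ℝ) • d := by simp
  rw [this, T4_smul4]
  ring

/-- The holomorphic sectional curvature form. -/
def Fh (J : Matrix ι ι ℝ) (A : ι → ι → ι → ι → ℝ) (u : ι → ℝ) : ℝ :=
  T4 A u (J *ᵥ u) u (J *ᵥ u)

/-- Expansion of the holomorphic sectional curvature. -/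
theorem HKT.F_expand (h : HKT J v A) (q : Quat J v) (s : Fin 3) (x w : ι → ℝ) :
    ∃ c3 c4 : ℝ, ∀ t : ℝ, Fh (J s) A (x + t • w) = Fh (J s) A x +
      4 * T4 A x (J s *ᵥ w) x (J s *ᵥ x) * t +
      (2 * T4 A x w x w + 6 * T4 A x (J s *ᵥ w) x (J s *ᵥ w)) * t ^ 2 + c3 * t ^ 3 +
      c4 * t ^ 4 := by
  set y := J s *ᵥ x with hy
  set z := J s *ᵥ w with hz
  refine ⟨T4 A w z w y + T4 A w z x z + T4 A w y w z + T4 A x z w z, T4 A w z w z, fun t => ?_⟩
  have a1 : T4 A w y x y = T4 A x z x y := by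
    rw [hy, hz]
    have := h.J12 q s w x x (J s *ᵥ x)
    have e2 := T4_a1 h.curv (J s *ᵥ w) x x (J s *ᵥ x)
    linarith
  have a2 : T4 A x y w y = T4 A x z x y := by rw [T4_pair h.curv, a1]
  have a3 : T4 A x y x z = T4 A x z x y := T4_pair h.curv _ _ _ _
  have b1 : T4 A w y w y = T4 A x z x z := by
    rw [hy, hz]
    have e1 := h.J12 q s w x w (J s *ᵥ x)
    have e2 := T4_a1 h.curv (J s *ᵥ w) x w (J s *ᵥ x)
    have e3 := h.J34 q s x (J s *ᵥ w) w x
    have e4 := T4_a2 h.curv x (J s *ᵥ w) (J s *ᵥ w) x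
    linarith
  have b2 : T4 A x z w y = T4 A x z x z := by
    rw [hy, hz]
    have e3 := h.J34 q s x (J s *ᵥ w) w x
    have e4 := T4_a2 h.curv x (J s *ᵥ w) (J s *ᵥ w) x
    linarith
  have b3 : T4 A w y x z = T4 A x z x z := by rw [T4_pair h.curv, b2]
  have b4 : T4 A x y w z = T4 A x z x z + T4 A x w x w := by
    have e1 := T4_bi h.curv x y w z
    have e2 : T4 A y w x z = - T4 A x z x z := by
      rw [hy]; exact h.J12 q s x w x z
    have e3 : T4 A w x y z = - T4 A x w x w := by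
      have := h.JJ q s w x x w
      rw [hy, hz, this, T4_a1 h.curv]
    linarith
  have b5 : T4 A w z x y = T4 A x z x z + T4 A x w x w := by rw [T4_pair h.curv, b4]
  have hm : J s *ᵥ (x + t • w) = y + t • z := by
    rw [Matrix.mulVec_add, Matrix.mulVec_smul]
  unfold Fh
  rw [hm]
  simp only [T4_add1, T4_add2, T4_add3, T4_add4, T4_smul1, T4_smul2, T4_smul3, T4_smul4]
  rw [a1, a2, a3, b1, b2, b3, b4, b5]
  ring

theorem poly_nonneg {a b c d : ℝ} (h : ∀ t : ℝ, 0 ≤ a * t + b * t ^ 2 + c * t ^ 3 + d * t ^ 4) :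
    a = 0 ∧ 0 ≤ b := by
  have h1 : a = 0 := by
    by_contra ha
    -- choose t = - s a with small s
    obtain ⟨K, hK⟩ : ∃ K, K = |b| + |c| + |d| + 1 := ⟨_, rfl⟩
    have hK1 : 1 ≤ K := by
      have := abs_nonneg b
      have := abs_nonneg c
      have := abs_nonneg d
      linarith
    have hap : 0 < |a| := abs_pos.2 ha
    obtain ⟨s, hs⟩ : ∃ s, s = min 1 (|a| / (2 * K)) := ⟨_, rfl⟩
    have hs0 : 0 < s := by rw [hs]; exact lt_min one_pos (by positivity)
    have hs1 : s ≤ 1 := by rw [hs]; exact min_le_left _ _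
    have hs2 : s * (2 * K) ≤ |a| := by
      have : s ≤ |a| / (2 * K) := by rw [hs]; exact min_le_right _ _
      calc s * (2 * K) ≤ |a| / (2 * K) * (2 * K) := by gcongr
        _ = |a| := by field_simp
    have key : ∀ t : ℝ, |t| = s → a * t = - (|a| * s) → False := by
      intro t ht hat
      have h2 := h t
      have b1 : b * t ^ 2 ≤ |b| * s ^ 2 := by
        calc b * t ^ 2 ≤ |b * t ^ 2| := le_abs_self _
          _ = |b| * s ^ 2 := by rw [abs_mul, abs_pow, ht]
      have b2 : c * t ^ 3 ≤ |c| * s ^ 2 := by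
        calc c * t ^ 3 ≤ |c * t ^ 3| := le_abs_self _
          _ = |c| * s ^ 3 := by rw [abs_mul, abs_pow, ht]
          _ ≤ |c| * s ^ 2 := by
            refine mul_le_mul_of_nonneg_left ?_ (abs_nonneg c)
            exact pow_le_pow_of_le_one hs0.le hs1 (by norm_num)
      have b3 : d * t ^ 4 ≤ |d| * s ^ 2 := by
        calc d * t ^ 4 ≤ |d * t ^ 4| := le_abs_self _
          _ = |d| * s ^ 4 := by rw [abs_mul, abs_pow, ht]
          _ ≤ |d| * s ^ 2 := by
            refine mul_le_mul_of_nonneg_left ?_ (abs_nonneg d)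
            exact pow_le_pow_of_le_one hs0.le hs1 (by norm_num)
      have h3 : |a| * s ≤ (|b| + |c| + |d|) * s ^ 2 := by nlinarith
      have h4 : (|b| + |c| + |d|) * s ^ 2 < K * s ^ 2 := by
        have : 0 < s ^ 2 := by positivity
        rw [hK]; nlinarith
      have h5 : K * s ^ 2 ≤ |a| * s / 2 := by nlinarith
      have h6 : 0 < |a| * s := mul_pos hap hs0
      linarith
    rcases lt_or_gt_of_ne ha with h2 | h2
    · refine key s (abs_of_pos hs0) ?_
      rw [abs_of_neg h2]; ring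
    · refine key (-s) (by rw [abs_neg, abs_of_pos hs0]) ?_
      rw [abs_of_pos h2]; ring
  refine ⟨h1, ?_⟩
  by_contra hb
  push Not at hb
  obtain ⟨K, hK⟩ : ∃ K, K = |c| + |d| + 1 := ⟨_, rfl⟩
  have hK1 : 1 ≤ K := by
    have := abs_nonneg c
    have := abs_nonneg d
    linarith
  obtain ⟨s, hs⟩ : ∃ s, s = min 1 (-b / (2 * K)) := ⟨_, rfl⟩
  have hs0 : 0 < s := by rw [hs]; exact lt_min one_pos (div_pos (by linarith) (by positivity))
  have hs1 : s ≤ 1 := by rw [hs]; exact min_le_left _ _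
  have hs2 : s * (2 * K) ≤ -b := by
    have : s ≤ -b / (2 * K) := by rw [hs]; exact min_le_right _ _
    calc s * (2 * K) ≤ -b / (2 * K) * (2 * K) := by gcongr
      _ = -b := by field_simp
  have h2 := h s
  rw [h1] at h2
  have b2 : c * s ^ 3 ≤ |c| * s ^ 3 := mul_le_mul_of_nonneg_right (le_abs_self c) (by positivity)
  have b3 : d * s ^ 4 ≤ |d| * s ^ 3 := by
    calc d * s ^ 4 ≤ |d| * s ^ 4 := mul_le_mul_of_nonneg_right (le_abs_self d) (by positivity)
      _ ≤ |d| * s ^ 3 := mul_le_mul_of_nonneg_left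
        (pow_le_pow_of_le_one hs0.le hs1 (by norm_num)) (abs_nonneg d)
  have h3 : -b * s ^ 2 ≤ (|c| + |d|) * s ^ 3 := by nlinarith
  have h4 : (|c| + |d|) * s ^ 3 < K * s ^ 3 := by
    have : 0 < s ^ 3 := by positivity
    rw [hK]; nlinarith
  have h5 : K * s ^ 3 ≤ -b * s ^ 2 / 2 := by nlinarith [sq_nonneg s]
  have h6 : 0 < -b * s ^ 2 := mul_pos (by linarith) (by positivity)
  linarith

end Pool.Agent.L5helper93.Sas
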