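import Mathlib
import Pool.Agent.L5helper93.Sas.Poly

/-!
# A trace estimate for symmetric matrices
-/

namespace Pool.Agent.L5helper93.Sas

open Finset Matrix Pool.Agent.L5helper93.Ein

set_option linter.unusedSectionVars false
set_option linter.unusedVariables false
set_option linter.unusedSimpArgs false

variable {ι : Type*} [Fintype ι] [DecidableEq ι]

theorem trace_psd_mul {A B : Matrix ι ι ℝ} (hA : ∀ u : ι → ℝ, 0 ≤ u ⬝ᵥ (A *ᵥ u))
    (hB : B.PosSemidef) : 0 ≤ (A * B).trace := by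
  obtain ⟨m, v, hv⟩ := Matrix.posSemidef_iff_eq_sum_vecMulVec.1 hB
  rw [hv, Finset.mul_sum, Matrix.trace_sum]
  refine Finset.sum_nonneg fun i _ => ?_
  rw [Matrix.mul_vecMulVec, Matrix.trace_vecMulVec]
  have : star (v i) = v i := by ext; simp
  rw [this, dotProduct_comm]
  exact hA _

theorem psd_of {A : Matrix ι ι ℝ} (hs : Aᵀ = A) (hA : ∀ u : ι → ℝ, 0 ≤ u ⬝ᵥ (A *ᵥ u)) :
    A.PosSemidef := by
  refine Matrix.PosSemidef.of_dotProduct_mulVec_nonneg ?_ ?_
  · rw [Matrix.IsHermitian, Matrix.conjTranspose_eq_transpose_of_trivial]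
    exact hs
  · intro x
    have : star x = x := by ext; simp
    rw [this]
    exact hA x

theorem sym_dot {A : Matrix ι ι ℝ} (hs : Aᵀ = A) (x y : ι → ℝ) :
    (A *ᵥ x) ⬝ᵥ y = x ⬝ᵥ (A *ᵥ y) := by
  rw [Matrix.dotProduct_mulVec, ← Matrix.mulVec_transpose, hs]

/-- A symmetric matrix with given orthonormal eigenvectors and bounded on their orthogonal
complement. -/
theorem trace_bound {m : ℕ} {M : Matrix ι ι ℝ} (hM : Mᵀ = M) (c : Fin m → ι → ℝ)
    (hc : ∀ i j, c i ⬝ᵥ c j = if i = j then 1 else 0) (μ : Fin m → ℝ)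
    (hμ : ∀ j, M *ᵥ c j = μ j • c j) {r : ℝ}
    (hr : ∀ u : ι → ℝ, (∀ j, c j ⬝ᵥ u = 0) → |u ⬝ᵥ (M *ᵥ u)| ≤ r * (u ⬝ᵥ u)) :
    (M * M).trace ≤ ∑ j, μ j ^ 2 + r ^ 2 * ((Fintype.card ι : ℝ) - m) := by
  obtain ⟨Pr, hPr⟩ : ∃ Pr : Matrix ι ι ℝ, Pr = ∑ j, vecMulVec (c j) (c j) := ⟨_, rfl⟩
  obtain ⟨S, hS⟩ : ∃ S : Matrix ι ι ℝ, S = ∑ j, μ j • vecMulVec (c j) (c j) := ⟨_, rfl⟩
  obtain ⟨E, hE⟩ : ∃ E : Matrix ι ι ℝ, E = 1 - Pr := ⟨_, rfl⟩
  obtain ⟨N, hN⟩ : ∃ N : Matrix ι ι ℝ, N = M - S := ⟨_, rfl⟩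
  have tPr : Prᵀ = Pr := by
    rw [hPr, Matrix.transpose_sum]
    exact Finset.sum_congr rfl fun j _ => Matrix.transpose_vecMulVec _ _
  have tS : Sᵀ = S := by
    rw [hS, Matrix.transpose_sum]
    refine Finset.sum_congr rfl fun j _ => ?_
    rw [Matrix.transpose_smul, Matrix.transpose_vecMulVec]
  have tE : Eᵀ = E := by rw [hE, Matrix.transpose_sub, Matrix.transpose_one, tPr]
  have tN : Nᵀ = N := by rw [hN, Matrix.transpose_sub, hM, tS]
  have Sv : ∀ u, S *ᵥ u = ∑ j, (μ j * (c j ⬝ᵥ u)) • c j := by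
    intro u
    rw [hS, Matrix.sum_mulVec]
    refine Finset.sum_congr rfl fun j _ => ?_
    rw [Matrix.smul_mulVec, Matrix.vecMulVec_mulVec, op_smul_eq_smul, smul_smul]
  have Prv : ∀ u, Pr *ᵥ u = ∑ j, (c j ⬝ᵥ u) • c j := by
    intro u
    rw [hPr, Matrix.sum_mulVec]
    refine Finset.sum_congr rfl fun j _ => ?_
    rw [Matrix.vecMulVec_mulVec, op_smul_eq_smul]
  have Prc : ∀ j, Pr *ᵥ c j = c j := by
    intro j
    rw [Prv]
    simp [hc]
  have Ec : ∀ j, E *ᵥ c j = 0 := by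
    intro j
    rw [hE, Matrix.sub_mulVec, Matrix.one_mulVec, Prc, sub_self]
  have Nc : ∀ j, N *ᵥ c j = 0 := by
    intro j
    rw [hN, Matrix.sub_mulVec, hμ, Sv]
    simp [hc]
  have cE : ∀ j u, c j ⬝ᵥ (E *ᵥ u) = 0 := by
    intro j u
    rw [← sym_dot tE, Ec, zero_dotProduct]
  have EE : E * E = E := by
    have h1 : Pr * Pr = Pr := by
      have : Pr * Pr = ∑ j, vecMulVec (Pr *ᵥ c j) (c j) := by
        nth_rewrite 2 [hPr]
        rw [Finset.mul_sum]
        exact Finset.sum_congr rfl fun j _ => Matrix.mul_vecMulVec _ _ _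
      rw [this]
      simp only [Prc]
      exact hPr.symm
    rw [hE, sub_mul, mul_sub, mul_sub, one_mul, mul_one, one_mul, h1, sub_self, sub_zero]
  have NE : ∀ u, N *ᵥ (E *ᵥ u) = N *ᵥ u := by
    intro u
    rw [hE, Matrix.sub_mulVec, Matrix.one_mulVec, Matrix.mulVec_sub, Prv, Matrix.mulVec_sum]
    simp [Matrix.mulVec_smul, Nc]
  have uE : ∀ u, u ⬝ᵥ (E *ᵥ u) = (E *ᵥ u) ⬝ᵥ (E *ᵥ u) := by
    intro u
    rw [sym_dot tE, Matrix.mulVec_mulVec, EE]
  have uN : ∀ u, u ⬝ᵥ (N *ᵥ u) = (E *ᵥ u) ⬝ᵥ (M *ᵥ (E *ᵥ u)) := by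
    intro u
    have h1 : M *ᵥ (E *ᵥ u) = N *ᵥ (E *ᵥ u) := by
      rw [hN, Matrix.sub_mulVec, Sv]
      simp [cE]
    rw [h1, NE, ← sym_dot tN (E *ᵥ u) u, NE, sym_dot tN]
  have hbound : ∀ u, |u ⬝ᵥ (N *ᵥ u)| ≤ r * (u ⬝ᵥ (E *ᵥ u)) := by
    intro u
    rw [uN, uE]
    exact hr _ fun j => cE j u
  have hP : (r • E + N).PosSemidef := by
    refine psd_of (by rw [Matrix.transpose_add, Matrix.transpose_smul, tE, tN]) fun u => ?_
    rw [Matrix.add_mulVec, Matrix.smul_mulVec, dotProduct_add, dotProduct_smul, smul_eq_mul]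
    have := abs_le.1 (hbound u)
    linarith
  have hQ : ∀ u : ι → ℝ, 0 ≤ u ⬝ᵥ ((r • E - N) *ᵥ u) := by
    intro u
    rw [Matrix.sub_mulVec, Matrix.smul_mulVec, dotProduct_sub, dotProduct_smul, smul_eq_mul]
    have := abs_le.1 (hbound u)
    linarith
  have h0 := trace_psd_mul hQ hP
  have h1 : (r • E - N) * (r • E + N) = r ^ 2 • E + r • (E * N) - r • (N * E) - N * N := by
    simp only [sub_mul, mul_add, smul_mul_assoc, mul_smul_comm, smul_smul, smul_add, EE]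
    module
  rw [h1, Matrix.trace_sub, Matrix.trace_sub, Matrix.trace_add, Matrix.trace_smul,
    Matrix.trace_smul, Matrix.trace_smul, Matrix.trace_mul_comm E N] at h0
  have trE : E.trace = (Fintype.card ι : ℝ) - m := by
    rw [hE, Matrix.trace_sub, Matrix.trace_one, hPr, Matrix.trace_sum]
    simp [Matrix.trace_vecMulVec, hc]
  have NS : N * S = 0 := by
    rw [hS, Finset.mul_sum]
    refine Finset.sum_eq_zero fun j _ => ?_
    rw [mul_smul_comm, Matrix.mul_vecMulVec, Nc]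
    simp
  have trS : (S * S).trace = ∑ j, μ j ^ 2 := by
    have : S * S = ∑ j, μ j • vecMulVec (S *ᵥ c j) (c j) := by
      nth_rewrite 2 [hS]
      rw [Finset.mul_sum]
      refine Finset.sum_congr rfl fun j _ => ?_
      rw [mul_smul_comm, Matrix.mul_vecMulVec]
    rw [this, Matrix.trace_sum]
    refine Finset.sum_congr rfl fun j _ => ?_
    have Sc : S *ᵥ c j = μ j • c j := by
      rw [Sv]
      simp [hc]
    rw [Matrix.trace_smul, Matrix.trace_vecMulVec, Sc, smul_dotProduct, hc]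
    simp [sq]
  have hMM : (M * M).trace = (N * N).trace + (S * S).trace := by
    have e : M = N + S := by rw [hN, sub_add_cancel]
    have e2 : (S * N).trace = 0 := by rw [Matrix.trace_mul_comm, NS, Matrix.trace_zero]
    rw [e, add_mul, mul_add, mul_add, Matrix.trace_add, Matrix.trace_add, Matrix.trace_add, NS, e2,
      Matrix.trace_zero]
    ring
  rw [hMM, trS]
  simp only [smul_eq_mul, trE] at h0
  linarith

/-- Lower bound of the trace of a square. -/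
theorem trace_lower {M : Matrix ι ι ℝ} (hM : Mᵀ = M) {m : ℕ} (c : Fin m → ι → ℝ)
    (hc : ∀ i j, c i ⬝ᵥ c j = if i = j then 1 else 0) (μ : Fin m → ℝ)
    (hμ : ∀ j, M *ᵥ c j = μ j • c j) : ∑ j, μ j ^ 2 ≤ (M * M).trace := by
  obtain ⟨S, hS⟩ : ∃ S : Matrix ι ι ℝ, S = ∑ j, μ j • vecMulVec (c j) (c j) := ⟨_, rfl⟩
  obtain ⟨N, hN⟩ : ∃ N : Matrix ι ι ℝ, N = M - S := ⟨_, rfl⟩
  have tS : Sᵀ = S := by
    rw [hS, Matrix.transpose_sum]
    refine Finset.sum_congr rfl fun j _ => ?_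
    rw [Matrix.transpose_smul, Matrix.transpose_vecMulVec]
  have tN : Nᵀ = N := by rw [hN, Matrix.transpose_sub, hM, tS]
  have Sv : ∀ u, S *ᵥ u = ∑ j, (μ j * (c j ⬝ᵥ u)) • c j := by
    intro u
    rw [hS, Matrix.sum_mulVec]
    refine Finset.sum_congr rfl fun j _ => ?_
    rw [Matrix.smul_mulVec, Matrix.vecMulVec_mulVec, op_smul_eq_smul, smul_smul]
  have Nc : ∀ j, N *ᵥ c j = 0 := by
    intro j
    rw [hN, Matrix.sub_mulVec, hμ, Sv]
    simp [hc]
  have NS : N * S = 0 := by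
    rw [hS, Finset.mul_sum]
    refine Finset.sum_eq_zero fun j _ => ?_
    rw [mul_smul_comm, Matrix.mul_vecMulVec, Nc]
    simp
  have trS : (S * S).trace = ∑ j, μ j ^ 2 := by
    have : S * S = ∑ j, μ j • vecMulVec (S *ᵥ c j) (c j) := by
      nth_rewrite 2 [hS]
      rw [Finset.mul_sum]
      refine Finset.sum_congr rfl fun j _ => ?_
      rw [mul_smul_comm, Matrix.mul_vecMulVec]
    rw [this, Matrix.trace_sum]
    refine Finset.sum_congr rfl fun j _ => ?_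
    have Sc : S *ᵥ c j = μ j • c j := by
      rw [Sv]
      simp [hc]
    rw [Matrix.trace_smul, Matrix.trace_vecMulVec, Sc, smul_dotProduct, hc]
    simp [sq]
  have hMM : (M * M).trace = (N * N).trace + (S * S).trace := by
    have e : M = N + S := by rw [hN, sub_add_cancel]
    have e2 : (S * N).trace = 0 := by rw [Matrix.trace_mul_comm, NS, Matrix.trace_zero]
    rw [e, add_mul, mul_add, mul_add, Matrix.trace_add, Matrix.trace_add, Matrix.trace_add, NS, e2,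
      Matrix.trace_zero]
    ring
  have hNN : 0 ≤ (N * N).trace := by
    have : N * N = Nᵀ * N := by rw [tN]
    rw [this, Matrix.trace]
    refine Finset.sum_nonneg fun i _ => ?_
    rw [Matrix.diag_apply, Matrix.mul_apply]
    exact Finset.sum_nonneg fun j _ => by
      rw [Matrix.transpose_apply]; exact mul_self_nonneg _
  rw [hMM, trS]
  linarith

/-- A symmetric matrix is determined by its quadratic form. -/
theorem sym_zero {M : Matrix ι ι ℝ} (hM : Mᵀ = M) (h : ∀ u : ι → ℝ, u ⬝ᵥ (M *ᵥ u) = 0) :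
    M = 0 := by
  have h1 : ∀ u w : ι → ℝ, u ⬝ᵥ (M *ᵥ w) = 0 := by
    intro u w
    have := h (u + w)
    rw [Matrix.mulVec_add, add_dotProduct, dotProduct_add, dotProduct_add, h, h,
      ← sym_dot hM w u, dotProduct_comm (M *ᵥ w) u] at this
    linarith
  ext i j
  have := h1 (Pi.single i 1) (Pi.single j 1)
  simpa using this

end Pool.Agent.L5helper93.Sas
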