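import Mathlib
import Pool.Agent.L5helper93.Sas.Trace

/-!
# The reaction term at a maximum of the holomorphic sectional curvature
-/

namespace Pool.Agent.L5helper93.Sas

open Finset Matrix Pool.Agent.L5helper93.Ein

set_option linter.unusedSectionVars false
set_option linter.unusedVariables false
set_option linter.unusedSimpArgs false

variable {ι : Type*} [Fintype ι] [DecidableEq ι] {A B : ι → ι → ι → ι → ℝ}
  {J : Fin 3 → Matrix ι ι ℝ} {v : Fin 3 → ι → ℝ}

theorem Bm_self (h : IsCurv A) (x : ι → ℝ) : Bm A x x *ᵥ x = 0 := by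
  have h1 : ∀ u : ι → ℝ, u ⬝ᵥ (Bm A x x *ᵥ x) = 0 := by
    intro u
    have e := T4_a2 h x u x x
    have e2 : T4 A x u x x = u ⬝ᵥ (Bm A x x *ᵥ x) := rfl
    rw [e2] at e
    linarith
  exact dotProduct_self_eq_zero.1 (h1 _)

theorem Bm_symm (h : IsCurv A) (x : ι → ℝ) : (Bm A x x)ᵀ = Bm A x x := Bm_transpose h x x

/-- The quadrilinear form of the reaction term. -/
def Gv (A : ι → ι → ι → ι → ℝ) (a b c d : ι → ℝ) : ℝ :=
  ∑ k, ∑ i, ∑ l, ∑ q, Gm A k i l q * (a k * b i * (c l * d q))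

theorem Gv_eq (h : IsCurv A) (a b c d : ι → ℝ) :
    Gv A a b c d = (Bm A a b * (Bm A c d)ᵀ).trace := by
  have e1 : (Bm A a b * (Bm A c d)ᵀ).trace = ∑ s, ∑ t, Bm A a b s t * Bm A c d s t := by
    rw [Matrix.trace]
    refine Finset.sum_congr rfl fun s _ => ?_
    rw [Matrix.diag_apply, Matrix.mul_apply]
    rfl
  rw [e1]
  unfold Gv
  have e2 : ∀ k i l q, Gm A k i l q * (a k * b i * (c l * d q)) =
      ∑ s, ∑ t, (A k s i t * (a k * b i)) * (A l s q t * (c l * d q)) := by
    intro k i l q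
    rw [Gm_eq, Finset.sum_mul]
    refine Finset.sum_congr rfl fun s _ => ?_
    rw [Finset.sum_mul]
    refine Finset.sum_congr rfl fun t _ => ?_
    have : A s l t q = A l s q t := by rw [h.a1 s l t q, h.a2 l s t q]; ring
    rw [this]
    ring
  simp only [e2]
  have e3 : ∀ s t, Bm A a b s t * Bm A c d s t = ∑ k, ∑ i, ∑ l, ∑ q,
      (A k s i t * (a k * b i)) * (A l s q t * (c l * d q)) := by
    intro s t
    simp only [Bm, Matrix.of_apply]
    rw [Finset.sum_mul]
    refine Finset.sum_congr rfl fun k _ => ?_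
    rw [Finset.sum_mul]
    refine Finset.sum_congr rfl fun i _ => ?_
    rw [Finset.mul_sum]
    refine Finset.sum_congr rfl fun l _ => ?_
    rw [Finset.mul_sum]
  simp only [e3]
  -- move the sums over `s`, `t` to the front
  have mv : ∀ F : ι → ι → ι → ι → ι → ι → ℝ,
      ∑ k, ∑ i, ∑ l, ∑ q, ∑ s, ∑ t, F k i l q s t = ∑ s, ∑ t, ∑ k, ∑ i, ∑ l, ∑ q,
        F k i l q s t := by
    intro F
    have c1 : ∀ G : ι → ι → ι → ℝ, ∑ q, ∑ s, ∑ t, G q s t = ∑ s, ∑ t, ∑ q, G q s t := by
      intro G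
      rw [Finset.sum_comm]
      exact Finset.sum_congr rfl fun s _ => Finset.sum_comm
    calc _ = ∑ k, ∑ i, ∑ l, ∑ s, ∑ t, ∑ q, F k i l q s t :=
          Finset.sum_congr rfl fun k _ => Finset.sum_congr rfl fun i _ =>
            Finset.sum_congr rfl fun l _ => c1 _
      _ = ∑ k, ∑ i, ∑ s, ∑ t, ∑ l, ∑ q, F k i l q s t :=
          Finset.sum_congr rfl fun k _ => Finset.sum_congr rfl fun i _ =>
            c1 (fun l s t => ∑ q, F k i l q s t)
      _ = ∑ k, ∑ s, ∑ t, ∑ i, ∑ l, ∑ q, F k i l q s t :=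
          Finset.sum_congr rfl fun k _ => c1 (fun i s t => ∑ l, ∑ q, F k i l q s t)
      _ = _ := c1 (fun k s t => ∑ i, ∑ l, ∑ q, F k i l q s t)
  exact mv (fun k i l q s t => (A k s i t * (a k * b i)) * (A l s q t * (c l * d q)))

theorem T4_Qt (h : IsCurv A) (x y : ι → ℝ) : T4 (Qt A) x y x y =
    2 * (Gv A x y x y - 2 * Gv A x y y x + Gv A x x y y) := by
  rw [T4_eq]
  have e1 : ∑ k, ∑ i, ∑ l, ∑ q, Gm A k i q l * (x k * y i * (x l * y q)) = Gv A x y y x := by
    unfold Gv
    refine Finset.sum_congr rfl fun k _ => Finset.sum_congr rfl fun i _ => ?_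
    rw [Finset.sum_comm]
    refine Finset.sum_congr rfl fun l _ => Finset.sum_congr rfl fun q _ => ?_
    ring
  have e2 : ∑ k, ∑ i, ∑ l, ∑ q, Gm A k l i q * (x k * y i * (x l * y q)) = Gv A x x y y := by
    unfold Gv
    refine Finset.sum_congr rfl fun k _ => ?_
    rw [Finset.sum_comm]
    refine Finset.sum_congr rfl fun l _ => Finset.sum_congr rfl fun i _ =>
      Finset.sum_congr rfl fun q _ => ?_
    ring
  have e3 : ∑ k, ∑ i, ∑ l, ∑ q, Gm A k q i l * (x k * y i * (x l * y q)) = Gv A x y y x := by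
    unfold Gv
    refine Finset.sum_congr rfl fun k _ => ?_
    calc ∑ i, ∑ l, ∑ q, Gm A k q i l * (x k * y i * (x l * y q))
        = ∑ i, ∑ q, ∑ l, Gm A k q i l * (x k * y i * (x l * y q)) :=
          Finset.sum_congr rfl fun i _ => Finset.sum_comm
      _ = ∑ q, ∑ i, ∑ l, Gm A k q i l * (x k * y i * (x l * y q)) := Finset.sum_comm
      _ = _ := Finset.sum_congr rfl fun q _ => Finset.sum_congr rfl fun i _ =>
          Finset.sum_congr rfl fun l _ => by ring
  have e0 : ∑ k, ∑ i, ∑ l, ∑ q, Qt A k i l q * (x k * y i * (x l * y q)) =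
      2 * (∑ k, ∑ i, ∑ l, ∑ q, Gm A k i l q * (x k * y i * (x l * y q)) -
        ∑ k, ∑ i, ∑ l, ∑ q, Gm A k i q l * (x k * y i * (x l * y q)) +
        ∑ k, ∑ i, ∑ l, ∑ q, Gm A k l i q * (x k * y i * (x l * y q)) -
        ∑ k, ∑ i, ∑ l, ∑ q, Gm A k q i l * (x k * y i * (x l * y q))) := by
    unfold Qt
    simp only [← Finset.sum_sub_distrib, ← Finset.sum_add_distrib, Finset.mul_sum]
    refine Finset.sum_congr rfl fun a _ => Finset.sum_congr rfl fun b _ =>
      Finset.sum_congr rfl fun c _ => Finset.sum_congr rfl fun d _ => ?_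
    ring
  rw [e0, e1, e2, e3]
  unfold Gv
  ring

theorem HKT.PJJ (h : HKT J v A) (q : Quat J v) (s : Fin 3) (a b : ι → ℝ) :
    Bm A a b * J s * J s = - Bm A a b := by
  rw [mul_assoc, q.sq, mul_add, mul_neg, mul_one, Matrix.mul_vecMulVec, h.Bm_v,
    Matrix.zero_vecMulVec, add_zero]

theorem HKT.JJP (h : HKT J v A) (q : Quat J v) (s : Fin 3) (a b : ι → ℝ) :
    J s * (J s * Bm A a b) = - Bm A a b := by
  have h1 := congrArg Matrix.transpose (h.PJJ q s b a)
  rw [Matrix.transpose_mul, Matrix.transpose_mul, Matrix.transpose_neg, Bm_transpose h.curv,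
    q.skew] at h1
  simpa using h1

/-- The reaction term on holomorphic planes. -/
theorem HKT.F_Qt (h : HKT J v A) (q : Quat J v) (s : Fin 3) (x : ι → ℝ) :
    Fh (J s) (Qt A) x = 2 * ((Bm A x x - J s * Bm A x x * J s) *
      (Bm A x x - J s * Bm A x x * J s)).trace - ((Bm A x x + J s * Bm A x x * J s) *
      (Bm A x x + J s * Bm A x x * J s)).trace := by
  unfold Fh
  rw [T4_Qt h.curv, Gv_eq h.curv, Gv_eq h.curv, Gv_eq h.curv]
  have b1 : Bm A x (J s *ᵥ x) = - (Bm A x x * J s) := h.Bm_J q s x x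
  have b2 : Bm A (J s *ᵥ x) x = J s * Bm A x x := by
    have h1 := congrArg Matrix.transpose b1
    rw [Bm_transpose h.curv, Matrix.transpose_neg, Matrix.transpose_mul, Bm_transpose h.curv,
      q.skew] at h1
    simpa using h1
  have b3 : Bm A (J s *ᵥ x) (J s *ᵥ x) = - (J s * Bm A x x * J s) := by
    rw [h.Bm_J q, b2]
  have pjj := h.PJJ q s x x
  have jjp := h.JJP q s x x
  have tP := Bm_symm h.curv x
  rw [b1, b2, b3]
  generalize Bm A x x = P at *
  have tJ := q.skew s
  generalize J s = K at *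
  have t1 : (-(P * K))ᵀ = K * P := by
    rw [Matrix.transpose_neg, Matrix.transpose_mul, tP, tJ, neg_mul, neg_neg]
  have t2 : (K * P)ᵀ = - (P * K) := by
    rw [Matrix.transpose_mul, tP, tJ, mul_neg]
  have t3 : (-(K * P * K))ᵀ = - (K * P * K) := by
    rw [Matrix.transpose_neg, Matrix.transpose_mul, Matrix.transpose_mul, tP, tJ]
    simp [mul_assoc]
  rw [t1, t2, t3]
  have r1 : (-(P * K) * (K * P)).trace = (P * P).trace := by
    rw [neg_mul, ← mul_assoc, pjj, neg_mul, neg_neg]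
  have r2 : (-(P * K) * -(P * K)).trace = (P * K * P * K).trace := by
    rw [neg_mul_neg, ← mul_assoc]
  have r3 : (P * -(K * P * K)).trace = - (P * K * P * K).trace := by
    rw [mul_neg, Matrix.trace_neg, ← mul_assoc, ← mul_assoc]
  have r4 : ((P - K * P * K) * (P - K * P * K)).trace = 2 * (P * P).trace -
      2 * (P * K * P * K).trace := by
    have e : (P - K * P * K) * (P - K * P * K) = P * P - P * K * P * K - K * P * K * P -
        K * (P * P * K) := by
      have e1 : K * P * K * (K * P * K) = - (K * (P * P * K)) := by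
        calc K * P * K * (K * P * K) = K * (P * K * K) * (P * K) := by simp only [mul_assoc]
          _ = _ := by rw [pjj]; simp only [mul_assoc, mul_neg, neg_mul]
      rw [sub_mul, mul_sub, mul_sub, e1]
      simp only [← mul_assoc]
      abel
    rw [e, Matrix.trace_sub, Matrix.trace_sub, Matrix.trace_sub]
    have e2 : (K * P * K * P).trace = (P * K * P * K).trace := by
      rw [Matrix.trace_mul_comm, ← mul_assoc, ← mul_assoc]
    have e3 : (K * (P * P * K)).trace = - (P * P).trace := by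
      rw [Matrix.trace_mul_comm, mul_assoc, mul_assoc, ← mul_assoc P K K, pjj, mul_neg,
        Matrix.trace_neg]
    rw [e2, e3]
    ring
  have r5 : ((P + K * P * K) * (P + K * P * K)).trace = 2 * (P * P).trace +
      2 * (P * K * P * K).trace := by
    have e : (P + K * P * K) * (P + K * P * K) = P * P + P * K * P * K + K * P * K * P -
        K * (P * P * K) := by
      have e1 : K * P * K * (K * P * K) = - (K * (P * P * K)) := by
        calc K * P * K * (K * P * K) = K * (P * K * K) * (P * K) := by simp only [mul_assoc]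
          _ = _ := by rw [pjj]; simp only [mul_assoc, mul_neg, neg_mul]
      rw [add_mul, mul_add, mul_add, e1]
      simp only [← mul_assoc]
      abel
    rw [e, Matrix.trace_sub, Matrix.trace_add, Matrix.trace_add]
    have e2 : (K * P * K * P).trace = (P * K * P * K).trace := by
      rw [Matrix.trace_mul_comm, ← mul_assoc, ← mul_assoc]
    have e3 : (K * (P * P * K)).trace = - (P * P).trace := by
      rw [Matrix.trace_mul_comm, mul_assoc, mul_assoc, ← mul_assoc P K K, pjj, mul_neg,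
        Matrix.trace_neg]
    rw [e2, e3]
    ring
  rw [r1, r2, r3, r4, r5]
  ring

/-! ### Vertical vectors -/

theorem Quat.J0v1 (q : Quat J v) : J 0 *ᵥ v 1 = v 2 := by
  have h := congrArg (fun M => M *ᵥ v 1) q.m21
  simp only [Matrix.add_mulVec, Matrix.neg_mulVec, Matrix.vecMulVec_mulVec, q.on,
    ← Matrix.mulVec_mulVec, q.Jv, Matrix.mulVec_zero, if_true, op_smul_eq_smul, one_smul] at h
  rw [eq_comm, neg_add_eq_zero] at h
  exact h

theorem Quat.J0v2 (q : Quat J v) : J 0 *ᵥ v 2 = - v 1 := by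
  have h := congrArg (fun M => M *ᵥ v 2) q.m12
  simp only [Matrix.add_mulVec, Matrix.neg_mulVec, Matrix.vecMulVec_mulVec, q.on,
    ← Matrix.mulVec_mulVec, q.Jv, Matrix.mulVec_zero, if_true, op_smul_eq_smul, one_smul] at h
  exact eq_neg_of_add_eq_zero_left h.symm

theorem Quat.J1v0 (q : Quat J v) : J 1 *ᵥ v 0 = - v 2 := by
  have h := congrArg (fun M => M *ᵥ v 0) q.m20
  simp only [Matrix.add_mulVec, Matrix.neg_mulVec, Matrix.vecMulVec_mulVec, q.on,
    ← Matrix.mulVec_mulVec, q.Jv, Matrix.mulVec_zero, if_true, op_smul_eq_smul, one_smul] at h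
  exact eq_neg_of_add_eq_zero_left h.symm

theorem Quat.J1v2 (q : Quat J v) : J 1 *ᵥ v 2 = v 0 := by
  have h := congrArg (fun M => M *ᵥ v 2) q.m02
  simp only [Matrix.add_mulVec, Matrix.neg_mulVec, Matrix.vecMulVec_mulVec, q.on,
    ← Matrix.mulVec_mulVec, q.Jv, Matrix.mulVec_zero, if_true, op_smul_eq_smul, one_smul] at h
  rw [eq_comm, neg_add_eq_zero] at h
  exact h

theorem Quat.J2v0 (q : Quat J v) : J 2 *ᵥ v 0 = v 1 := by
  have h := congrArg (fun M => M *ᵥ v 0) q.m10
  simp only [Matrix.add_mulVec, Matrix.neg_mulVec, Matrix.vecMulVec_mulVec, q.on,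
    ← Matrix.mulVec_mulVec, q.Jv, Matrix.mulVec_zero, if_true, op_smul_eq_smul, one_smul] at h
  rw [eq_comm, neg_add_eq_zero] at h
  exact h

theorem Quat.J2v1 (q : Quat J v) : J 2 *ᵥ v 1 = - v 0 := by
  have h := congrArg (fun M => M *ᵥ v 1) q.m01
  simp only [Matrix.add_mulVec, Matrix.neg_mulVec, Matrix.vecMulVec_mulVec, q.on,
    ← Matrix.mulVec_mulVec, q.Jv, Matrix.mulVec_zero, if_true, op_smul_eq_smul, one_smul] at h
  exact eq_neg_of_add_eq_zero_left h.symm

theorem Quat.hor (q : Quat J v) {x : ι → ℝ} (hx : ∀ s, v s ⬝ᵥ x = 0) (r s : Fin 3) :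
    v s ⬝ᵥ (J r *ᵥ x) = 0 := by
  have h1 : v s ⬝ᵥ (J r *ᵥ x) = - ((J r *ᵥ v s) ⬝ᵥ x) := by
    rw [q.skew_dot, neg_neg]
  rw [h1]
  fin_cases r <;> fin_cases s <;>
    simp [q.Jv 0, q.Jv 1, q.Jv 2, q.J0v1, q.J0v2, q.J1v0, q.J1v2, q.J2v0, q.J2v1, hx 0, hx 1,
      hx 2]

end Pool.Agent.L5helper93.Sas
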