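import Mathlib
import Pool.Agent.L5helper93.Sas.Point

/-!
# The reaction term at a maximum of the holomorphic sectional curvature
-/

namespace Pool.Agent.L5helper93.Sas

open Finset Matrix Pool.Agent.L5helper93.Ein

set_option linter.unusedSectionVars false
set_option linter.unusedVariables false
set_option linter.unusedSimpArgs false

variable {ι : Type*} [Fintype ι] [DecidableEq ι] {A B : ι → ι → ι → ι → ℝ}
  {J : Fin 3 → Matrix ι ι ℝ} {v : Fin 3 → ι → ℝ}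

theorem HKT.T_mixed (h : HKT J v A) (q : Quat J v) (s : Fin 3) (x w : ι → ℝ) :
    T4 A x (J s *ᵥ x) w (J s *ᵥ w) = T4 A x (J s *ᵥ w) x (J s *ᵥ w) + T4 A x w x w := by
  have e1 := T4_bi h.curv x (J s *ᵥ x) w (J s *ᵥ w)
  have e2 : T4 A (J s *ᵥ x) w x (J s *ᵥ w) = - T4 A x (J s *ᵥ w) x (J s *ᵥ w) :=
    h.J12 q s x w x (J s *ᵥ w)
  have e3 : T4 A w x (J s *ᵥ x) (J s *ᵥ w) = - T4 A x w x w := by
    rw [h.JJ q s w x x w, T4_a1 h.curv]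
  linarith

/-- The quadratic form of `P - J P J`. -/
def S0 (J : Fin 3 → Matrix ι ι ℝ) (A : ι → ι → ι → ι → ℝ) (x u : ι → ℝ) : ℝ :=
  T4 A x u x u + T4 A x (J 0 *ᵥ u) x (J 0 *ᵥ u)

theorem T4_neg4 (a b c d : ι → ℝ) : T4 A a b c (-d) = - T4 A a b c d := by
  have : (-d : ι → ℝ) = (-1 : ℝ) • d := by simp
  rw [this, T4_smul4]
  ring

theorem HKT.S0_J1 (h : HKT J v A) (q : Quat J v) (x u : ι → ℝ) :
    S0 J A x (J 1 *ᵥ u) = - S0 J A x u := by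
  have e1 := h.T_mixed q 0 x (J 1 *ᵥ u)
  have e2 := h.T_mixed q 0 x u
  have e3 := h.JJ q 1 x (J 0 *ᵥ x) u (J 0 *ᵥ u)
  have m1 : J 0 *ᵥ (J 1 *ᵥ u) = J 2 *ᵥ u + (v 1 ⬝ᵥ u) • v 0 := by
    rw [Matrix.mulVec_mulVec, q.m01, Matrix.add_mulVec, Matrix.vecMulVec_mulVec, op_smul_eq_smul]
  have m2 : J 1 *ᵥ (J 0 *ᵥ u) = - (J 2 *ᵥ u) + (v 0 ⬝ᵥ u) • v 1 := by
    rw [Matrix.mulVec_mulVec, q.m10, Matrix.add_mulVec, Matrix.neg_mulVec,
      Matrix.vecMulVec_mulVec, op_smul_eq_smul]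
  rw [m2, T4_add4, T4_neg4, T4_smul4, h.v4] at e3
  have e4 : T4 A x (J 0 *ᵥ x) (J 1 *ᵥ u) (J 0 *ᵥ (J 1 *ᵥ u)) =
      T4 A x (J 0 *ᵥ x) (J 1 *ᵥ u) (J 2 *ᵥ u) := by
    rw [m1, T4_add4, T4_smul4, h.v4]; ring
  unfold S0
  linarith

theorem HKT.S0_J2 (h : HKT J v A) (q : Quat J v) (x u : ι → ℝ) :
    S0 J A x (J 2 *ᵥ u) = - S0 J A x u := by
  have e1 := h.T_mixed q 0 x (J 2 *ᵥ u)
  have e2 := h.T_mixed q 0 x u
  have e3 := h.JJ q 2 x (J 0 *ᵥ x) u (J 0 *ᵥ u)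
  have m1 : J 0 *ᵥ (J 2 *ᵥ u) = - (J 1 *ᵥ u) + (v 2 ⬝ᵥ u) • v 0 := by
    rw [Matrix.mulVec_mulVec, q.m02, Matrix.add_mulVec, Matrix.neg_mulVec,
      Matrix.vecMulVec_mulVec, op_smul_eq_smul]
  have m2 : J 2 *ᵥ (J 0 *ᵥ u) = J 1 *ᵥ u + (v 0 ⬝ᵥ u) • v 2 := by
    rw [Matrix.mulVec_mulVec, q.m20, Matrix.add_mulVec, Matrix.vecMulVec_mulVec, op_smul_eq_smul]
  rw [m2, T4_add4, T4_smul4, h.v4] at e3
  have e4 : T4 A x (J 0 *ᵥ x) (J 2 *ᵥ u) (J 0 *ᵥ (J 2 *ᵥ u)) =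
      - T4 A x (J 0 *ᵥ x) (J 2 *ᵥ u) (J 1 *ᵥ u) := by
    rw [m1, T4_add4, T4_neg4, T4_smul4, h.v4]; ring
  unfold S0
  linarith

theorem S0_eq (h : HKT J v A) (q : Quat J v) (x u : ι → ℝ) :
    S0 J A x u = u ⬝ᵥ ((Bm A x x - J 0 * Bm A x x * J 0) *ᵥ u) := by
  rw [Matrix.sub_mulVec, dotProduct_sub]
  have e : u ⬝ᵥ ((J 0 * Bm A x x * J 0) *ᵥ u) = - ((J 0 *ᵥ u) ⬝ᵥ (Bm A x x *ᵥ (J 0 *ᵥ u))) := by
    rw [q.skew_dot, Matrix.mulVec_mulVec, Matrix.mulVec_mulVec, neg_neg, mul_assoc]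
  rw [e]
  unfold S0 T4
  ring

/-- First and second order conditions at a maximum. -/
theorem HKT.conditions (h : HKT J v A) (q : Quat J v) {x : ι → ℝ} {l : ℝ}
    (hx : x ⬝ᵥ x = 1) (hF : ∀ u, Fh (J 0) A u ≤ l * (u ⬝ᵥ u) ^ 2) (he : Fh (J 0) A x = l)
    (w : ι → ℝ) : T4 A x (J 0 *ᵥ w) x (J 0 *ᵥ x) = l * (x ⬝ᵥ w) ∧
      2 * T4 A x w x w + 6 * T4 A x (J 0 *ᵥ w) x (J 0 *ᵥ w) ≤
        l * (2 * (w ⬝ᵥ w) + 4 * (x ⬝ᵥ w) ^ 2) := by
  obtain ⟨c3, c4, hex⟩ := h.F_expand q 0 x w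
  set s := x ⬝ᵥ w with hs
  set r := w ⬝ᵥ w with hr
  set α := T4 A x (J 0 *ᵥ w) x (J 0 *ᵥ x) with hα
  set β := 2 * T4 A x w x w + 6 * T4 A x (J 0 *ᵥ w) x (J 0 *ᵥ w) with hβ
  have hn : ∀ t : ℝ, (x + t • w) ⬝ᵥ (x + t • w) = 1 + 2 * t * s + t ^ 2 * r := by
    intro t
    rw [add_dotProduct, dotProduct_add, dotProduct_add, smul_dotProduct, smul_dotProduct,
      dotProduct_smul, dotProduct_smul, hx, dotProduct_comm w x, ← hs, ← hr]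
    simp only [smul_eq_mul]
    ring
  have key : ∀ t : ℝ, 0 ≤ (4 * l * s - 4 * α) * t + (l * (2 * r + 4 * s ^ 2) - β) * t ^ 2 +
      (4 * l * s * r - c3) * t ^ 3 + (l * r ^ 2 - c4) * t ^ 4 := by
    intro t
    have h1 := hF (x + t • w)
    rw [hex t, hn t, he] at h1
    nlinarith [h1]
  obtain ⟨k1, k2⟩ := poly_nonneg key
  exact ⟨by linarith, by linarith⟩

/-- The reaction term at a maximum of the holomorphic sectional curvature. -/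
theorem HKT.at_max (h : HKT J v A) (q : Quat J v) {n : ℕ} (hcard : Fintype.card ι = 4 * n + 3)
    {x : ι → ℝ} {l : ℝ} (hl : 0 < l) (hx : x ⬝ᵥ x = 1)
    (hF : ∀ u, Fh (J 0) A u ≤ l * (u ⬝ᵥ u) ^ 2) (he : Fh (J 0) A x = l) :
    Fh (J 0) (Qt A) x ≤ 2 * ((n : ℝ) + 2) * l ^ 2 := by
  have cond := h.conditions q hx hF he
  have tP := Bm_symm h.curv x
  have hα : ∀ w, (J 0 *ᵥ w) ⬝ᵥ (Bm A x x *ᵥ (J 0 *ᵥ x)) = l * (x ⬝ᵥ w) := fun w => (cond w).1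
  have hPx := Bm_self h.curv x
  have hPv : ∀ s, Bm A x x *ᵥ v s = 0 := fun s => h.Bm_v s x x
  have hBJv : ∀ r s, Bm A x x *ᵥ (J r *ᵥ v s) = 0 := by
    intro r s
    have h1 := h.Bm_J q r x x
    rw [Matrix.mulVec_mulVec]
    have h2 : Bm A x x * J r = - Bm A x (J r *ᵥ x) := by rw [h1, neg_neg]
    rw [h2, Matrix.neg_mulVec, h.Bm_v, neg_zero]
  -- `x` is horizontal
  have hvx : ∀ s, v s ⬝ᵥ x = 0 := by
    intro s
    have h1 := hα (v s)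
    rw [← sym_dot tP, hBJv, zero_dotProduct] at h1
    have h2 : x ⬝ᵥ v s = 0 := by
      rcases mul_eq_zero.1 h1.symm with h3 | h3
      · exact absurd h3 hl.ne'
      · exact h3
    rw [dotProduct_comm]; exact h2
  have JPy : J 0 *ᵥ (Bm A x x *ᵥ (J 0 *ᵥ x)) = - (l • x) := by
    have h1 : ∀ w, (J 0 *ᵥ (Bm A x x *ᵥ (J 0 *ᵥ x)) + l • x) ⬝ᵥ w = 0 := by
      intro w
      rw [add_dotProduct, smul_dotProduct, q.skew_dot, dotProduct_comm, hα, smul_eq_mul]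
      ring
    exact eq_neg_of_add_eq_zero_left (dotProduct_self_eq_zero.1 (h1 _))
  have hMx : ∀ a, (v a) ⬝ᵥ (Bm A x x *ᵥ (J 0 *ᵥ x)) = 0 := by
    intro a
    rw [← sym_dot tP, hPv, zero_dotProduct]
  have hPy : Bm A x x *ᵥ (J 0 *ᵥ x) = l • (J 0 *ᵥ x) := by
    have h1 := congrArg (fun u => J 0 *ᵥ u) JPy
    simp only [q.sqv, hMx, zero_smul, add_zero, Matrix.mulVec_neg, Matrix.mulVec_smul] at h1
    exact neg_injective h1
  -- products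
  have sq0 : ∀ r, J r *ᵥ (J r *ᵥ x) = - x := by
    intro r; rw [q.sqv, hvx, zero_smul, add_zero]
  have mulx : ∀ {a b c : Fin 3}, J a * J b = J c + vecMulVec (v a) (v b) →
      J a *ᵥ (J b *ᵥ x) = J c *ᵥ x := by
    intro a b c hab
    rw [Matrix.mulVec_mulVec, hab, Matrix.add_mulVec, Matrix.vecMulVec_mulVec, hvx]
    simp
  have mulx' : ∀ {a b c : Fin 3}, J a * J b = - J c + vecMulVec (v a) (v b) →
      J a *ᵥ (J b *ᵥ x) = - (J c *ᵥ x) := by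
    intro a b c hab
    rw [Matrix.mulVec_mulVec, hab, Matrix.add_mulVec, Matrix.neg_mulVec,
      Matrix.vecMulVec_mulVec, hvx]
    simp
  have p01 := mulx q.m01
  have p12 := mulx q.m12
  have p20 := mulx q.m20
  have p10 := mulx' q.m10
  have p21 := mulx' q.m21
  have p02 := mulx' q.m02
  have sk : ∀ r, x ⬝ᵥ (J r *ᵥ x) = 0 := by
    intro r
    have := q.skew_dot r x x
    rw [dotProduct_comm] at this
    linarith
  have dd : ∀ r s, (J r *ᵥ x) ⬝ᵥ (J s *ᵥ x) = if r = s then 1 else 0 := by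
    intro r s
    rw [q.skew_dot]
    fin_cases r <;> fin_cases s
    · simp only [Fin.zero_eta, sq0, dotProduct_neg, hx]; simp
    · simp only [Fin.zero_eta, Fin.mk_one, p01, sk]; simp
    · have := p02
      simp only [Fin.zero_eta, Fin.reduceFinMk, p02, dotProduct_neg, sk]; simp
    · simp only [Fin.zero_eta, Fin.mk_one, p10, dotProduct_neg, sk]; simp
    · simp only [Fin.mk_one, sq0, dotProduct_neg, hx]; simp
    · simp only [Fin.mk_one, Fin.reduceFinMk, p12, sk]; simp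
    · simp only [Fin.zero_eta, Fin.reduceFinMk, p20, sk]; simp
    · simp only [Fin.mk_one, Fin.reduceFinMk, p21, dotProduct_neg, sk]; simp
    · simp only [Fin.reduceFinMk, sq0, dotProduct_neg, hx]; simp
  have hvJ : ∀ r s, v s ⬝ᵥ (J r *ᵥ x) = 0 := fun r s => q.hor hvx r s
  -- the matrix `M`
  obtain ⟨M, hM⟩ : ∃ M, M = Bm A x x - J 0 * Bm A x x * J 0 := ⟨_, rfl⟩
  obtain ⟨L, hL⟩ : ∃ L, L = Bm A x x + J 0 * Bm A x x * J 0 := ⟨_, rfl⟩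
  have tJPJ : (J 0 * Bm A x x * J 0)ᵀ = J 0 * Bm A x x * J 0 := by
    rw [Matrix.transpose_mul, Matrix.transpose_mul, tP, q.skew]
    simp [mul_assoc]
  have tM : Mᵀ = M := by rw [hM, Matrix.transpose_sub, tP, tJPJ]
  have tL : Lᵀ = L := by rw [hL, Matrix.transpose_add, tP, tJPJ]
  have hS0 : ∀ u, S0 J A x u = u ⬝ᵥ (M *ᵥ u) := by
    intro u; rw [hM]; exact S0_eq h q x u
  have JPJ : ∀ u, (J 0 * Bm A x x * J 0) *ᵥ u = J 0 *ᵥ (Bm A x x *ᵥ (J 0 *ᵥ u)) := by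
    intro u
    simp only [Matrix.mulVec_mulVec, mul_assoc]
  have Mx : M *ᵥ x = l • x := by
    rw [hM, Matrix.sub_mulVec, hPx, JPJ, JPy]
    simp
  have My : M *ᵥ (J 0 *ᵥ x) = l • (J 0 *ᵥ x) := by
    rw [hM, Matrix.sub_mulVec, hPy, JPJ, sq0, Matrix.mulVec_neg, hPx]
    simp
  have Mv : ∀ s, M *ᵥ v s = 0 := by
    intro s
    rw [hM, Matrix.sub_mulVec, hPv, JPJ, hBJv]
    simp
  have vM : ∀ s u, v s ⬝ᵥ (M *ᵥ u) = 0 := by
    intro s u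
    rw [← sym_dot tM, Mv, zero_dotProduct]
  have anti : ∀ r : Fin 3, (∀ u, S0 J A x (J r *ᵥ u) = - S0 J A x u) →
      M *ᵥ (J r *ᵥ x) = - (l • (J r *ᵥ x)) := by
    intro r hr
    have h1 : - (J r * M * J r) + M = 0 := by
      apply sym_zero
      · rw [Matrix.transpose_add, Matrix.transpose_neg, Matrix.transpose_mul,
          Matrix.transpose_mul, tM, q.skew]
        simp [mul_assoc]
      · intro u
        have h2 := hr u
        rw [hS0, hS0, q.skew_dot] at h2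
        rw [Matrix.add_mulVec, Matrix.neg_mulVec, dotProduct_add, dotProduct_neg]
        have h3 : (J r * M * J r) *ᵥ u = J r *ᵥ (M *ᵥ (J r *ᵥ u)) := by
          simp only [Matrix.mulVec_mulVec, mul_assoc]
        rw [h3]
        linarith
    have h2 : J r *ᵥ (M *ᵥ (J r *ᵥ x)) = l • x := by
      have h3 : (J r * M * J r) *ᵥ x = J r *ᵥ (M *ᵥ (J r *ᵥ x)) := by
        simp only [Matrix.mulVec_mulVec, mul_assoc]
      rw [← h3, ← Mx]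
      congr 1
      exact (neg_add_eq_zero.1 h1)
    have h4 := congrArg (fun u => J r *ᵥ u) h2
    simp only [q.sqv, vM, zero_smul, add_zero, Matrix.mulVec_smul] at h4
    rw [← h4, neg_neg]
  have Mz := anti 1 (h.S0_J1 q x)
  have Mw := anti 2 (h.S0_J2 q x)
  -- the bound on the complement
  have upper : ∀ u, x ⬝ᵥ u = 0 → (J 0 *ᵥ x) ⬝ᵥ u = 0 → v 0 ⬝ᵥ u = 0 →
      S0 J A x u ≤ l / 2 * (u ⬝ᵥ u) := by
    intro u h1 h2 h3
    have k1 := (cond u).2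
    have k2 := (cond (J 0 *ᵥ u)).2
    have k3 : J 0 *ᵥ (J 0 *ᵥ u) = - u := by rw [q.sqv, h3, zero_smul, add_zero]
    have k4 : x ⬝ᵥ (J 0 *ᵥ u) = 0 := by
      have := q.skew_dot 0 x u
      rw [h2] at this
      linarith
    have k5 : (J 0 *ᵥ u) ⬝ᵥ (J 0 *ᵥ u) = u ⬝ᵥ u := by
      rw [q.skew_dot, k3, dotProduct_neg, neg_neg]
    have k6 : T4 A x (-u) x (-u) = T4 A x u x u := by
      rw [T4_neg4]
      have : (-u : ι → ℝ) = (-1 : ℝ) • u := by simp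
      rw [this, T4_smul2]
      ring
    rw [k3, k4, k5, k6] at k2
    rw [h1] at k1
    unfold S0
    nlinarith
  have bound : ∀ u, x ⬝ᵥ u = 0 → (J 0 *ᵥ x) ⬝ᵥ u = 0 → (J 1 *ᵥ x) ⬝ᵥ u = 0 →
      (J 2 *ᵥ x) ⬝ᵥ u = 0 → (∀ s, v s ⬝ᵥ u = 0) → |u ⬝ᵥ (M *ᵥ u)| ≤ l / 2 * (u ⬝ᵥ u) := by
    intro u h0 h1 h2 h3 h4
    have k1 := upper u h0 h1 (h4 0)
    have k2 : S0 J A x (J 1 *ᵥ u) ≤ l / 2 * ((J 1 *ᵥ u) ⬝ᵥ (J 1 *ᵥ u)) := by
      apply upper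
      · have := q.skew_dot 1 x u
        rw [h2] at this
        linarith
      · have := q.skew_dot 1 (J 0 *ᵥ x) u
        rw [p10, neg_dotProduct, h3] at this
        linarith
      · exact q.hor h4 1 0
    have k3 : (J 1 *ᵥ u) ⬝ᵥ (J 1 *ᵥ u) = u ⬝ᵥ u := by
      rw [q.skew_dot, q.sqv, h4, zero_smul, add_zero, dotProduct_neg, neg_neg]
    rw [h.S0_J1 q, k3] at k2
    rw [hS0] at k1 k2
    rw [abs_le]
    constructor <;> linarith
  -- the orthonormal family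
  obtain ⟨c, hc⟩ : ∃ c : Fin 7 → ι → ℝ, c = ![x, J 0 *ᵥ x, J 1 *ᵥ x, J 2 *ᵥ x, v 0, v 1, v 2] :=
    ⟨_, rfl⟩
  have hxv : ∀ s, x ⬝ᵥ v s = 0 := fun s => by rw [dotProduct_comm]; exact hvx s
  have hJv : ∀ r s, (J r *ᵥ x) ⬝ᵥ v s = 0 := fun r s => by rw [dotProduct_comm]; exact hvJ r s
  have sk' : ∀ r, (J r *ᵥ x) ⬝ᵥ x = 0 := fun r => by rw [dotProduct_comm]; exact sk r
  have hcc : ∀ i j, c i ⬝ᵥ c j = if i = j then (1 : ℝ) else 0 := by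
    intro i j
    rw [hc]
    fin_cases i <;> fin_cases j <;>
      simp [hx, sk, sk', dd, hvx, hxv, hvJ, hJv, q.on]
  have hμ : ∀ j, M *ᵥ c j = (![l, l, -l, -l, 0, 0, 0] : Fin 7 → ℝ) j • c j := by
    intro j
    rw [hc]
    fin_cases j
    · simpa using Mx
    · simpa using My
    · simpa using Mz
    · simpa using Mw
    · simpa using Mv 0
    · simpa using Mv 1
    · simpa using Mv 2
  have T1 := trace_bound tM c hcc _ hμ (r := l / 2) (by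
    intro u hu
    have g0 := hu 0
    have g1 := hu 1
    have g2 := hu 2
    have g3 := hu 3
    have g4 := hu 4
    have g5 := hu 5
    have g6 := hu 6
    rw [hc] at g0 g1 g2 g3 g4 g5 g6
    refine bound u g0 g1 g2 g3 ?_
    intro s
    fin_cases s
    · exact g4
    · exact g5
    · exact g6)
  have Lx : L *ᵥ x = - (l • x) := by
    rw [hL, Matrix.add_mulVec, hPx, JPJ, JPy, zero_add]
  have Ly : L *ᵥ (J 0 *ᵥ x) = l • (J 0 *ᵥ x) := by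
    rw [hL, Matrix.add_mulVec, hPy, JPJ, sq0, Matrix.mulVec_neg, hPx]
    simp
  have T2 := trace_lower tL (![x, J 0 *ᵥ x] : Fin 2 → ι → ℝ) (by
    intro i j
    fin_cases i <;> fin_cases j <;> simp [hx, sk, sk', dd]) (![-l, l] : Fin 2 → ℝ) (by
    intro j
    fin_cases j
    · simpa using Lx
    · simpa using Ly)
  have s1 : ∑ j, (![l, l, -l, -l, 0, 0, 0] : Fin 7 → ℝ) j ^ 2 = 4 * l ^ 2 := by
    simp [Fin.sum_univ_succ]
    ring
  have s2 : ∑ j, (![-l, l] : Fin 2 → ℝ) j ^ 2 = 2 * l ^ 2 := by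
    simp [Fin.sum_univ_succ]
    ring
  rw [s1, hcard] at T1
  rw [s2] at T2
  have hres := h.F_Qt q 0 x
  rw [← hM, ← hL] at hres
  rw [hres]
  push_cast at T1
  nlinarith

end Pool.Agent.L5helper93.Sas
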