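import Mathlib
import Pool.Agent.L5helper93.Sas.Max
import Pool.Agent.L5helper93.Geo.Lap

/-!
# The cubic inequality
-/

namespace Pool.Agent.L5helper93.Sas

open Finset Matrix Pool.Agent.L5helper93.Ein

set_option linter.unusedSectionVars false
set_option linter.unusedVariables false
set_option linter.unusedSimpArgs false

variable {ι : Type*} [Fintype ι] [DecidableEq ι] {A B : ι → ι → ι → ι → ℝ}
  {J : Fin 3 → Matrix ι ι ℝ} {v : Fin 3 → ι → ℝ}

theorem lin_nonneg {α β γ ε : ℝ} (hε : 0 < ε)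
    (h : ∀ t, 0 < t → t ≤ ε → 0 ≤ α * t + β * t ^ 2 + γ * t ^ 3) : 0 ≤ α := by
  by_contra ha
  push Not at ha
  obtain ⟨K, hK⟩ : ∃ K, K = |β| + |γ| + 1 := ⟨_, rfl⟩
  have hb := abs_nonneg β
  have hc := abs_nonneg γ
  have hK1 : 0 < K := by linarith
  obtain ⟨t, ht⟩ : ∃ t, t = min (min ε 1) (-α / (2 * K)) := ⟨_, rfl⟩
  have t0 : 0 < t := by
    rw [ht]; exact lt_min (lt_min hε one_pos) (div_pos (by linarith) (by linarith))
  have t1 : t ≤ ε := by rw [ht]; exact (min_le_left _ _).trans (min_le_left _ _)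
  have t2 : t ≤ 1 := by rw [ht]; exact (min_le_left _ _).trans (min_le_right _ _)
  have t3 : t * (2 * K) ≤ - α := by
    have : t ≤ -α / (2 * K) := by rw [ht]; exact min_le_right _ _
    calc t * (2 * K) ≤ -α / (2 * K) * (2 * K) := by gcongr
      _ = -α := by field_simp
  have h1 := h t t0 t1
  have b1 : β * t ^ 2 ≤ |β| * t ^ 2 := mul_le_mul_of_nonneg_right (le_abs_self _) (by positivity)
  have b2 : γ * t ^ 3 ≤ |γ| * t ^ 2 := by
    calc γ * t ^ 3 ≤ |γ| * t ^ 3 := mul_le_mul_of_nonneg_right (le_abs_self _) (by positivity)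
      _ ≤ |γ| * t ^ 2 := mul_le_mul_of_nonneg_left
        (pow_le_pow_of_le_one t0.le t2 (by norm_num)) hc
  have b3 : (|β| + |γ|) * t ^ 2 < K * t ^ 2 := by
    have : 0 < t ^ 2 := by positivity
    nlinarith
  have b4 : K * t ^ 2 ≤ - α * t / 2 := by nlinarith
  have b5 : 0 < - α * t := mul_pos (by linarith) t0
  nlinarith

/-! ### Positivity -/

theorem T4_single (i j k l : ι) :
    T4 A (Pi.single i 1) (Pi.single j 1) (Pi.single k 1) (Pi.single l 1) = A i j k l := by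
  rw [T4_eq, Finset.sum_eq_single i, Finset.sum_eq_single j, Finset.sum_eq_single k,
    Finset.sum_eq_single l]
  · simp
  all_goals first | (intro b _ hb; simp [hb]) | simp

theorem zero_of_sec (h : IsCurv A) (h0 : ∀ x w : ι → ℝ, T4 A x w x w = 0) (i j k l : ι) :
    A i j k l = 0 := by
  have h1 : ∀ x y w : ι → ℝ, T4 A x w y w = 0 := by
    intro x y w
    have e := h0 (x + y) w
    rw [T4_add1, T4_add3, T4_add3, h0, h0, T4_pair h y w x w] at e
    linarith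
  have h2 : ∀ x w y z : ι → ℝ, T4 A x w y z = - T4 A x z y w := by
    intro x w y z
    have e := h1 x y (w + z)
    rw [T4_add2, T4_add4, T4_add4, h1, h1] at e
    linarith
  have h3 : ∀ x w y z : ι → ℝ, T4 A x w y z = 0 := by
    intro x w y z
    have b := T4_bi h x w y z
    have e1 : T4 A w y x z = T4 A x w y z := by
      rw [T4_a1 h w y x z, T4_pair h y w x z, h2 x z y w]
      ring
    have e2 : T4 A y x w z = T4 A x w y z := by
      rw [T4_a1 h y x w z, h2 x y w z, T4_a2 h x z w y, h2 x z y w]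
      ring
    linarith
  rw [← T4_single (A := A) i j k l]
  exact h3 _ _ _ _

theorem Fh_smul (K : Matrix ι ι ℝ) (t : ℝ) (u : ι → ℝ) : Fh K A (t • u) = t ^ 4 * Fh K A u := by
  unfold Fh
  rw [Matrix.mulVec_smul, T4_smul1, T4_smul2, T4_smul3, T4_smul4]
  ring

theorem HKT.F12 (h : HKT J v A) (q : Quat J v) (x : ι → ℝ) :
    Fh (J 0) A (x + J 2 *ᵥ x) = 4 * T4 A x (J 1 *ᵥ x) x (J 1 *ᵥ x) ∧
    Fh (J 0) A (x + J 1 *ᵥ x) = 4 * T4 A x (J 2 *ᵥ x) x (J 2 *ᵥ x) := by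
  have m02 : J 0 *ᵥ (J 2 *ᵥ x) = - (J 1 *ᵥ x) + (v 2 ⬝ᵥ x) • v 0 := by
    rw [Matrix.mulVec_mulVec, q.m02, Matrix.add_mulVec, Matrix.neg_mulVec,
      Matrix.vecMulVec_mulVec, op_smul_eq_smul]
  have m01 : J 0 *ᵥ (J 1 *ᵥ x) = J 2 *ᵥ x + (v 1 ⬝ᵥ x) • v 0 := by
    rw [Matrix.mulVec_mulVec, q.m01, Matrix.add_mulVec, Matrix.vecMulVec_mulVec, op_smul_eq_smul]
  have m20 : J 2 *ᵥ (J 0 *ᵥ x) = J 1 *ᵥ x + (v 0 ⬝ᵥ x) • v 2 := by
    rw [Matrix.mulVec_mulVec, q.m20, Matrix.add_mulVec, Matrix.vecMulVec_mulVec, op_smul_eq_smul]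
  have m21 : J 2 *ᵥ (J 1 *ᵥ x) = - (J 0 *ᵥ x) + (v 1 ⬝ᵥ x) • v 2 := by
    rw [Matrix.mulVec_mulVec, q.m21, Matrix.add_mulVec, Matrix.neg_mulVec,
      Matrix.vecMulVec_mulVec, op_smul_eq_smul]
  have m10 : J 1 *ᵥ (J 0 *ᵥ x) = - (J 2 *ᵥ x) + (v 0 ⬝ᵥ x) • v 1 := by
    rw [Matrix.mulVec_mulVec, q.m10, Matrix.add_mulVec, Matrix.neg_mulVec,
      Matrix.vecMulVec_mulVec, op_smul_eq_smul]
  have m12 : J 1 *ᵥ (J 2 *ᵥ x) = J 0 *ᵥ x + (v 2 ⬝ᵥ x) • v 1 := by
    rw [Matrix.mulVec_mulVec, q.m12, Matrix.add_mulVec, Matrix.vecMulVec_mulVec, op_smul_eq_smul]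
  have n2 : ∀ a b c d : ι → ℝ, T4 A a (-b) c d = - T4 A a b c d := by
    intro a b c d
    have : (-b : ι → ℝ) = (-1 : ℝ) • b := by simp
    rw [this, T4_smul2]
    ring
  have key2 : ∀ c d : ι → ℝ, T4 A (x + J 2 *ᵥ x) (J 0 *ᵥ (x + J 2 *ᵥ x)) c d =
      -2 * T4 A x (J 1 *ᵥ x) c d := by
    intro c d
    rw [Matrix.mulVec_add, m02, T4_add1]
    simp only [T4_add2, n2, T4_smul2, h.v2, h.J12 q 2, m20, m21, Matrix.mulVec_neg,
      Matrix.mulVec_add, Matrix.mulVec_smul, q.J2v0]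
    ring
  have key1 : ∀ c d : ι → ℝ, T4 A (x + J 1 *ᵥ x) (J 0 *ᵥ (x + J 1 *ᵥ x)) c d =
      2 * T4 A x (J 2 *ᵥ x) c d := by
    intro c d
    rw [Matrix.mulVec_add, m01, T4_add1]
    simp only [T4_add2, n2, T4_smul2, h.v2, h.J12 q 1, m10, m12, Matrix.mulVec_neg,
      Matrix.mulVec_add, Matrix.mulVec_smul, q.J1v0]
    ring
  constructor
  · unfold Fh
    rw [key2, T4_pair h.curv, key2]
    ring
  · unfold Fh
    rw [key1, T4_pair h.curv, key1]
    ring

theorem HKT.Fsum (h : HKT J v A) (q : Quat J v) (x : ι → ℝ) :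
    Fh (J 0) A x + T4 A x (J 1 *ᵥ x) x (J 1 *ᵥ x) + T4 A x (J 2 *ᵥ x) x (J 2 *ᵥ x) = 0 := by
  have e := h.S0_J1 q x x
  have m01 : J 0 *ᵥ (J 1 *ᵥ x) = J 2 *ᵥ x + (v 1 ⬝ᵥ x) • v 0 := by
    rw [Matrix.mulVec_mulVec, q.m01, Matrix.add_mulVec, Matrix.vecMulVec_mulVec, op_smul_eq_smul]
  have z : T4 A x x x x = 0 := by
    have := T4_a1 h.curv x x x x
    linarith
  unfold S0 at e
  rw [m01, T4_add4, T4_add2, T4_add2, T4_smul4, T4_smul4, T4_smul2, h.v4, h.v4, h.v2, z] at e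
  unfold Fh
  linarith

theorem HKT.zero_of_nonpos (h : HKT J v A) (q : Quat J v)
    (hF : ∀ u, Fh (J 0) A u ≤ 0) (i j k l : ι) : A i j k l = 0 := by
  have h0 : ∀ u, Fh (J 0) A u = 0 := by
    intro u
    have e1 := (h.F12 q u).1
    have e2 := (h.F12 q u).2
    have e3 := hF (u + J 2 *ᵥ u)
    have e4 := hF (u + J 1 *ᵥ u)
    have e5 := h.Fsum q u
    have e6 := hF u
    linarith
  have h1 : ∀ x w : ι → ℝ, 2 * T4 A x w x w + 6 * T4 A x (J 0 *ᵥ w) x (J 0 *ᵥ w) = 0 := by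
    intro x w
    obtain ⟨c3, c4, hex⟩ := h.F_expand q 0 x w
    have e : ∀ t : ℝ, 4 * T4 A x (J 0 *ᵥ w) x (J 0 *ᵥ x) * t +
      (2 * T4 A x w x w + 6 * T4 A x (J 0 *ᵥ w) x (J 0 *ᵥ w)) * t ^ 2 + c3 * t ^ 3 +
      c4 * t ^ 4 = 0 := by
      intro t
      have := hex t
      rw [h0, h0] at this
      linarith
    have p1 := (poly_nonneg (fun t => (e t).ge)).2
    have p2 := (poly_nonneg (a := -(4 * T4 A x (J 0 *ᵥ w) x (J 0 *ᵥ x)))
      (b := -(2 * T4 A x w x w + 6 * T4 A x (J 0 *ᵥ w) x (J 0 *ᵥ w))) (c := -c3) (d := -c4)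
      (fun t => by have := e t; linarith)).2
    linarith
  refine zero_of_sec h.curv ?_ i j k l
  intro x w
  have e1 := h1 x w
  have e2 := h1 x (J 0 *ᵥ w)
  have e3 : T4 A x (J 0 *ᵥ (J 0 *ᵥ w)) x (J 0 *ᵥ (J 0 *ᵥ w)) = T4 A x w x w := by
    rw [q.sqv, T4_add4, T4_add2, T4_add2, T4_smul4, T4_smul4, T4_smul2, h.v4, h.v4, h.v2,
      T4_neg4]
    have : (-w : ι → ℝ) = (-1 : ℝ) • w := by simp
    rw [this, T4_smul2]
    ring
  rw [e3] at e2
  linarith

/-! ### Compactness -/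

/-- The unit sphere. -/
def Sph (ι : Type*) [Fintype ι] : Set (ι → ℝ) := {u | u ⬝ᵥ u = 1}

theorem Sph_compact : IsCompact (Sph ι) := by
  refine Metric.isCompact_of_isClosed_isBounded ?_ ?_
  · exact isClosed_eq (by unfold dotProduct; fun_prop) continuous_const
  · refine (Metric.isBounded_closedBall (x := (0 : ι → ℝ)) (r := 1)).subset ?_
    intro u hu
    rw [mem_closedBall_zero_iff, pi_norm_le_iff_of_nonneg zero_le_one]
    intro i
    have h1 : u i ^ 2 ≤ 1 := by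
      have h2 : ∑ i, u i * u i = 1 := hu
      calc u i ^ 2 = u i * u i := by ring
        _ ≤ ∑ i, u i * u i := Finset.single_le_sum (f := fun i => u i * u i)
          (fun j _ => mul_self_nonneg _) (Finset.mem_univ i)
        _ = 1 := h2
    rw [Real.norm_eq_abs]
    exact (sq_le_one_iff_abs_le_one _).1 h1

theorem Fh_cont (K : Matrix ι ι ℝ) :
    Continuous (fun p : (ι → ι → ι → ι → ℝ) × (ι → ℝ) => Fh K p.1 p.2) := by
  unfold Fh
  simp only [T4_eq, mulVec, dotProduct]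
  fun_prop

/-- The maximum of the holomorphic sectional curvature. -/
noncomputable def mx (K : Matrix ι ι ℝ) (A : ι → ι → ι → ι → ℝ) : ℝ := sSup (Fh K A '' Sph ι)

theorem mx_cont (K : Matrix ι ι ℝ) : Continuous (mx (ι := ι) K) :=
  Sph_compact.continuous_sSup (f := fun A u => Fh K A u) (Fh_cont K)

theorem Fh_contu (K : Matrix ι ι ℝ) (A : ι → ι → ι → ι → ℝ) : Continuous (Fh K A) :=
  (Fh_cont K).comp (Continuous.prodMk_right A)

theorem le_mx (K : Matrix ι ι ℝ) (A : ι → ι → ι → ι → ℝ) (u : ι → ℝ) :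
    Fh K A u ≤ mx K A * (u ⬝ᵥ u) ^ 2 := by
  by_cases hu : u ⬝ᵥ u = 0
  · have : u = 0 := dotProduct_self_eq_zero.1 hu
    subst this
    have e : Fh K A 0 = 0 := by
      have := Fh_smul (A := A) K 0 (0 : ι → ℝ)
      simpa using this
    rw [e, hu]
    simp
  · have hpos : 0 < u ⬝ᵥ u := by
      have h0 : 0 ≤ u ⬝ᵥ u := Finset.sum_nonneg fun i _ => mul_self_nonneg _
      exact lt_of_le_of_ne h0 (Ne.symm hu)
    obtain ⟨s, hs⟩ : ∃ s, s = Real.sqrt (u ⬝ᵥ u) := ⟨_, rfl⟩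
    have hs0 : 0 < s := by rw [hs]; exact Real.sqrt_pos.2 hpos
    have hs2 : s ^ 2 = u ⬝ᵥ u := by rw [hs]; exact Real.sq_sqrt hpos.le
    have h1 : s⁻¹ • u ∈ Sph ι := by
      show (s⁻¹ • u) ⬝ᵥ (s⁻¹ • u) = 1
      rw [smul_dotProduct, dotProduct_smul, ← hs2]
      simp only [smul_eq_mul]
      field_simp
    have h2 : Fh K A (s⁻¹ • u) ≤ mx K A :=
      le_csSup (Sph_compact.image (Fh_contu K A)).bddAbove ⟨_, h1, rfl⟩
    rw [Fh_smul] at h2
    have h3 : Fh K A u = s ^ 4 * (s⁻¹ ^ 4 * Fh K A u) := by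
      field_simp
    rw [h3, ← hs2]
    calc s ^ 4 * (s⁻¹ ^ 4 * Fh K A u) ≤ s ^ 4 * mx K A := by gcongr
      _ = mx K A * (s ^ 2) ^ 2 := by ring

theorem mx_le (K : Matrix ι ι ℝ) (A : ι → ι → ι → ι → ℝ) {l : ℝ} (hne : (Sph ι).Nonempty)
    (h : ∀ u ∈ Sph ι, Fh K A u ≤ l) : mx K A ≤ l := by
  refine csSup_le (hne.image _) ?_
  rintro _ ⟨u, hu, rfl⟩
  exact h u hu

theorem mx_attained (K : Matrix ι ι ℝ) (A : ι → ι → ι → ι → ℝ) (hne : (Sph ι).Nonempty) :
    ∃ u ∈ Sph ι, Fh K A u = mx K A := by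
  obtain ⟨u, hu, h1, h2⟩ := Sph_compact.exists_sSup_image_eq_and_ge hne
    (Fh_contu K A).continuousOn
  exact ⟨u, hu, h1.symm⟩

theorem closed_HKT (J : Fin 3 → Matrix ι ι ℝ) (v : Fin 3 → ι → ℝ) :
    IsClosed {A : ι → ι → ι → ι → ℝ | HKT J v A} := by
  have e : {A : ι → ι → ι → ι → ℝ | HKT J v A} =
      {A | ∀ a b c d, A a b c d = - A b a c d} ∩ {A | ∀ a b c d, A a b c d = - A a b d c} ∩
      {A | ∀ a b c d, A a b c d + A b c a d + A c a b d = 0} ∩
      {A | ∀ a k l m p, ∑ r, J a m r * A k l r p = ∑ r, A k l m r * J a r p} ∩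
      {A | ∀ a k l m, ∑ p, A k l m p * v a p = 0} := by
    ext A
    constructor
    · intro h
      refine ⟨⟨⟨⟨h.curv.a1, h.curv.a2⟩, h.curv.bi⟩, ?_⟩, ?_⟩
      · intro a k l m p
        have := congrFun (congrFun (h.comm a k l) m) p
        simpa only [Matrix.mul_apply, Mt, Matrix.of_apply] using this
      · intro a k l m
        have := congrFun (h.kill a k l) m
        simpa only [mulVec, dotProduct, Mt, Matrix.of_apply, Pi.zero_apply] using this
    · rintro ⟨⟨⟨⟨h1, h2⟩, h3⟩, h4⟩, h5⟩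
      refine ⟨⟨h1, h2, h3⟩, ?_, ?_⟩
      · intro a k l
        ext m p
        simp only [Matrix.mul_apply, Mt, Matrix.of_apply]
        exact h4 a k l m p
      · intro a k l
        ext m
        simp only [mulVec, dotProduct, Mt, Matrix.of_apply, Pi.zero_apply]
        exact h5 a k l m
  rw [e]
  refine IsClosed.inter (IsClosed.inter (IsClosed.inter (IsClosed.inter ?_ ?_) ?_) ?_) ?_
  · simp only [Set.ofPred_forall]
    exact isClosed_iInter fun a => isClosed_iInter fun b => isClosed_iInter fun c =>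
      isClosed_iInter fun d => isClosed_eq (by fun_prop) (by fun_prop)
  · simp only [Set.ofPred_forall]
    exact isClosed_iInter fun a => isClosed_iInter fun b => isClosed_iInter fun c =>
      isClosed_iInter fun d => isClosed_eq (by fun_prop) (by fun_prop)
  · simp only [Set.ofPred_forall]
    exact isClosed_iInter fun a => isClosed_iInter fun b => isClosed_iInter fun c =>
      isClosed_iInter fun d => isClosed_eq (by fun_prop) (by fun_prop)
  · simp only [Set.ofPred_forall]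
    exact isClosed_iInter fun a => isClosed_iInter fun b => isClosed_iInter fun c =>
      isClosed_iInter fun d => isClosed_iInter fun p => isClosed_eq (by fun_prop) (by fun_prop)
  · simp only [Set.ofPred_forall]
    exact isClosed_iInter fun a => isClosed_iInter fun b => isClosed_iInter fun c =>
      isClosed_iInter fun d => isClosed_eq (by fun_prop) (by fun_prop)

theorem nS_cont : Continuous (nS : (ι → ι → ι → ι → ℝ) → ℝ) := by
  unfold nS
  fun_prop

theorem cub_cont : Continuous (cub : (ι → ι → ι → ι → ℝ) → ℝ) := by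
  unfold cub X3 Y3 Matrix.trace
  simp only [Matrix.diag_apply, Matrix.mul_apply, Pm, Matrix.of_apply]
  fun_prop

theorem entry_le (a b c d : ι) : A a b c d ^ 2 ≤ nS A := by
  unfold nS
  calc A a b c d ^ 2 ≤ ∑ d, A a b c d ^ 2 :=
        Finset.single_le_sum (f := fun d => A a b c d ^ 2) (fun j _ => sq_nonneg _)
          (Finset.mem_univ d)
    _ ≤ ∑ c, ∑ d, A a b c d ^ 2 := Finset.single_le_sum (f := fun c => ∑ d, A a b c d ^ 2)
          (fun j _ => Finset.sum_nonneg fun _ _ => sq_nonneg _) (Finset.mem_univ c)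
    _ ≤ ∑ b, ∑ c, ∑ d, A a b c d ^ 2 :=
        Finset.single_le_sum (f := fun b => ∑ c, ∑ d, A a b c d ^ 2)
          (fun j _ => Finset.sum_nonneg fun _ _ => Finset.sum_nonneg fun _ _ => sq_nonneg _)
          (Finset.mem_univ b)
    _ ≤ _ := Finset.single_le_sum (f := fun a => ∑ b, ∑ c, ∑ d, A a b c d ^ 2)
          (fun j _ => Finset.sum_nonneg fun _ _ => Finset.sum_nonneg fun _ _ =>
            Finset.sum_nonneg fun _ _ => sq_nonneg _) (Finset.mem_univ a)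

theorem compact_HKT (J : Fin 3 → Matrix ι ι ℝ) (v : Fin 3 → ι → ℝ) :
    IsCompact {A : ι → ι → ι → ι → ℝ | HKT J v A ∧ nS A = 1} := by
  refine Metric.isCompact_of_isClosed_isBounded ?_ ?_
  · exact (closed_HKT J v).inter (isClosed_eq nS_cont continuous_const)
  · refine (Metric.isBounded_closedBall (x := (0 : ι → ι → ι → ι → ℝ)) (r := 1)).subset ?_
    rintro A ⟨-, hA⟩
    rw [mem_closedBall_zero_iff, pi_norm_le_iff_of_nonneg zero_le_one]
    intro a
    rw [pi_norm_le_iff_of_nonneg zero_le_one]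
    intro b
    rw [pi_norm_le_iff_of_nonneg zero_le_one]
    intro c
    rw [pi_norm_le_iff_of_nonneg zero_le_one]
    intro d
    have h1 := entry_le (A := A) a b c d
    rw [hA] at h1
    rw [Real.norm_eq_abs]
    exact (sq_le_one_iff_abs_le_one _).1 h1

end Pool.Agent.L5helper93.Sas
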