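import Mathlib
import Pool.Agent.L5helper93.Sas.Cubic

/-!
# The cubic inequality, by an extremal argument
-/

namespace Pool.Agent.L5helper93.Sas

open Finset Matrix Pool.Agent.L5helper93.Ein

set_option linter.unusedSectionVars false
set_option linter.unusedVariables false
set_option linter.unusedSimpArgs false

variable {ι : Type*} [Fintype ι] [DecidableEq ι] {A B : ι → ι → ι → ι → ℝ}
  {J : Fin 3 → Matrix ι ι ℝ} {v : Fin 3 → ι → ℝ}

theorem T4_addA (t : ℝ) (a b c d : ι → ℝ) :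
    T4 (fun i j k l => A i j k l + t * B i j k l) a b c d = T4 A a b c d + t * T4 B a b c d := by
  simp only [T4_eq, Finset.mul_sum, ← Finset.sum_add_distrib]
  refine Finset.sum_congr rfl fun i _ => Finset.sum_congr rfl fun j _ =>
    Finset.sum_congr rfl fun k _ => Finset.sum_congr rfl fun l _ => ?_
  ring

theorem T4_smulA (t : ℝ) (a b c d : ι → ℝ) :
    T4 (fun i j k l => t * A i j k l) a b c d = t * T4 A a b c d := by
  simp only [T4_eq, Finset.mul_sum]
  refine Finset.sum_congr rfl fun i _ => Finset.sum_congr rfl fun j _ =>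
    Finset.sum_congr rfl fun k _ => Finset.sum_congr rfl fun l _ => ?_
  ring

theorem nS_nonneg (A : ι → ι → ι → ι → ℝ) : 0 ≤ nS A :=
  Finset.sum_nonneg fun _ _ => Finset.sum_nonneg fun _ _ => Finset.sum_nonneg fun _ _ =>
    Finset.sum_nonneg fun _ _ => sq_nonneg _

theorem zero_of_nS (h : nS A = 0) (a b c d : ι) : A a b c d = 0 := by
  have h1 := entry_le (A := A) a b c d
  rw [h] at h1
  exact pow_eq_zero_iff (two_ne_zero) |>.1 (le_antisymm h1 (sq_nonneg _))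

theorem cub_smul (t : ℝ) : cub (fun i j k l => t * A i j k l) = t ^ 3 * cub A := by
  have hP : Pm (fun i j k l => t * A i j k l) = t • Pm A := by
    ext p q
    simp [Pm]
  unfold cub X3 Y3
  rw [hP]
  simp only [smul_mul_assoc, mul_smul_comm, smul_smul, Matrix.trace_smul, smul_eq_mul]
  ring

theorem nS_smul' (t : ℝ) : nS (fun i j k l => t * A i j k l) = t ^ 2 * nS A := by
  unfold nS
  simp only [Finset.mul_sum]
  refine Finset.sum_congr rfl fun i _ => Finset.sum_congr rfl fun j _ =>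
    Finset.sum_congr rfl fun k _ => Finset.sum_congr rfl fun l _ => ?_
  ring

theorem cub_zero (h : ∀ a b c d, A a b c d = 0) : cub A = 0 := by
  have hP : Pm A = 0 := by
    ext p q
    simp [Pm, h]
  unfold cub X3 Y3
  rw [hP]
  simp

/-- The maximum is positive unless the tensor vanishes. -/
theorem mx_pos (h : HKT J v A) (q : Quat J v) (hne : (Sph ι).Nonempty) (hA : nS A ≠ 0) :
    0 < mx (J 0) A := by
  by_contra hc
  push Not at hc
  apply hA
  have h0 : ∀ i j k l, A i j k l = 0 := h.zero_of_nonpos q (by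
    intro u
    have h1 := le_mx (J 0) A u
    have h2 : mx (J 0) A * (u ⬝ᵥ u) ^ 2 ≤ 0 := mul_nonpos_of_nonpos_of_nonneg hc (sq_nonneg _)
    linarith)
  unfold nS
  simp [h0]

/-- The cubic inequality: `⟨Q (A), A⟩ ≤ 2 (n + 2) l |A| ^ 2` if the holomorphic sectional
curvature is at most `l`. -/
theorem cubic_le (q : Quat J v) {n : ℕ} (hcard : Fintype.card ι = 4 * n + 3) (h : HKT J v A)
    {l : ℝ} (hF : ∀ u, Fh (J 0) A u ≤ l * (u ⬝ᵥ u) ^ 2) :
    cub A ≤ 2 * ((n : ℝ) + 2) * l * nS A := by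
  have hne : (Sph ι).Nonempty := by
    have : Nonempty ι := Fintype.card_pos_iff.1 (by omega)
    obtain ⟨i⟩ := this
    refine ⟨Pi.single i 1, ?_⟩
    show (Pi.single i 1 : ι → ℝ) ⬝ᵥ Pi.single i 1 = 1
    simp
  by_contra hcon
  push Not at hcon
  obtain ⟨a, ha⟩ : ∃ a : ℝ, a = 2 * ((n : ℝ) + 2) := ⟨_, rfl⟩
  have ha0 : 0 < a := by rw [ha]; positivity
  rw [← ha] at hcon
  have hA0 : nS A ≠ 0 := by
    intro h0
    rw [h0, cub_zero (zero_of_nS h0)] at hcon
    simp at hcon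
  have hApos : 0 < nS A := lt_of_le_of_ne (nS_nonneg A) (Ne.symm hA0)
  have hml : mx (J 0) A ≤ l := mx_le _ _ hne fun u hu => by
    have := hF u
    have hu' : u ⬝ᵥ u = 1 := hu
    rwa [hu', one_pow, mul_one] at this
  -- normalisation
  have norm : ∀ B : ι → ι → ι → ι → ℝ, HKT J v B → nS B ≠ 0 → ∃ s : ℝ, 0 < s ∧ s ^ 2 = nS B ∧
      (HKT J v (fun i j k l => s⁻¹ * B i j k l) ∧ nS (fun i j k l => s⁻¹ * B i j k l) = 1) ∧
      cub (fun i j k l => s⁻¹ * B i j k l) = (s⁻¹) ^ 3 * cub B ∧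
      mx (J 0) (fun i j k l => s⁻¹ * B i j k l) ≤ s⁻¹ * mx (J 0) B := by
    intro B hB hB0
    have hBpos : 0 < nS B := lt_of_le_of_ne (nS_nonneg B) (Ne.symm hB0)
    refine ⟨Real.sqrt (nS B), Real.sqrt_pos.2 hBpos, Real.sq_sqrt hBpos.le, ⟨hB.smul _, ?_⟩,
      cub_smul _, ?_⟩
    · rw [nS_smul', inv_pow, Real.sq_sqrt hBpos.le]
      exact inv_mul_cancel₀ hB0
    · refine mx_le _ _ hne fun u hu => ?_
      have h1 := le_mx (J 0) B u
      have hu' : u ⬝ᵥ u = 1 := hu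
      rw [hu', one_pow, mul_one] at h1
      unfold Fh at h1 ⊢
      rw [T4_smulA]
      exact mul_le_mul_of_nonneg_left h1 (inv_nonneg.2 (Real.sqrt_nonneg _))
  -- the extremal tensor
  have hScomp := compact_HKT (ι := ι) J v
  obtain ⟨s, hs0, hs2, hs3, hs4, hs5⟩ := norm A h hA0
  have hSne : {A : ι → ι → ι → ι → ℝ | HKT J v A ∧ nS A = 1}.Nonempty := ⟨_, hs3⟩
  have hmpos : ∀ B ∈ {A : ι → ι → ι → ι → ℝ | HKT J v A ∧ nS A = 1}, 0 < mx (J 0) B := by
    rintro B ⟨hB1, hB2⟩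
    exact mx_pos hB1 q hne (by rw [hB2]; exact one_ne_zero)
  obtain ⟨T, hT, hTmax⟩ := hScomp.exists_isMaxOn hSne
    (f := fun B => cub B / mx (J 0) B)
    (cub_cont.continuousOn.div (mx_cont _).continuousOn fun B hB => (hmpos B hB).ne')
  obtain ⟨ρ, hρ⟩ : ∃ ρ, ρ = cub T / mx (J 0) T := ⟨_, rfl⟩
  have hmT := hmpos T hT
  have hcT : cub T = ρ * mx (J 0) T := by rw [hρ]; field_simp
  have hρa : a < ρ := by
    have h1 := hTmax hs3
    have h2 : cub (fun i j k l => s⁻¹ * A i j k l) / mx (J 0) (fun i j k l => s⁻¹ * A i j k l)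
        ≤ ρ := by rw [hρ]; exact h1
    have h3 := hmpos _ hs3
    rw [div_le_iff₀ h3, hs4] at h2
    by_contra hc
    push Not at hc
    have hcp : 0 < cub A := by
      have hl0 : 0 < l := lt_of_lt_of_le (mx_pos h q hne hA0) hml
      exact lt_trans (by positivity) hcon
    have h4 : ρ * mx (J 0) (fun i j k l => s⁻¹ * A i j k l) ≤ a * (s⁻¹ * l) := by
      calc ρ * mx (J 0) (fun i j k l => s⁻¹ * A i j k l)
          ≤ a * mx (J 0) (fun i j k l => s⁻¹ * A i j k l) := by gcongr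
        _ ≤ a * (s⁻¹ * mx (J 0) A) := by gcongr
        _ ≤ a * (s⁻¹ * l) := by gcongr
    have h5 : s⁻¹ ^ 3 * cub A ≤ a * (s⁻¹ * l) := h2.trans h4
    have h6 : cub A ≤ a * l * nS A := by
      have h7 := mul_le_mul_of_nonneg_left h5 (show 0 ≤ s ^ 3 by positivity)
      have h8 : s ^ 3 * (s⁻¹ ^ 3 * cub A) = cub A := by field_simp
      have h9 : s ^ 3 * (a * (s⁻¹ * l)) = a * l * s ^ 2 := by field_simp
      rw [h8, h9, hs2] at h7
      exact h7
    linarith
  have hbest : ∀ B : ι → ι → ι → ι → ℝ, HKT J v B → cub B ≤ ρ * mx (J 0) B * nS B := by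
    intro B hB
    by_cases hB0 : nS B = 0
    · rw [hB0, cub_zero (zero_of_nS hB0)]; simp
    obtain ⟨r, hr0, hr2, hr3, hr4, hr5⟩ := norm B hB hB0
    have h1 := hTmax hr3
    have h2 : cub (fun i j k l => r⁻¹ * B i j k l) / mx (J 0) (fun i j k l => r⁻¹ * B i j k l)
        ≤ ρ := by rw [hρ]; exact h1
    have h3 := hmpos _ hr3
    rw [div_le_iff₀ h3, hr4] at h2
    have hρ0 : 0 < ρ := ha0.trans hρa
    have h4 : r⁻¹ ^ 3 * cub B ≤ ρ * (r⁻¹ * mx (J 0) B) := h2.trans (by gcongr)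
    have h7 := mul_le_mul_of_nonneg_left h4 (show 0 ≤ r ^ 3 by positivity)
    have h8 : r ^ 3 * (r⁻¹ ^ 3 * cub B) = cub B := by field_simp
    have h9 : r ^ 3 * (ρ * (r⁻¹ * mx (J 0) B)) = ρ * mx (J 0) B * r ^ 2 := by field_simp
    rw [h8, h9, hr2] at h7
    exact h7
  -- the variation
  obtain ⟨hT1, hT2⟩ := hT
  have hQ := hT1.react
  obtain ⟨m, hm⟩ : ∃ m, m = mx (J 0) T := ⟨_, rfl⟩
  rw [← hm] at hcT hmT
  obtain ⟨a', h1a, h2a⟩ := exists_between hρa
  have hTu : ∀ u, Fh (J 0) T u ≤ m * (u ⬝ᵥ u) ^ 2 := by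
    intro u; rw [hm]; exact le_mx _ _ u
  have hTs : ∀ u ∈ Sph ι, Fh (J 0) T u ≤ m := by
    intro u hu
    have h1 := hTu u
    have hu' : u ⬝ᵥ u = 1 := hu
    rwa [hu', one_pow, mul_one] at h1
  have hcompC : IsCompact (Sph ι ∩ {u | a' * m ^ 2 ≤ Fh (J 0) (Qt T) u}) :=
    Sph_compact.inter_right (isClosed_le continuous_const (Fh_contu _ _))
  obtain ⟨ε, hε, hεC⟩ := Geo.small_add hcompC (u := fun u => Fh (J 0) T u - m)
    (w := fun u => Fh (J 0) (Qt T) u) ((Fh_contu _ _).sub continuous_const) (Fh_contu _ _) (by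
      rintro u ⟨hu1, hu2⟩
      have h1 := hTs u hu1
      have h2 : Fh (J 0) T u ≠ m := by
        intro he
        have h3 := hT1.at_max q hcard hmT hu1 hTu he
        have h4 : a' * m ^ 2 ≤ Fh (J 0) (Qt T) u := hu2
        rw [← ha] at h3
        have h5 : 0 < m ^ 2 := by positivity
        nlinarith
      have h3 := lt_of_le_of_ne h1 h2
      linarith)
  have hvar : ∀ t, 0 < t → t ≤ ε → mx (J 0) (fun i j k l => T i j k l + t * Qt T i j k l) ≤
      m + t * a' * m ^ 2 := by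
    intro t ht0 htε
    refine mx_le _ _ hne fun u hu => ?_
    have e : Fh (J 0) (fun i j k l => T i j k l + t * Qt T i j k l) u =
        Fh (J 0) T u + t * Fh (J 0) (Qt T) u := by
      unfold Fh
      rw [T4_addA]
    rw [e]
    have h1 := hTs u hu
    by_cases hc : a' * m ^ 2 ≤ Fh (J 0) (Qt T) u
    · have h2 := hεC u ⟨hu, hc⟩
      have h3 : t * Fh (J 0) (Qt T) u ≤ ε * Fh (J 0) (Qt T) u := by
        have : 0 ≤ Fh (J 0) (Qt T) u := le_trans (by
          have : 0 < a' := ha0.trans h1a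
          positivity) hc
        gcongr
      have h4 : 0 ≤ t * a' * m ^ 2 := by
        have : 0 < a' := ha0.trans h1a
        positivity
      linarith
    · push Not at hc
      have h2 : t * Fh (J 0) (Qt T) u ≤ t * (a' * m ^ 2) := by gcongr
      linarith
  obtain ⟨N2, hN2⟩ : ∃ N2, N2 = nS (Qt T) := ⟨_, rfl⟩
  obtain ⟨D, hD⟩ : ∃ D, D = ip (Qt (Qt T)) T := ⟨_, rfl⟩
  obtain ⟨G, hG⟩ : ∃ G, G = cub (Qt T) := ⟨_, rfl⟩
  have hip : ip T (Qt T) = ρ * m := by rw [ip_comm, ← cub_eq hT1.curv, hcT]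
  have hCS : (ρ * m) ^ 2 ≤ N2 := by
    have h1 := ip_cs (A := T) (B := Qt T)
    rw [hip, ip_self, ip_self, hT2, one_mul, ← hN2] at h1
    exact h1
  have hρ0 : 0 < ρ := ha0.trans hρa
  have hpoly : ∀ t, 0 < t → t ≤ ε → 0 ≤ (2 * ρ * m * (ρ * m) + ρ * a' * m ^ 2 - 3 * N2) * t +
      (ρ * m * N2 + ρ * (a' * m ^ 2) * (2 * (ρ * m)) - 3 * D) * t ^ 2 +
      (ρ * (a' * m ^ 2) * N2 - G) * t ^ 3 := by
    intro t ht0 htε
    have h1 := hbest _ (hT1.add hQ t)
    rw [cub_add hT1.curv hQ.curv, nS_add, hT2, hip, ip_self, ← hN2, ← hD, ← hG, hcT] at h1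
    have h2 := hvar t ht0 htε
    have h3 : 0 ≤ 1 + 2 * t * (ρ * m) + t ^ 2 * N2 := by
      have : 0 ≤ N2 := by rw [hN2]; exact nS_nonneg _
      positivity
    have h4 : ρ * mx (J 0) (fun i j k l => T i j k l + t * Qt T i j k l) *
        (1 + 2 * t * (ρ * m) + t ^ 2 * N2) ≤ ρ * (m + t * a' * m ^ 2) *
        (1 + 2 * t * (ρ * m) + t ^ 2 * N2) := by gcongr
    have h5 := h1.trans h4
    nlinarith [h5]
  have hfin := lin_nonneg hε hpoly
  have h6 : ρ * m ^ 2 * (ρ - a') ≤ 0 := by nlinarith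
  have h7 : 0 < ρ * m ^ 2 * (ρ - a') := mul_pos (by positivity) (by linarith)
  linarith

end Pool.Agent.L5helper93.Sas
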