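import Mathlib
import Pool.Agent.L5helper93.Sas.Extremal

/-!
# The maximum of the holomorphic sectional curvature in the symmetric case
-/

namespace Pool.Agent.L5helper93.Sas

open Finset Matrix Pool.Agent.L5helper93.Ein

set_option linter.unusedSectionVars false
set_option linter.unusedVariables false
set_option linter.unusedSimpArgs false

noncomputable section

variable {ι : Type*} [Fintype ι] [DecidableEq ι] {A B : ι → ι → ι → ι → ℝ}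
  {J : Fin 3 → Matrix ι ι ℝ} {v : Fin 3 → ι → ℝ}

/-- The operator of the curvature tensor as a vector. -/
def RV (A : ι → ι → ι → ι → ℝ) (u w z : ι → ℝ) : ι → ℝ := fun i => T4 A u w (Pi.single i 1) z

theorem dot_RV (u w z y : ι → ℝ) : y ⬝ᵥ RV A u w z = T4 A u w y z := by
  unfold RV dotProduct
  simp only [T4_eq]
  have h1 : ∀ x, ∑ k, ∑ i, ∑ l, ∑ q, A k i l q * (u k * w i * ((Pi.single x (1:ℝ) : ι → ℝ) l * z q)) =
      ∑ k, ∑ i, ∑ q, A k i x q * (u k * w i * z q) := by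
    intro x
    refine Finset.sum_congr rfl fun k _ => Finset.sum_congr rfl fun i _ => ?_
    rw [Finset.sum_eq_single x]
    · refine Finset.sum_congr rfl fun q _ => ?_
      rw [Pi.single_eq_same]; ring
    · intro b _ hb
      refine Finset.sum_eq_zero fun q _ => ?_
      rw [Pi.single_eq_of_ne hb]; ring
    · simp
  simp only [h1, Finset.mul_sum]
  calc ∑ x, ∑ k, ∑ i, ∑ q, y x * (A k i x q * (u k * w i * z q))
      = ∑ k, ∑ x, ∑ i, ∑ q, y x * (A k i x q * (u k * w i * z q)) := Finset.sum_comm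
    _ = ∑ k, ∑ i, ∑ x, ∑ q, y x * (A k i x q * (u k * w i * z q)) :=
        Finset.sum_congr rfl fun k _ => Finset.sum_comm
    _ = _ := Finset.sum_congr rfl fun k _ => Finset.sum_congr rfl fun i _ =>
        Finset.sum_congr rfl fun x _ => Finset.sum_congr rfl fun q _ => by ring

theorem vec_ext {a b : ι → ℝ} (h : ∀ y : ι → ℝ, y ⬝ᵥ a = y ⬝ᵥ b) : a = b := by
  ext i
  have := h (Pi.single i 1)
  simpa using this

/-- The curvature operator of the base acting on horizontal vectors. -/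
def Am (J : Fin 3 → Matrix ι ι ℝ) (A : ι → ι → ι → ι → ℝ) (u w z : ι → ℝ) : ι → ℝ :=
  RV A u w z + (w ⬝ᵥ z) • u - (u ⬝ᵥ z) • w - ∑ a, (((J a *ᵥ u) ⬝ᵥ z) • (J a *ᵥ w) -
    ((J a *ᵥ w) ⬝ᵥ z) • (J a *ᵥ u))

/-- The derivation acting on the tensor. -/
def Der (A : ι → ι → ι → ι → ℝ) (D : (ι → ℝ) → (ι → ℝ)) (a b c d : ι → ℝ) : ℝ :=
  T4 A (D a) b c d + T4 A a (D b) c d + T4 A a b (D c) d + T4 A a b c (D d)

theorem HKT.RV_J (h : HKT J v A) (q : Quat J v) (s : Fin 3) (u w z : ι → ℝ) :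
    RV A u w (J s *ᵥ z) = J s *ᵥ RV A u w z := by
  apply vec_ext
  intro y
  rw [dot_RV]
  have h1 : y ⬝ᵥ (J s *ᵥ RV A u w z) = - ((J s *ᵥ y) ⬝ᵥ RV A u w z) := by
    rw [q.skew_dot, neg_neg]
  rw [h1, dot_RV, h.J34 q, neg_neg]

theorem HKT.der_J (h : HKT J v A) (q : Quat J v) (s : Fin 3) (a b c d : ι → ℝ) :
    Der A (fun z => J s *ᵥ z) a b c d = 0 := by
  unfold Der
  beta_reduce
  rw [h.J12 q s a b c d, h.J34 q s a b c d]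
  ring

theorem Der_add (D D' : (ι → ℝ) → (ι → ℝ)) (t : ℝ) (a b c d : ι → ℝ) :
    Der A (fun z => D z + t • D' z) a b c d = Der A D a b c d + t * Der A D' a b c d := by
  unfold Der
  simp only [T4_add1, T4_add2, T4_add3, T4_add4, T4_smul1, T4_smul2, T4_smul3, T4_smul4]
  ring

/-- The quaternionic line of a horizontal unit vector. -/
theorem Quat.line (q : Quat J v) {x : ι → ℝ} (hv : ∀ s, v s ⬝ᵥ x = 0) :
    J 0 *ᵥ (J 0 *ᵥ x) = - x ∧ J 1 *ᵥ (J 1 *ᵥ x) = - x ∧ J 2 *ᵥ (J 2 *ᵥ x) = - x ∧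
    J 0 *ᵥ (J 1 *ᵥ x) = J 2 *ᵥ x ∧ J 1 *ᵥ (J 2 *ᵥ x) = J 0 *ᵥ x ∧ J 2 *ᵥ (J 0 *ᵥ x) = J 1 *ᵥ x ∧
    J 1 *ᵥ (J 0 *ᵥ x) = - (J 2 *ᵥ x) ∧ J 2 *ᵥ (J 1 *ᵥ x) = - (J 0 *ᵥ x) ∧
    J 0 *ᵥ (J 2 *ᵥ x) = - (J 1 *ᵥ x) := by
  refine ⟨?_, ?_, ?_, ?_, ?_, ?_, ?_, ?_, ?_⟩
  · rw [q.sqv, hv, zero_smul, add_zero]
  · rw [q.sqv, hv, zero_smul, add_zero]
  · rw [q.sqv, hv, zero_smul, add_zero]
  · rw [Matrix.mulVec_mulVec, q.m01, Matrix.add_mulVec, Matrix.vecMulVec_mulVec,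
      op_smul_eq_smul, hv, zero_smul, add_zero]
  · rw [Matrix.mulVec_mulVec, q.m12, Matrix.add_mulVec, Matrix.vecMulVec_mulVec,
      op_smul_eq_smul, hv, zero_smul, add_zero]
  · rw [Matrix.mulVec_mulVec, q.m20, Matrix.add_mulVec, Matrix.vecMulVec_mulVec,
      op_smul_eq_smul, hv, zero_smul, add_zero]
  · rw [Matrix.mulVec_mulVec, q.m10, Matrix.add_mulVec, Matrix.neg_mulVec,
      Matrix.vecMulVec_mulVec, op_smul_eq_smul, hv, zero_smul, add_zero]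
  · rw [Matrix.mulVec_mulVec, q.m21, Matrix.add_mulVec, Matrix.neg_mulVec,
      Matrix.vecMulVec_mulVec, op_smul_eq_smul, hv, zero_smul, add_zero]
  · rw [Matrix.mulVec_mulVec, q.m02, Matrix.add_mulVec, Matrix.neg_mulVec,
      Matrix.vecMulVec_mulVec, op_smul_eq_smul, hv, zero_smul, add_zero]

/-- Dot products on the quaternionic line. -/
theorem Quat.ortho (q : Quat J v) {x : ι → ℝ} (hv : ∀ s, v s ⬝ᵥ x = 0) (hx : x ⬝ᵥ x = 1) :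
    (∀ s, x ⬝ᵥ (J s *ᵥ x) = 0) ∧ (∀ s, (J s *ᵥ x) ⬝ᵥ x = 0) ∧
    (∀ s, (J s *ᵥ x) ⬝ᵥ (J s *ᵥ x) = 1) ∧
    (J 0 *ᵥ x) ⬝ᵥ (J 1 *ᵥ x) = 0 ∧ (J 1 *ᵥ x) ⬝ᵥ (J 0 *ᵥ x) = 0 ∧
    (J 0 *ᵥ x) ⬝ᵥ (J 2 *ᵥ x) = 0 ∧ (J 2 *ᵥ x) ⬝ᵥ (J 0 *ᵥ x) = 0 ∧
    (J 1 *ᵥ x) ⬝ᵥ (J 2 *ᵥ x) = 0 ∧ (J 2 *ᵥ x) ⬝ᵥ (J 1 *ᵥ x) = 0 := by
  obtain ⟨l1, l2, l3, l4, l5, l6, l7, l8, l9⟩ := q.line hv
  have h0 : ∀ s, x ⬝ᵥ (J s *ᵥ x) = 0 := by
    intro s
    have h1 := q.skew_dot s x x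
    rw [dotProduct_comm] at h1
    linarith
  have h0' : ∀ s, (J s *ᵥ x) ⬝ᵥ x = 0 := fun s => by rw [dotProduct_comm]; exact h0 s
  have h1 : ∀ s, (J s *ᵥ x) ⬝ᵥ (J s *ᵥ x) = 1 := by
    intro s
    rw [q.skew_dot, q.sqv, hv, zero_smul, add_zero, dotProduct_neg, hx, neg_neg]
  have h01 : (J 0 *ᵥ x) ⬝ᵥ (J 1 *ᵥ x) = 0 := by
    rw [q.skew_dot, l4, h0, neg_zero]
  have h02 : (J 0 *ᵥ x) ⬝ᵥ (J 2 *ᵥ x) = 0 := by
    rw [q.skew_dot, l9, dotProduct_neg, h0, neg_zero, neg_zero]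
  have h12 : (J 1 *ᵥ x) ⬝ᵥ (J 2 *ᵥ x) = 0 := by
    rw [q.skew_dot, l5, h0, neg_zero]
  exact ⟨h0, h0', h1, h01, by rw [dotProduct_comm]; exact h01, h02,
    by rw [dotProduct_comm]; exact h02, h12, by rw [dotProduct_comm]; exact h12⟩

/-- If the curvature operators of the base annihilate the tensor, then the maximum of the
holomorphic sectional curvature is `4`. -/
theorem HKT.max_four (h : HKT J v A) (q : Quat J v) {x : ι → ℝ} {l : ℝ} (hl : 0 < l)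
    (hx : x ⬝ᵥ x = 1) (hF : ∀ u, Fh (J 0) A u ≤ l * (u ⬝ᵥ u) ^ 2) (he : Fh (J 0) A x = l)
    (hder : ∀ u w a b c d : ι → ℝ, (∀ s, v s ⬝ᵥ u = 0) → (∀ s, v s ⬝ᵥ w = 0) →
      (∀ s, v s ⬝ᵥ a = 0) → (∀ s, v s ⬝ᵥ b = 0) → (∀ s, v s ⬝ᵥ c = 0) → (∀ s, v s ⬝ᵥ d = 0) →
      Der A (fun z => Am J A u w z) a b c d = 0) : l = 4 := by
  have cond := h.conditions q hx hF he
  -- `x` is horizontal
  have hvx : ∀ s, v s ⬝ᵥ x = 0 := by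
    intro s
    have h1 := (cond (v s)).1
    have h2 : T4 A x (J 0 *ᵥ v s) x (J 0 *ᵥ x) = 0 := by
      have e1 := h.J12 q 0 x (v s) x (J 0 *ᵥ x)
      rw [h.v2] at e1
      have e2 := h.J12 q 0 x (v s) x (J 0 *ᵥ x)
      have e3 : T4 A x (J 0 *ᵥ v s) x (J 0 *ᵥ x) = - T4 A (J 0 *ᵥ x) (v s) x (J 0 *ᵥ x) := by
        rw [e2, neg_neg]
      rw [e3, h.v2, neg_zero]
    rw [h2] at h1
    have h3 : x ⬝ᵥ v s = 0 := by
      rcases mul_eq_zero.1 h1.symm with h3 | h3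
      · exact absurd h3 hl.ne'
      · exact h3
    rw [dotProduct_comm]; exact h3
  obtain ⟨l1, l2, l3, l4, l5, l6, l7, l8, l9⟩ := q.line hvx
  obtain ⟨o1, o2, o3, o4, o5, o6, o7, o8, o9⟩ := q.ortho hvx hx
  have hh : ∀ r s, v s ⬝ᵥ (J r *ᵥ x) = 0 := fun r s => q.hor hvx r s
  -- first order condition
  have f1 : ∀ y, T4 A x y x (J 0 *ᵥ x) = l * ((J 0 *ᵥ x) ⬝ᵥ y) := by
    intro y
    have e1 := (cond (J 0 *ᵥ y)).1
    rw [q.sqv, T4_add2, T4_smul2, h.v2, mul_zero, add_zero] at e1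
    have e2 : T4 A x (-y) x (J 0 *ᵥ x) = - T4 A x y x (J 0 *ᵥ x) := by
      have : (-y : ι → ℝ) = (-1 : ℝ) • y := by simp
      rw [this, T4_smul2]; ring
    rw [e2] at e1
    have e3 := q.skew_dot 0 x y
    rw [e3]
    linarith
  have R1 : RV A x (J 0 *ᵥ x) x = (-l) • (J 0 *ᵥ x) := by
    apply vec_ext
    intro y
    rw [dot_RV, dotProduct_smul, smul_eq_mul, T4_a2 h.curv, T4_pair h.curv, f1 y, dotProduct_comm]
    ring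
  have neg2 : ∀ a b c d : ι → ℝ, T4 A a (-b) c d = - T4 A a b c d := by
    intro a b c d
    have : (-b : ι → ℝ) = (-1 : ℝ) • b := by simp
    rw [this, T4_smul2]; ring
  have neg4 : ∀ a b c d : ι → ℝ, T4 A a b c (-d) = - T4 A a b c d := fun a b c d => T4_neg4 a b c d
  have f1' : ∀ y, T4 A x (J 0 *ᵥ x) x y = l * ((J 0 *ᵥ x) ⬝ᵥ y) := by
    intro y
    rw [T4_pair h.curv, f1]
  -- the relation between the two forms
  have G : ∀ y, T4 A x (J 1 *ᵥ x) x (J 0 *ᵥ y) =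
      T4 A x (J 2 *ᵥ x) x y + l * ((J 2 *ᵥ x) ⬝ᵥ y) := by
    intro y
    have e1 := h.J34 q 0 x (J 1 *ᵥ x) x y
    have e2 := T4_bi h.curv x (J 1 *ᵥ x) (J 0 *ᵥ x) y
    have e3 : T4 A (J 1 *ᵥ x) (J 0 *ᵥ x) x y = T4 A x (J 2 *ᵥ x) x y := by
      rw [h.J12 q, l7, neg2, neg_neg]
    have e4 : T4 A (J 0 *ᵥ x) x (J 1 *ᵥ x) y = l * ((J 2 *ᵥ x) ⬝ᵥ y) := by
      rw [T4_a1 h.curv, h.J34 q, neg_neg, f1']
      have := q.skew_dot 1 (J 0 *ᵥ x) y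
      rw [l7, neg_dotProduct] at this
      rw [show (J 0 *ᵥ x) ⬝ᵥ (J 1 *ᵥ y) = (J 2 *ᵥ x) ⬝ᵥ y by linarith]
    linarith
  obtain ⟨a, ha⟩ : ∃ a, a = T4 A x (J 1 *ᵥ x) x (J 1 *ᵥ x) := ⟨_, rfl⟩
  obtain ⟨b, hb⟩ : ∃ b, b = T4 A x (J 2 *ᵥ x) x (J 2 *ᵥ x) := ⟨_, rfl⟩
  obtain ⟨c, hc⟩ : ∃ c, c = T4 A x (J 1 *ᵥ x) x (J 2 *ᵥ x) := ⟨_, rfl⟩
  have hc' : T4 A x (J 2 *ᵥ x) x (J 1 *ᵥ x) = c := by rw [hc, T4_pair h.curv]
  have hab : a + b + l = 0 := by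
    have e := G (J 2 *ᵥ x)
    rw [l9, neg4, ← ha, ← hb, o3] at e
    linarith
  -- the first operator
  have A1 : ∀ z, Am J A x (J 0 *ᵥ x) z = RV A x (J 0 *ᵥ x) z + (2 * ((J 0 *ᵥ x) ⬝ᵥ z)) • x -
      (2 * (x ⬝ᵥ z)) • (J 0 *ᵥ x) + (2 * ((J 1 *ᵥ x) ⬝ᵥ z)) • (J 2 *ᵥ x) -
      (2 * ((J 2 *ᵥ x) ⬝ᵥ z)) • (J 1 *ᵥ x) := by
    intro z
    unfold Am
    rw [Fin.sum_univ_three, l1, l7, l6]
    simp only [neg_dotProduct, smul_neg, neg_smul]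
    module
  obtain ⟨D, hD⟩ : ∃ D : (ι → ℝ) → (ι → ℝ), D = fun z => Am J A x (J 0 *ᵥ x) z + (l + 2) • (J 0 *ᵥ z) :=
    ⟨_, rfl⟩
  have D0 : D x = 0 := by
    rw [hD]
    beta_reduce
    rw [A1, R1, o2, o2, o2, hx]
    module
  have D2 : D (J 1 *ᵥ x) = (2 * (l + 2)) • (J 2 *ᵥ x) := by
    rw [hD]
    beta_reduce
    rw [A1, h.RV_J q, R1, Matrix.mulVec_smul, l7, o1, o3, o4, o9, l4]
    module
  have D3 : D (J 2 *ᵥ x) = (-(2 * (l + 2))) • (J 1 *ᵥ x) := by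
    rw [hD]
    beta_reduce
    rw [A1, h.RV_J q, R1, Matrix.mulVec_smul, l6, o1, o3, o6, o8, l9]
    module
  have hD0 : ∀ a b c d : ι → ℝ, (∀ s, v s ⬝ᵥ a = 0) → (∀ s, v s ⬝ᵥ b = 0) →
      (∀ s, v s ⬝ᵥ c = 0) → (∀ s, v s ⬝ᵥ d = 0) → Der A D a b c d = 0 := by
    intro a b c d h1 h2 h3 h4
    rw [hD, Der_add (fun z => Am J A x (J 0 *ᵥ x) z) (fun z => J 0 *ᵥ z), h.der_J q,
      hder x (J 0 *ᵥ x) a b c d hvx (hh 0) h1 h2 h3 h4]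
    ring
  have E : ∀ y, (∀ s, v s ⬝ᵥ y = 0) → 2 * (l + 2) * T4 A x (J 2 *ᵥ x) x y +
      T4 A x (J 1 *ᵥ x) x (D y) = 0 := by
    intro y hy
    have e := hD0 x (J 1 *ᵥ x) x y hvx (hh 1) hvx hy
    unfold Der at e
    rw [D0, D2, T4_smul2] at e
    have z1 : ∀ b c d : ι → ℝ, T4 A 0 b c d = 0 := by
      intro b c d
      have := T4_smul1 (A := A) 0 0 b c d
      simpa using this
    have z3 : ∀ a b d : ι → ℝ, T4 A a b 0 d = 0 := by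
      intro a b d
      have := T4_smul3 (A := A) 0 a b 0 d
      simpa using this
    rw [z1, z3] at e
    linarith
  -- `c = 0` and `a = b`
  have hc0 : c = 0 := by
    have e := E (J 1 *ᵥ x) (hh 1)
    rw [D2, T4_smul4, hc', ← hc] at e
    have : (4 * (l + 2)) * c = 0 := by linarith
    rcases mul_eq_zero.1 this with h1 | h1
    · exfalso; linarith
    · exact h1
  have hab' : a = b := by
    have e := E (J 2 *ᵥ x) (hh 2)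
    rw [D3, T4_smul4, ← ha, ← hb] at e
    have : (2 * (l + 2)) * (b - a) = 0 := by linarith
    rcases mul_eq_zero.1 this with h1 | h1
    · exfalso; linarith
    · linarith
  -- the vector `κ`
  obtain ⟨κ, hκ⟩ : ∃ κ : ι → ℝ, κ = -(RV A x (J 2 *ᵥ x) x) - b • (J 2 *ᵥ x) := ⟨_, rfl⟩
  have kd : ∀ y, y ⬝ᵥ κ = T4 A x (J 2 *ᵥ x) x y - b * ((J 2 *ᵥ x) ⬝ᵥ y) := by
    intro y
    rw [hκ, dotProduct_sub, dotProduct_neg, dot_RV, dotProduct_smul, smul_eq_mul,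
      T4_a2 h.curv, neg_neg, dotProduct_comm y]
  have kx : x ⬝ᵥ κ = 0 := by
    rw [kd, o2]
    have := T4_a2 h.curv x (J 2 *ᵥ x) x x
    linarith
  have k1 : (J 0 *ᵥ x) ⬝ᵥ κ = 0 := by
    rw [kd, o7, T4_pair h.curv, f1', o6]; ring
  have k2 : (J 1 *ᵥ x) ⬝ᵥ κ = 0 := by
    rw [kd, o9, hc', hc0]; ring
  have k3 : (J 2 *ᵥ x) ⬝ᵥ κ = 0 := by
    rw [kd, o3, ← hb]; ring
  have kv : ∀ s, v s ⬝ᵥ κ = 0 := by
    intro s
    rw [kd, h.v4, dotProduct_comm, hh]; ring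
  have hκ0 : κ = 0 := by
    have e := E κ kv
    have e1 : D κ = RV A x (J 0 *ᵥ x) κ + (l + 2) • (J 0 *ᵥ κ) := by
      rw [hD]
      beta_reduce
      rw [A1, kx, k1, k2, k3]
      module
    have e2 : T4 A x (J 2 *ᵥ x) x κ = κ ⬝ᵥ κ := by
      rw [kd κ, k3]; ring
    have e3 := G κ
    rw [k3, e2] at e3
    rw [e1, T4_add4, T4_smul4, e3, e2] at e
    -- the remaining term
    have g1 : ∀ y, T4 A x (J 1 *ᵥ x) x y = y ⬝ᵥ (J 0 *ᵥ κ) + a * ((J 1 *ᵥ x) ⬝ᵥ y) := by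
      intro y
      have e4 := G (J 0 *ᵥ y)
      rw [q.sqv, T4_add4, T4_smul4, h.v4, neg4] at e4
      have e5 := kd (J 0 *ᵥ y)
      rw [q.skew_dot] at e5
      have e6 := q.skew_dot 0 (J 2 *ᵥ x) y
      rw [l9, neg_dotProduct] at e6
      have e7 : (J 2 *ᵥ x) ⬝ᵥ (J 0 *ᵥ y) = (J 1 *ᵥ x) ⬝ᵥ y := by linarith
      rw [e7] at e4 e5
      linear_combination -e4 + e5 - ((J 1 *ᵥ x) ⬝ᵥ y) * hab
    have g2 : T4 A x (J 1 *ᵥ x) x (RV A x (J 0 *ᵥ x) κ) = - S0 J A x κ := by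
      have e8 : (RV A x (J 0 *ᵥ x) κ) ⬝ᵥ (J 0 *ᵥ κ) = T4 A x (J 0 *ᵥ x) (J 0 *ᵥ κ) κ := by
        rw [dotProduct_comm, dot_RV]
      have e9 : (J 0 *ᵥ x) ⬝ᵥ (J 1 *ᵥ κ) = 0 := by
        have := q.skew_dot 1 (J 0 *ᵥ x) κ
        rw [l7, neg_dotProduct, k3] at this
        linarith
      rw [g1, e8, dot_RV, h.J34 q 1, f1', e9, T4_a2 h.curv, h.T_mixed q]
      unfold S0
      ring
    rw [g2] at e
    -- the second order condition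
    have u1 := (cond κ).2
    have u2 := (cond (J 0 *ᵥ κ)).2
    have u3 : J 0 *ᵥ (J 0 *ᵥ κ) = - κ := by rw [q.sqv, kv, zero_smul, add_zero]
    have u4 : x ⬝ᵥ (J 0 *ᵥ κ) = 0 := by
      have := q.skew_dot 0 x κ
      rw [k1] at this
      linarith
    have u5 : (J 0 *ᵥ κ) ⬝ᵥ (J 0 *ᵥ κ) = κ ⬝ᵥ κ := by
      rw [q.skew_dot, u3, dotProduct_neg, neg_neg]
    rw [u3, u4, u5, neg4, neg2] at u2
    rw [kx] at u1
    have u6 : 3 * (l + 2) * (κ ⬝ᵥ κ) ≤ l / 2 * (κ ⬝ᵥ κ) := by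
      unfold S0 at e
      nlinarith
    have u7 : 0 ≤ κ ⬝ᵥ κ := Finset.sum_nonneg fun i _ => mul_self_nonneg _
    have u8 : κ ⬝ᵥ κ = 0 := by nlinarith
    exact dotProduct_self_eq_zero.1 u8
  -- the two forms
  have kf : ∀ y, T4 A x (J 2 *ᵥ x) x y = b * ((J 2 *ᵥ x) ⬝ᵥ y) := by
    intro y
    have := kd y
    rw [hκ0, dotProduct_zero] at this
    linarith
  have jf : ∀ y, T4 A x (J 1 *ᵥ x) x y = a * ((J 1 *ᵥ x) ⬝ᵥ y) := by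
    intro y
    have e4 := G (J 0 *ᵥ y)
    rw [q.sqv, T4_add4, T4_smul4, h.v4, neg4, kf] at e4
    have e6 := q.skew_dot 0 (J 2 *ᵥ x) y
    rw [l9, neg_dotProduct] at e6
    have e7 : (J 2 *ᵥ x) ⬝ᵥ (J 0 *ᵥ y) = (J 1 *ᵥ x) ⬝ᵥ y := by linarith
    rw [e7] at e4
    linear_combination -e4 - ((J 1 *ᵥ x) ⬝ᵥ y) * hab
  -- the second operator
  have R2 : RV A x (J 1 *ᵥ x) x = (-a) • (J 1 *ᵥ x) := by
    apply vec_ext
    intro y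
    rw [dot_RV, dotProduct_smul, smul_eq_mul, T4_a2 h.curv, jf y, dotProduct_comm]
    ring
  have A2 : ∀ z, Am J A x (J 1 *ᵥ x) z = RV A x (J 1 *ᵥ x) z + (2 * ((J 1 *ᵥ x) ⬝ᵥ z)) • x -
      (2 * (x ⬝ᵥ z)) • (J 1 *ᵥ x) - (2 * ((J 0 *ᵥ x) ⬝ᵥ z)) • (J 2 *ᵥ x) +
      (2 * ((J 2 *ᵥ x) ⬝ᵥ z)) • (J 0 *ᵥ x) := by
    intro z
    unfold Am
    rw [Fin.sum_univ_three, l2, l4, l8]
    simp only [neg_dotProduct, smul_neg, neg_smul]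
    module
  obtain ⟨D', hD'⟩ : ∃ D : (ι → ℝ) → (ι → ℝ),
    D = fun z => Am J A x (J 1 *ᵥ x) z + (a + 2) • (J 1 *ᵥ z) := ⟨_, rfl⟩
  have D0' : D' x = 0 := by
    rw [hD']
    beta_reduce
    rw [A2, R2, o2, o2, o2, hx]
    module
  have D1' : D' (J 0 *ᵥ x) = (-(2 * (a + 2))) • (J 2 *ᵥ x) := by
    rw [hD']
    beta_reduce
    rw [A2, h.RV_J q, R2, Matrix.mulVec_smul, l4, o1, o3, o5, o7, l7]
    module
  have D3' : D' (J 2 *ᵥ x) = (2 * (a + 2)) • (J 0 *ᵥ x) := by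
    rw [hD']
    beta_reduce
    rw [A2, h.RV_J q, R2, Matrix.mulVec_smul, l8, o1, o3, o6, o8, l5]
    module
  have e := hder x (J 1 *ᵥ x) x (J 0 *ᵥ x) x (J 2 *ᵥ x) hvx (hh 1) hvx (hh 0) hvx (hh 2)
  have e' : Der A D' x (J 0 *ᵥ x) x (J 2 *ᵥ x) = 0 := by
    rw [hD', Der_add (fun z => Am J A x (J 1 *ᵥ x) z) (fun z => J 1 *ᵥ z), h.der_J q, e]
    ring
  unfold Der at e'
  have z1 : ∀ b c d : ι → ℝ, T4 A 0 b c d = 0 := by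
    intro b c d
    have := T4_smul1 (A := A) 0 0 b c d
    simpa using this
  have z3 : ∀ a b d : ι → ℝ, T4 A a b 0 d = 0 := by
    intro a b d
    have := T4_smul3 (A := A) 0 a b 0 d
    simpa using this
  rw [D0', D1', D3', T4_smul2, T4_smul4, z1, z3, kf, f1', o3, o3] at e'
  have e2 : (a + 2) * (l - b) = 0 := by linarith
  rcases mul_eq_zero.1 e2 with h1 | h1
  · linarith
  · exfalso; linarith

end

end Pool.Agent.L5helper93.Sas
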