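import Mathlib
import Pool.Agent.L5helper93.Sas.Extremal

/-!
# Splitting off the curvature tensor of the sphere
-/

namespace Pool.Agent.L5helper93.Sas

open Finset Matrix Pool.Agent.L5helper93.Ein

set_option linter.unusedSectionVars false
set_option linter.unusedVariables false
set_option linter.unusedSimpArgs false

variable {ι : Type*} [Fintype ι] [DecidableEq ι] {A T : ι → ι → ι → ι → ℝ}
  {J : Fin 3 → Matrix ι ι ℝ} {v : Fin 3 → ι → ℝ}

theorem HKT.trace_B (h : HKT J v A) (q : Quat J v) (x : ι → ℝ) : (Bm A x x).trace = 0 := by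
  have h1 : ∀ u, T4 A x u x u + T4 A x (J 0 *ᵥ u) x (J 0 *ᵥ u) +
      T4 A x (J 1 *ᵥ u) x (J 1 *ᵥ u) + T4 A x (J 2 *ᵥ u) x (J 2 *ᵥ u) = 0 := by
    intro u
    have e := h.S0_J1 q x u
    have m01 : J 0 *ᵥ (J 1 *ᵥ u) = J 2 *ᵥ u + (v 1 ⬝ᵥ u) • v 0 := by
      rw [Matrix.mulVec_mulVec, q.m01, Matrix.add_mulVec, Matrix.vecMulVec_mulVec,
        op_smul_eq_smul]
    unfold S0 at e
    rw [m01, T4_add4, T4_add2, T4_add2, T4_smul4, T4_smul4, T4_smul2, h.v4, h.v4, h.v2] at e
    linarith
  have h2 : Bm A x x - J 0 * Bm A x x * J 0 - J 1 * Bm A x x * J 1 - J 2 * Bm A x x * J 2 = 0 := by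
    have tP := Bm_symm h.curv x
    have tJ : ∀ s, (J s * Bm A x x * J s)ᵀ = J s * Bm A x x * J s := by
      intro s
      rw [Matrix.transpose_mul, Matrix.transpose_mul, tP, q.skew]
      simp [mul_assoc]
    apply sym_zero
    · rw [Matrix.transpose_sub, Matrix.transpose_sub, Matrix.transpose_sub, tJ, tJ, tJ, tP]
    · intro u
      have e : ∀ s, u ⬝ᵥ ((J s * Bm A x x * J s) *ᵥ u) = - T4 A x (J s *ᵥ u) x (J s *ᵥ u) := by
        intro s
        unfold T4
        rw [q.skew_dot, neg_neg]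
        simp only [Matrix.mulVec_mulVec, mul_assoc]
      rw [Matrix.sub_mulVec, Matrix.sub_mulVec, Matrix.sub_mulVec, dotProduct_sub, dotProduct_sub,
        dotProduct_sub, e, e, e]
      have := h1 u
      have e0 : T4 A x u x u = u ⬝ᵥ (Bm A x x *ᵥ u) := rfl
      rw [e0] at this
      linarith
  have h3 : ∀ s, (J s * Bm A x x * J s).trace = - (Bm A x x).trace := by
    intro s
    rw [mul_assoc, Matrix.trace_mul_comm, h.PJJ q, Matrix.trace_neg]
  have h4 := congrArg Matrix.trace h2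
  rw [Matrix.trace_sub, Matrix.trace_sub, Matrix.trace_sub, h3, h3, h3, Matrix.trace_zero] at h4
  linarith

/-- The Ricci tensor vanishes. -/
theorem HKT.ric (h : HKT J v A) (q : Quat J v) (a b : ι) : ∑ i, A a i b i = 0 := by
  have h1 : ∀ x y : ι → ℝ, (Bm A x y).trace = 0 := by
    intro x y
    have e := h.trace_B q (x + y)
    rw [Bm_add_left, Bm_add_right, Bm_add_right, Matrix.trace_add, Matrix.trace_add,
      Matrix.trace_add, h.trace_B q, h.trace_B q] at e
    have e2 : (Bm A y x).trace = (Bm A x y).trace := by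
      rw [← Bm_transpose h.curv, Matrix.trace_transpose]
    linarith
  have h2 := h1 (Pi.single a 1) (Pi.single b 1)
  rw [Matrix.trace] at h2
  rw [← h2]
  refine Finset.sum_congr rfl fun i _ => ?_
  simp only [Matrix.diag_apply, Bm, Matrix.of_apply]
  rw [Finset.sum_eq_single a, Finset.sum_eq_single b]
  · simp
  all_goals first | (intro c _ hc; simp [hc]) | simp

/-- The curvature tensor of the unit sphere. -/
def cst (a b c d : ι) : ℝ := dl a c * dl b d - dl a d * dl b c

theorem shift (hT : IsCurv T) (hric : ∀ a b, ∑ i, T a i b i = 0) (hA : IsCurv A)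
    (hAT : ∀ a b c d, A a b c d = T a b c d + cst a b c d) :
    2 * ((Fintype.card ι : ℝ) - 1) * nS A - 8 * X3 A + 4 * Y3 A =
      2 * ((Fintype.card ι : ℝ) - 1) * nS T - cub T ∧
    nS A = nS T + 2 * (Fintype.card ι : ℝ) * ((Fintype.card ι : ℝ) - 1) := by
  obtain ⟨u, hu⟩ : ∃ u : ι × ι → ℝ, u = fun p => if p.1 = p.2 then 1 else 0 := ⟨_, rfl⟩
  obtain ⟨U, hU⟩ : ∃ U : Matrix (ι × ι) (ι × ι) ℝ, U = vecMulVec u u := ⟨_, rfl⟩
  have hPA : Pm A = Pm T + (U - Tm) := by
    ext ⟨a, b⟩ ⟨c, d⟩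
    simp only [Pm, Matrix.of_apply, Matrix.add_apply, Matrix.sub_apply, hU, hu,
      Matrix.vecMulVec_apply, Tm, hAT, cst, dl, Prod.swap_prod_mk, Prod.mk.injEq]
    by_cases h1 : a = b <;> by_cases h2 : c = d <;> by_cases h3 : a = d <;> by_cases h4 : c = b <;>
      simp [h1, h2, h3, h4, eq_comm]
    all_goals first | (intro h5; simp_all) | simp_all
  have hPu : Pm T *ᵥ u = 0 := by
    ext ⟨a, b⟩
    simp only [mulVec, dotProduct, Pi.zero_apply]
    rw [Fintype.sum_prod_type]
    have e : ∀ c, ∑ d, Pm T (a, b) (c, d) * u (c, d) = T a c b c := by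
      intro c
      rw [Finset.sum_eq_single c]
      · simp [hu, Pm]
      · intro d _ hd
        simp [hu, Ne.symm hd]
      · simp
    simp only [e]
    exact hric a b
  have hPs : (Pm T)ᵀ = Pm T := by
    ext p q
    rw [Matrix.transpose_apply]
    exact (P_symm hT p q).symm
  have hPU : Pm T * U = 0 := by
    rw [hU, Matrix.mul_vecMulVec, hPu, Matrix.zero_vecMulVec]
  have tU : Uᵀ = U := by rw [hU, Matrix.transpose_vecMulVec]
  have hUP : U * Pm T = 0 := by
    have := congrArg Matrix.transpose hPU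
    rwa [Matrix.transpose_mul, tU, hPs, Matrix.transpose_zero] at this
  have huu : u ⬝ᵥ u = (Fintype.card ι : ℝ) := by
    rw [hu]
    simp only [dotProduct]
    rw [Fintype.sum_prod_type]
    simp
  have hUU : U * U = (Fintype.card ι : ℝ) • U := by
    rw [hU, Matrix.vecMulVec_mul_vecMulVec, huu]
    ext p q
    simp [Matrix.vecMulVec_apply]
    ring
  have hUT : U * Tm = U := by
    ext p q
    rw [mul_T, hU, Matrix.vecMulVec_apply, Matrix.vecMulVec_apply, hu]
    simp [eq_comm]
  have hTU : Tm * U = U := by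
    ext p q
    rw [T_mul, hU, Matrix.vecMulVec_apply, Matrix.vecMulVec_apply, hu]
    simp [eq_comm]
  have hTT := T_sq (ι := ι)
  have hPT := P_comm hT
  have trU : U.trace = (Fintype.card ι : ℝ) := by
    rw [hU, Matrix.trace_vecMulVec, huu]
  have trT : (Tm : Matrix (ι × ι) (ι × ι) ℝ).trace = (Fintype.card ι : ℝ) := by
    rw [Matrix.trace, Fintype.sum_prod_type]
    have e : ∀ a b : ι, (Tm : Matrix (ι × ι) (ι × ι) ℝ).diag (a, b) =
        if a = b then 1 else 0 := by
      intro a b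
      simp only [Matrix.diag_apply, Tm, Matrix.of_apply, Prod.swap_prod_mk, Prod.mk.injEq]
      by_cases h : a = b
      · simp [h]
      · simp [h]
    simp only [e]
    simp
  have tr1 : (1 : Matrix (ι × ι) (ι × ι) ℝ).trace = (Fintype.card ι : ℝ) ^ 2 := by
    rw [Matrix.trace_one, Fintype.card_prod]
    push_cast
    ring
  have trP : (Pm T).trace = 0 := by
    rw [Matrix.trace, Fintype.sum_prod_type]
    refine Finset.sum_eq_zero fun a _ => Finset.sum_eq_zero fun b _ => ?_
    simp only [Matrix.diag_apply, Pm, Matrix.of_apply]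
    have := hT.a1 a a b b
    linarith
  have trPT : (Pm T * Tm).trace = 0 := by
    rw [Matrix.trace, Fintype.sum_prod_type]
    have e : ∀ a, ∑ b, (Pm T * Tm : Matrix (ι × ι) (ι × ι) ℝ).diag (a, b) = 0 := by
      intro a
      have e1 : ∀ b, (Pm T * Tm : Matrix (ι × ι) (ι × ι) ℝ).diag (a, b) = - T a b a b := by
        intro b
        rw [Matrix.diag_apply, mul_T]
        simp only [Pm, Matrix.of_apply, Prod.swap_prod_mk]
        exact hT.a2 a b b a
      simp only [e1, Finset.sum_neg_distrib, hric, neg_zero]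
    simp only [e, Finset.sum_const_zero]
  have n1 := tr_P2 hT
  have n2 := tr_P2T hT
  have n3 := tr_P2 hA
  have x1 : X3 T = (Pm T * Pm T * Pm T).trace := rfl
  have y1 : Y3 T = (Pm T * Pm T * Pm T * Tm).trace := rfl
  have x2 : X3 A = (Pm A * Pm A * Pm A).trace := rfl
  have y2 : Y3 A = (Pm A * Pm A * Pm A * Tm).trace := rfl
  generalize Pm T = P at *
  generalize (Tm : Matrix (ι × ι) (ι × ι) ℝ) = F at *
  generalize (Fintype.card ι : ℝ) = N at *
  have s2 : Pm A * Pm A = P * P - (2 : ℝ) • (P * F) + (N - 2) • U + 1 := by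
    rw [hPA]
    simp only [add_mul, mul_add, sub_mul, mul_sub, hPU, hUP, hUU, hUT, hTU, hTT, ← hPT]
    module
  have s3 : Pm A * Pm A * Pm A = P * P * P - (3 : ℝ) • (P * P * F) + (3 : ℝ) • P +
      ((N - 2) * (N - 1) + 1) • U - F := by
    rw [s2, hPA]
    have e1 : P * P * U = 0 := by rw [mul_assoc, hPU, mul_zero]
    have e2 : P * F * P = P * P * F := by rw [mul_assoc, ← hPT, mul_assoc]
    have e3 : P * F * U = 0 := by rw [mul_assoc, hTU, hPU]
    have e4 : P * F * F = P := by rw [mul_assoc, hTT, mul_one]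
    simp only [add_mul, mul_add, sub_mul, mul_sub, smul_mul_assoc, mul_smul_comm, one_mul, hUP,
      hUU, hUT, e1, e2, e3, e4]
    module
  have s4 : Pm A * Pm A * Pm A * F = P * P * P * F - (3 : ℝ) • (P * P) + (3 : ℝ) • (P * F) +
      ((N - 2) * (N - 1) + 1) • U - 1 := by
    rw [s3]
    have e4 : P * P * F * F = P * P := by rw [mul_assoc (P * P), hTT, mul_one]
    simp only [add_mul, sub_mul, smul_mul_assoc, e4, hUT, hTT]
  rw [s2] at n3
  rw [s3] at x2
  rw [s4] at y2
  simp only [Matrix.trace_add, Matrix.trace_sub, Matrix.trace_smul, smul_eq_mul, trP, trPT, trU,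
    trT, tr1, n1, n2, ← x1, ← y1] at n3 x2 y2
  constructor
  · rw [← n3, x2, y2]
    unfold cub
    ring
  · rw [← n3]
    ring

end Pool.Agent.L5helper93.Sas
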