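import Mathlib
import Pool.Agent.L5helper93.Sas.Extremal
import Pool.Agent.L5helper93.Sas.Shift
import Pool.Agent.L5helper93.Geo.Norm

/-!
# The pointwise structure in an orthonormal basis
-/

namespace Pool.Agent.L5helper93.Sas

open Finset Matrix Pool.Agent.L5helper93.Ein Pool.Agent.L5helper93.Geo
open Pool.Agent.Results.MP_b296c2_gt

set_option linter.unusedSectionVars false
set_option linter.unusedVariables false
set_option linter.unusedSimpArgs false

noncomputable section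

variable {V : Type*} [NormedAddCommGroup V] [InnerProductSpace ℝ V] [FiniteDimensional ℝ V]

/-- The pointwise identities of a 3-Sasakian structure; `C a` is the covariant derivative of the
field whose value is `ζ a`. -/
structure PtSas (R : V →ₗ[ℝ] V →ₗ[ℝ] V →ₗ[ℝ] V) (C : Fin 3 → V →ₗ[ℝ] V) (ζ : Fin 3 → V) :
    Prop where
  curv : Pointwise.IsCurvatureTensor R
  skew : ∀ a u w, (inner ℝ (C a u) w : ℝ) = - inner ℝ u (C a w)
  sq : ∀ a u, C a (C a u) = - u + (inner ℝ (ζ a) u : ℝ) • ζ a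
  c01 : ∀ u, C 0 (C 1 u) = - C 2 u + (inner ℝ (ζ 1) u : ℝ) • ζ 0
  c12 : ∀ u, C 1 (C 2 u) = - C 0 u + (inner ℝ (ζ 2) u : ℝ) • ζ 1
  c20 : ∀ u, C 2 (C 0 u) = - C 1 u + (inner ℝ (ζ 0) u : ℝ) • ζ 2
  on : ∀ a b, (inner ℝ (ζ a) (ζ b) : ℝ) = if a = b then 1 else 0
  k1 : ∀ a u w, R u w (ζ a) = (inner ℝ (ζ a) w : ℝ) • u - (inner ℝ (ζ a) u : ℝ) • w
  k2 : ∀ a u w z, R u w (C a z) - C a (R u w z) = (inner ℝ (C a u) z : ℝ) • w -
    (inner ℝ (C a w) z : ℝ) • u - (inner ℝ w z : ℝ) • C a u + (inner ℝ u z : ℝ) • C a w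

/-- The matrices of the structure. -/
def Jm {N : ℕ} (C : Fin 3 → V →ₗ[ℝ] V) (w : Fin N → V) (a : Fin 3) :
    Matrix (Fin N) (Fin N) ℝ := Matrix.of fun i j => - inner ℝ (w i) (C a (w j))

/-- The coordinates of the vertical vectors. -/
def vv {N : ℕ} (ζ : Fin 3 → V) (w : Fin N → V) (a : Fin 3) : Fin N → ℝ :=
  fun i => inner ℝ (ζ a) (w i)

/-- The difference from the curvature tensor of the unit sphere. -/
def TO (R : V →ₗ[ℝ] V →ₗ[ℝ] V →ₗ[ℝ] V) (a b c : V) : V :=
  R a b c - ((inner ℝ b c : ℝ) • a - (inner ℝ a c : ℝ) • b)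

/-- Its components. -/
def Tt {N : ℕ} (R : V →ₗ[ℝ] V →ₗ[ℝ] V →ₗ[ℝ] V) (w : Fin N → V) (k l m p : Fin N) : ℝ :=
  inner ℝ (TO R (w k) (w l) (w p)) (w m)

variable {R : V →ₗ[ℝ] V →ₗ[ℝ] V →ₗ[ℝ] V} {C : Fin 3 → V →ₗ[ℝ] V} {ζ : Fin 3 → V}

theorem TO_add1 (a a' b c : V) : TO R (a + a') b c = TO R a b c + TO R a' b c := by
  unfold TO
  simp only [map_add, LinearMap.add_apply, inner_add_left, smul_add, add_smul]
  abel

theorem TO_add2 (a b b' c : V) : TO R a (b + b') c = TO R a b c + TO R a b' c := by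
  unfold TO
  simp only [map_add, LinearMap.add_apply, inner_add_left, smul_add, add_smul]
  abel

theorem TO_add3 (a b c c' : V) : TO R a b (c + c') = TO R a b c + TO R a b c' := by
  unfold TO
  simp only [map_add, LinearMap.add_apply, inner_add_right, smul_add, add_smul]
  abel

theorem TO_smul1 (r : ℝ) (a b c : V) : TO R (r • a) b c = r • TO R a b c := by
  unfold TO
  simp only [map_smul, LinearMap.smul_apply, real_inner_smul_left, smul_sub, smul_smul]
  rw [mul_comm r (inner ℝ b c)]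

theorem TO_smul2 (r : ℝ) (a b c : V) : TO R a (r • b) c = r • TO R a b c := by
  unfold TO
  simp only [map_smul, LinearMap.smul_apply, real_inner_smul_left, smul_sub, smul_smul]
  rw [mul_comm r (inner ℝ a c)]

theorem TO_smul3 (r : ℝ) (a b c : V) : TO R a b (r • c) = r • TO R a b c := by
  unfold TO
  simp only [map_smul, LinearMap.smul_apply, real_inner_smul_right, smul_sub, smul_smul]

theorem TO_sum1 {κ : Type*} (s : Finset κ) (f : κ → V) (b c : V) :
    TO R (∑ i ∈ s, f i) b c = ∑ i ∈ s, TO R (f i) b c := by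
  classical
  induction s using Finset.induction_on with
  | empty => unfold TO; simp
  | insert a s ha ih => rw [sum_insert ha, sum_insert ha, TO_add1, ih]

theorem TO_sum2 {κ : Type*} (s : Finset κ) (f : κ → V) (a c : V) :
    TO R a (∑ i ∈ s, f i) c = ∑ i ∈ s, TO R a (f i) c := by
  classical
  induction s using Finset.induction_on with
  | empty => unfold TO; simp
  | insert b s ha ih => rw [sum_insert ha, sum_insert ha, TO_add2, ih]

theorem TO_sum3 {κ : Type*} (s : Finset κ) (f : κ → V) (a b : V) :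
    TO R a b (∑ i ∈ s, f i) = ∑ i ∈ s, TO R a b (f i) := by
  classical
  induction s using Finset.induction_on with
  | empty => unfold TO; simp
  | insert c s ha ih => rw [sum_insert ha, sum_insert ha, TO_add3, ih]

theorem TO_anti (h : Pointwise.IsCurvatureTensor R) (a b c : V) : TO R a b c = - TO R b a c := by
  unfold TO
  rw [h.antisymm a b c]
  abel

theorem TO_skew (h : Pointwise.IsCurvatureTensor R) (a b c d : V) :
    (inner ℝ (TO R a b c) d : ℝ) = - inner ℝ (TO R a b d) c := by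
  unfold TO
  have h1 := h.skew a b c d
  have h2 : (inner ℝ c (R a b d) : ℝ) = inner ℝ (R a b d) c := real_inner_comm _ _
  simp only [inner_sub_left, real_inner_smul_left]
  linarith

theorem TO_pair (h : Pointwise.IsCurvatureTensor R) (a b c d : V) :
    (inner ℝ (TO R a b c) d : ℝ) = inner ℝ (TO R c d a) b := by
  unfold TO
  have := h.pair a b c d
  simp only [inner_sub_left, real_inner_smul_left]
  rw [this, real_inner_comm c b, real_inner_comm c a, real_inner_comm d a, real_inner_comm d b]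
  ring

section

variable (s : PtSas R C ζ)

include s

theorem PtSas.TO_kill (a : Fin 3) (u w : V) : TO R u w (ζ a) = 0 := by
  unfold TO
  rw [s.k1, real_inner_comm (ζ a) w, real_inner_comm (ζ a) u, sub_self]

theorem PtSas.TO_kill1 (a : Fin 3) (u w : V) : TO R (ζ a) u w = 0 := by
  apply ext_inner_right ℝ
  intro z
  rw [TO_pair s.curv, s.TO_kill, inner_zero_left, inner_zero_left]

theorem PtSas.TO_comm (a : Fin 3) (u w z : V) : TO R u w (C a z) = C a (TO R u w z) := by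
  have h := s.k2 a u w z
  have h1 := s.skew a u z
  have h2 := s.skew a w z
  unfold TO
  rw [sub_eq_iff_eq_add] at h
  rw [h, h1, h2]
  simp only [map_sub, map_smul]
  module

end

variable {N : ℕ} {w : Fin N → V}

theorem TO_curv (h : Pointwise.IsCurvatureTensor R) (w : Fin N → V) : IsCurv (Tt R w) where
  a1 a b c d := by
    unfold Tt
    rw [TO_anti h, inner_neg_left]
  a2 a b c d := by
    unfold Tt
    rw [TO_skew h]
  bi a b c d := by
    unfold Tt TO
    have h1 := h.bianchi (w a) (w b) (w d)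
    have h2 := h.pair
    have b1 := TO_pair h
    -- use pair symmetry and the first Bianchi identity
    have key : ∀ x y z t : V, (inner ℝ (TO R x y t) z : ℝ) + inner ℝ (TO R y z t) x +
        inner ℝ (TO R z x t) y = 0 := by
      intro x y z t
      have e1 : (inner ℝ (TO R x y t) z : ℝ) = - inner ℝ (TO R x y z) t := TO_skew h _ _ _ _
      have e2 : (inner ℝ (TO R y z t) x : ℝ) = - inner ℝ (TO R y z x) t := TO_skew h _ _ _ _
      have e3 : (inner ℝ (TO R z x t) y : ℝ) = - inner ℝ (TO R z x y) t := TO_skew h _ _ _ _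
      have e4 : TO R x y z + TO R y z x + TO R z x y = 0 := by
        have := h.bianchi x y z
        unfold TO
        rw [real_inner_comm z y, real_inner_comm x z, real_inner_comm y x]
        have e5 : R x y z + R y z x + R z x y = 0 := this
        calc _ = (R x y z + R y z x + R z x y) := by module
          _ = 0 := e5
      have e5 : (inner ℝ (TO R x y z) t : ℝ) + inner ℝ (TO R y z x) t + inner ℝ (TO R z x y) t
          = 0 := by
        rw [← inner_add_left, ← inner_add_left, e4, inner_zero_left]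
      linarith
    have := key (w a) (w b) (w c) (w d)
    unfold TO at this
    linarith

theorem Tt_cst (hw : ∀ i j, (inner ℝ (w i) (w j) : ℝ) = if i = j then 1 else 0)
    (k l m p : Fin N) :
    (inner ℝ (R (w k) (w l) (w p)) (w m) : ℝ) = Tt R w k l m p + cst k l m p := by
  unfold Tt TO cst dl
  simp only [inner_sub_left, real_inner_smul_left, hw]
  ring

section

variable (hN : Module.finrank ℝ V = N)
  (hw : ∀ i j, (inner ℝ (w i) (w j) : ℝ) = if i = j then 1 else 0)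

include hN hw

theorem parse (u v : V) : (inner ℝ u v : ℝ) = ∑ r, inner ℝ u (w r) * inner ℝ (w r) v := by
  have h1 := on_expand hN w hw u
  conv_lhs => rw [h1]
  rw [sum_inner]
  refine Finset.sum_congr rfl fun r _ => ?_
  rw [real_inner_smul_left]

theorem PtSas.quat (s : PtSas R C ζ) : Quat (Jm C w) (vv ζ w) := by
  have mul : ∀ a b i j, (Jm C w a * Jm C w b) i j = inner ℝ (w i) (C a (C b (w j))) := by
    intro a b i j
    rw [Matrix.mul_apply]
    simp only [Jm, Matrix.of_apply]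
    have h1 : ∀ r, - (inner ℝ (w i) (C a (w r)) : ℝ) * - inner ℝ (w r) (C b (w j)) =
        - (inner ℝ (C a (w i)) (w r) * inner ℝ (w r) (C b (w j))) := by
      intro r
      rw [s.skew a (w i) (w r)]
      ring
    simp only [h1, Finset.sum_neg_distrib]
    rw [← parse hN hw, s.skew]
    ring
  refine ⟨?_, ?_, ?_, ?_, ?_, ?_⟩
  · intro a
    ext i j
    simp only [Jm, Matrix.transpose_apply, Matrix.of_apply, Matrix.neg_apply]
    rw [real_inner_comm, s.skew]
  · intro a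
    ext i j
    rw [mul, s.sq]
    simp only [Matrix.add_apply, Matrix.neg_apply, Matrix.one_apply, vecMulVec_apply, vv,
      inner_add_right, inner_neg_right, real_inner_smul_right, hw]
    rw [real_inner_comm (ζ a) (w i)]
    ring
  · ext i j
    rw [mul, s.c01]
    simp only [Matrix.add_apply, Jm, Matrix.of_apply, vecMulVec_apply, vv,
      inner_add_right, inner_neg_right, real_inner_smul_right]
    rw [real_inner_comm (ζ 0) (w i)]
    ring
  · ext i j
    rw [mul, s.c12]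
    simp only [Matrix.add_apply, Jm, Matrix.of_apply, vecMulVec_apply, vv,
      inner_add_right, inner_neg_right, real_inner_smul_right]
    rw [real_inner_comm (ζ 1) (w i)]
    ring
  · ext i j
    rw [mul, s.c20]
    simp only [Matrix.add_apply, Jm, Matrix.of_apply, vecMulVec_apply, vv,
      inner_add_right, inner_neg_right, real_inner_smul_right]
    rw [real_inner_comm (ζ 2) (w i)]
    ring
  · intro a b
    rw [← s.on a b, parse hN hw]
    unfold vv dotProduct
    exact Finset.sum_congr rfl fun r _ => by rw [real_inner_comm (ζ b) (w r)]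

theorem PtSas.hkt (s : PtSas R C ζ) : HKT (Jm C w) (vv ζ w) (Tt R w) := by
  refine ⟨TO_curv s.curv w, ?_, ?_⟩
  · intro a k l
    ext i j
    rw [Matrix.mul_apply, Matrix.mul_apply]
    simp only [Jm, Mt, Matrix.of_apply, Tt]
    have h1 : ∑ r, - (inner ℝ (w i) (C a (w r)) : ℝ) * inner ℝ (TO R (w k) (w l) (w j)) (w r) =
        inner ℝ (C a (w i)) (TO R (w k) (w l) (w j)) := by
      rw [parse hN hw]
      refine Finset.sum_congr rfl fun r _ => ?_
      rw [s.skew a (w i) (w r), real_inner_comm (w r)]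
    have h2 : ∑ r, (inner ℝ (TO R (w k) (w l) (w r)) (w i) : ℝ) * - inner ℝ (w r) (C a (w j)) =
        inner ℝ (TO R (w k) (w l) (w i)) (C a (w j)) := by
      rw [parse hN hw]
      refine Finset.sum_congr rfl fun r _ => ?_
      rw [TO_skew s.curv (w k) (w l) (w r) (w i)]
      ring
    rw [h1, h2, TO_skew s.curv, s.TO_comm, s.skew, real_inner_comm]
  · intro a k l
    ext i
    rw [Matrix.mulVec]
    unfold dotProduct
    simp only [Mt, Matrix.of_apply, Tt, vv, Pi.zero_apply]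
    have h2 : ∑ r, (inner ℝ (TO R (w k) (w l) (w r)) (w i) : ℝ) * inner ℝ (ζ a) (w r) =
        - inner ℝ (TO R (w k) (w l) (w i)) (ζ a) := by
      rw [parse hN hw, ← Finset.sum_neg_distrib]
      refine Finset.sum_congr rfl fun r _ => ?_
      rw [TO_skew s.curv (w k) (w l) (w r) (w i), real_inner_comm (ζ a)]
      ring
    rw [h2, ← TO_skew s.curv, s.TO_kill, inner_zero_left]

end

theorem T4_geo (a b c d : Fin N → ℝ) : T4 (Tt R w) a b c d =
    inner ℝ (TO R (∑ i, a i • w i) (∑ i, b i • w i) (∑ i, d i • w i)) (∑ i, c i • w i) := by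
  rw [T4_eq]
  rw [TO_sum1]
  simp only [TO_sum2, TO_sum3, TO_smul1, TO_smul2, TO_smul3, sum_inner, inner_sum,
    real_inner_smul_left, real_inner_smul_right, Tt]
  have perm : ∀ f : Fin N → Fin N → Fin N → Fin N → ℝ,
      ∑ k, ∑ i, ∑ l, ∑ q, f k i l q = ∑ l, ∑ k, ∑ q, ∑ i, f k i l q := by
    intro f
    calc ∑ k, ∑ i, ∑ l, ∑ q, f k i l q = ∑ k, ∑ l, ∑ i, ∑ q, f k i l q :=
          Finset.sum_congr rfl fun k _ => Finset.sum_comm
      _ = ∑ l, ∑ k, ∑ i, ∑ q, f k i l q := Finset.sum_comm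
      _ = _ := Finset.sum_congr rfl fun l _ => Finset.sum_congr rfl fun k _ => Finset.sum_comm
  rw [perm]
  refine Finset.sum_congr rfl fun l _ => Finset.sum_congr rfl fun k _ =>
    Finset.sum_congr rfl fun q _ => ?_
  rw [Finset.mul_sum, Finset.mul_sum]
  refine Finset.sum_congr rfl fun i _ => ?_
  ring

section

variable (s : PtSas R C ζ) (hN : Module.finrank ℝ V = N)
  (hw : ∀ i j, (inner ℝ (w i) (w j) : ℝ) = if i = j then 1 else 0)

theorem inner_lin (u v : Fin N → ℝ)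
    (hw : ∀ i j, (inner ℝ (w i) (w j) : ℝ) = if i = j then 1 else 0) :
    (inner ℝ (∑ i, u i • w i) (∑ i, v i • w i) : ℝ) = u ⬝ᵥ v := by
  simp only [sum_inner, inner_sum, real_inner_smul_left, real_inner_smul_right, hw]
  unfold dotProduct
  simp only [mul_ite, mul_one, mul_zero, Finset.sum_ite_eq, Finset.sum_ite_eq', Finset.mem_univ,
    if_true]
  exact Finset.sum_congr rfl fun i _ => mul_comm _ _

include s

/-- The vertical part of a vector. -/
theorem PtSas.C0 : C 0 (ζ 0) = 0 := by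
  have h1 : ∀ u, (inner ℝ (C 0 (ζ 0)) u : ℝ) = - inner ℝ (ζ 0) (C 0 u) := fun u => s.skew 0 _ _
  have h2 := s.sq 0 (ζ 0)
  rw [s.on 0 0, if_pos rfl, one_smul, neg_add_cancel] at h2
  have h3 : (inner ℝ (C 0 (ζ 0)) (C 0 (ζ 0)) : ℝ) = 0 := by
    rw [s.skew, h2, inner_zero_right, neg_zero]
  exact inner_self_eq_zero.1 h3

theorem PtSas.C1 : C 1 (ζ 1) = 0 := by
  have h2 := s.sq 1 (ζ 1)
  rw [s.on 1 1, if_pos rfl, one_smul, neg_add_cancel] at h2
  have h3 : (inner ℝ (C 1 (ζ 1)) (C 1 (ζ 1)) : ℝ) = 0 := by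
    rw [s.skew, h2, inner_zero_right, neg_zero]
  exact inner_self_eq_zero.1 h3

theorem PtSas.C2 : C 2 (ζ 2) = 0 := by
  have h2 := s.sq 2 (ζ 2)
  rw [s.on 2 2, if_pos rfl, one_smul, neg_add_cancel] at h2
  have h3 : (inner ℝ (C 2 (ζ 2)) (C 2 (ζ 2)) : ℝ) = 0 := by
    rw [s.skew, h2, inner_zero_right, neg_zero]
  exact inner_self_eq_zero.1 h3

theorem PtSas.C01 : C 0 (ζ 1) = - ζ 2 := by
  have h1 := s.c20 (ζ 2)
  have h2 := s.c01 (ζ 1)
  rw [s.C1, map_zero, s.on 1 1, if_pos rfl, one_smul] at h2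
  have h3 : C 2 (ζ 1) = ζ 0 := by
    have : (0 : V) = - C 2 (ζ 1) + ζ 0 := h2
    rw [eq_comm, neg_add_eq_zero] at this
    exact this
  have h4 := s.c20 (ζ 0)
  rw [s.C0, map_zero, s.on 0 0, if_pos rfl, one_smul] at h4
  have h5 : C 1 (ζ 0) = ζ 2 := by
    have : (0 : V) = - C 1 (ζ 0) + ζ 2 := h4
    rw [eq_comm, neg_add_eq_zero] at this
    exact this
  have h6 := s.c01 (ζ 0)
  rw [h5, s.on 1 0] at h6
  have h7 : C 0 (ζ 2) = - C 2 (ζ 0) := by
    rw [h6]; simp
  have h8 := s.c12 (ζ 2)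
  rw [s.C2, map_zero, s.on 2 2, if_pos rfl, one_smul] at h8
  have h9 : C 0 (ζ 2) = ζ 1 := by
    have : (0 : V) = - C 0 (ζ 2) + ζ 1 := h8
    rw [eq_comm, neg_add_eq_zero] at this
    exact this
  have h10 := s.sq 0 (ζ 2)
  rw [h9, s.on 0 2] at h10
  rw [h10]
  simp

theorem PtSas.C02 : C 0 (ζ 2) = ζ 1 := by
  have h8 := s.c12 (ζ 2)
  rw [s.C2, map_zero, s.on 2 2, if_pos rfl, one_smul] at h8
  have : (0 : V) = - C 0 (ζ 2) + ζ 1 := h8
  rw [eq_comm, neg_add_eq_zero] at this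
  exact this

/-- The value of the curvature difference on `(U, C U)` only depends on the horizontal part. -/
theorem PtSas.F_hor (H : V) (t0 t1 t2 : ℝ) :
    let U := H + t0 • ζ 0 + t1 • ζ 1 + t2 • ζ 2
    (inner ℝ (TO R U (C 0 U) (C 0 U)) U : ℝ) = inner ℝ (TO R H (C 0 H) (C 0 H)) H := by
  intro U
  have hCU : C 0 U = C 0 H + (-t1) • ζ 2 + t2 • ζ 1 := by
    simp only [U, map_add, map_smul, s.C0, s.C01, s.C02, smul_zero, add_zero, smul_neg, neg_smul]
  have k1 : ∀ a u w, TO R (ζ a) u w = 0 := fun a u w => s.TO_kill1 a u w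
  have k2 : ∀ a u w, TO R u (ζ a) w = 0 := fun a u w => by
    rw [TO_anti s.curv, s.TO_kill1, neg_zero]
  have k3 : ∀ a u w, TO R u w (ζ a) = 0 := fun a u w => s.TO_kill a u w
  have k4 : ∀ a u w z, (inner ℝ (TO R u w z) (ζ a) : ℝ) = 0 := fun a u w z => by
    rw [TO_skew s.curv, k3, inner_zero_left, neg_zero]
  rw [hCU]
  simp only [U, TO_add1, TO_add2, TO_add3, TO_smul1, TO_smul2, TO_smul3, k1, k2, k3, smul_zero,
    add_zero, inner_add_right, real_inner_smul_right, k4, mul_zero]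

theorem PtSas.CH_norm {H : V} (h0 : (inner ℝ (ζ 0) H : ℝ) = 0) :
    (inner ℝ (C 0 H) (C 0 H) : ℝ) = inner ℝ H H := by
  rw [s.skew, s.sq, h0, zero_smul, add_zero, inner_neg_right, neg_neg]

theorem PtSas.CH_orth (H : V) : (inner ℝ H (C 0 H) : ℝ) = 0 := by
  have h1 := s.skew 0 H H
  rw [real_inner_comm] at h1
  linarith

/-- The bound in homogeneous form. -/
theorem PtSas.hom {l : ℝ} (hl : ∀ H : V, (inner ℝ H H : ℝ) = 1 →
      (∀ a, (inner ℝ (ζ a) H : ℝ) = 0) → (inner ℝ (R H (C 0 H) (C 0 H)) H : ℝ) ≤ 1 + l)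
    (H : V) (hH : ∀ a, (inner ℝ (ζ a) H : ℝ) = 0) :
    (inner ℝ (TO R H (C 0 H) (C 0 H)) H : ℝ) ≤ l * (inner ℝ H H) ^ 2 := by
  have e1 : (inner ℝ (TO R H (C 0 H) (C 0 H)) H : ℝ) =
      inner ℝ (R H (C 0 H) (C 0 H)) H - inner ℝ H H ^ 2 := by
    unfold TO
    simp only [inner_sub_left, real_inner_smul_left]
    rw [s.CH_norm (hH 0), s.CH_orth]
    ring
  rw [e1]
  by_cases h0 : H = 0
  · rw [h0]; simp
  · have hpos : 0 < (inner ℝ H H : ℝ) := real_inner_self_pos.2 h0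
    obtain ⟨r, hr, hrr⟩ : ∃ r : ℝ, 0 < r ∧ r * r = inner ℝ H H :=
      ⟨Real.sqrt (inner ℝ H H), Real.sqrt_pos.2 hpos, Real.mul_self_sqrt hpos.le⟩
    have h1 := hl (r⁻¹ • H) (by
      rw [real_inner_smul_left, real_inner_smul_right, ← hrr]
      field_simp) (by
      intro a
      rw [real_inner_smul_right, hH, mul_zero])
    simp only [map_smul, LinearMap.smul_apply, real_inner_smul_left, real_inner_smul_right] at h1
    have h2 : (inner ℝ (R H (C 0 H) (C 0 H)) H : ℝ) ≤ (1 + l) * (r ^ 4) := by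
      have h3 : r⁻¹ * (r⁻¹ * (r⁻¹ * (r⁻¹ * (inner ℝ (R H (C 0 H) (C 0 H)) H : ℝ)))) =
          (inner ℝ (R H (C 0 H) (C 0 H)) H : ℝ) / r ^ 4 := by
        field_simp
      rw [h3, div_le_iff₀ (by positivity)] at h1
      exact h1
    rw [← hrr]
    nlinarith

theorem PtSas.form_hor {H : V} (h0 : (inner ℝ (ζ 0) H : ℝ) = 0) :
    (inner ℝ (TO R H (C 0 H) (C 0 H)) H : ℝ) =
      inner ℝ (R H (C 0 H) (C 0 H)) H - inner ℝ H H ^ 2 := by
  unfold TO
  simp only [inner_sub_left, real_inner_smul_left]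
  rw [s.CH_norm h0, s.CH_orth]
  ring

include hN hw

/-- Reduction to the horizontal part. -/
theorem PtSas.Fred (u : Fin N → ℝ) : ∃ H : V, (∀ a, (inner ℝ (ζ a) H : ℝ) = 0) ∧
    (inner ℝ H H : ℝ) ≤ u ⬝ᵥ u ∧
    Fh (Jm C w 0) (Tt R w) u = inner ℝ (TO R H (C 0 H) (C 0 H)) H := by
  obtain ⟨U, hU⟩ : ∃ U : V, U = ∑ i, u i • w i := ⟨_, rfl⟩
  have hJ : ∑ i, (Jm C w 0 *ᵥ u) i • w i = - C 0 U := by
    have h1 := on_expand hN w hw (C 0 U)
    rw [h1, ← Finset.sum_neg_distrib]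
    refine Finset.sum_congr rfl fun i _ => ?_
    rw [← neg_smul]
    congr 1
    rw [hU, map_sum, sum_inner, Matrix.mulVec]
    unfold dotProduct
    rw [← Finset.sum_neg_distrib]
    refine Finset.sum_congr rfl fun j _ => ?_
    simp only [Jm, Matrix.of_apply, map_smul, real_inner_smul_left]
    rw [real_inner_comm (w i)]
    ring
  have hF : Fh (Jm C w 0) (Tt R w) u = inner ℝ (TO R U (C 0 U) (C 0 U)) U := by
    unfold Fh
    rw [T4_geo, hJ, ← hU]
    have h1 : (- C 0 U : V) = (-1 : ℝ) • C 0 U := by simp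
    rw [h1, TO_smul2, TO_smul3, smul_smul]
    norm_num
  have hn : u ⬝ᵥ u = inner ℝ U U := by
    rw [hU, inner_lin u u hw]
  rw [hF, hn]
  obtain ⟨H, hH⟩ : ∃ H : V, H = U - (inner ℝ (ζ 0) U : ℝ) • ζ 0 - (inner ℝ (ζ 1) U : ℝ) • ζ 1 -
    (inner ℝ (ζ 2) U : ℝ) • ζ 2 := ⟨_, rfl⟩
  have hUH : U = H + (inner ℝ (ζ 0) U : ℝ) • ζ 0 + (inner ℝ (ζ 1) U : ℝ) • ζ 1 +
    (inner ℝ (ζ 2) U : ℝ) • ζ 2 := by
    rw [hH]; abel
  have hHz : ∀ a, (inner ℝ (ζ a) H : ℝ) = 0 := by
    intro a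
    rw [hH]
    simp only [inner_sub_right, real_inner_smul_right, s.on]
    fin_cases a <;> simp
  have hUU : (inner ℝ U U : ℝ) = inner ℝ H H + inner ℝ (ζ 0) U ^ 2 + inner ℝ (ζ 1) U ^ 2 +
      inner ℝ (ζ 2) U ^ 2 := by
    have h1 : (inner ℝ H U : ℝ) = inner ℝ H H := by
      conv_lhs => rw [hUH]
      simp only [inner_add_right, real_inner_smul_right]
      rw [real_inner_comm (ζ 0) H, real_inner_comm (ζ 1) H, real_inner_comm (ζ 2) H, hHz, hHz, hHz]
      ring
    conv_lhs => rw [hUH]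
    simp only [inner_add_left, real_inner_smul_left]
    rw [← hUH, h1]
    ring
  have h1 := s.F_hor H (inner ℝ (ζ 0) U) (inner ℝ (ζ 1) U) (inner ℝ (ζ 2) U)
  simp only [← hUH] at h1
  refine ⟨H, hHz, ?_, h1⟩
  rw [hUU]
  nlinarith [sq_nonneg (inner ℝ (ζ 0) U : ℝ), sq_nonneg (inner ℝ (ζ 1) U : ℝ),
    sq_nonneg (inner ℝ (ζ 2) U : ℝ)]

theorem PtSas.Fbound {l : ℝ} (hl0 : 0 ≤ l) (hl : ∀ H : V, (inner ℝ H H : ℝ) = 1 →
      (∀ a, (inner ℝ (ζ a) H : ℝ) = 0) → (inner ℝ (R H (C 0 H) (C 0 H)) H : ℝ) ≤ 1 + l)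
    (u : Fin N → ℝ) : Fh (Jm C w 0) (Tt R w) u ≤ l * (u ⬝ᵥ u) ^ 2 := by
  obtain ⟨H, hHz, h4, h1⟩ := s.Fred hN hw u
  rw [h1]
  have h2 := s.hom hl H hHz
  have h3 : (0 : ℝ) ≤ inner ℝ H H := real_inner_self_nonneg
  have h5 : (inner ℝ H H : ℝ) ^ 2 ≤ (u ⬝ᵥ u) ^ 2 := pow_le_pow_left₀ h3 h4 2
  nlinarith

theorem PtSas.Fstrict {l : ℝ} (hl0 : 0 < l) (hl : ∀ H : V, (inner ℝ H H : ℝ) = 1 →
      (∀ a, (inner ℝ (ζ a) H : ℝ) = 0) → (inner ℝ (R H (C 0 H) (C 0 H)) H : ℝ) < 1 + l)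
    (u : Fin N → ℝ) (hu : u ⬝ᵥ u = 1) : Fh (Jm C w 0) (Tt R w) u < l := by
  obtain ⟨H, hHz, h4, h1⟩ := s.Fred hN hw u
  rw [h1]
  by_cases h0 : H = 0
  · rw [h0]; simpa using hl0
  · have hpos : 0 < (inner ℝ H H : ℝ) := real_inner_self_pos.2 h0
    obtain ⟨r, hr, hrr⟩ : ∃ r : ℝ, 0 < r ∧ r * r = inner ℝ H H :=
      ⟨Real.sqrt (inner ℝ H H), Real.sqrt_pos.2 hpos, Real.mul_self_sqrt hpos.le⟩
    have h2 := hl (r⁻¹ • H) (by
      rw [real_inner_smul_left, real_inner_smul_right, ← hrr]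
      field_simp) (by
      intro a
      rw [real_inner_smul_right, hHz, mul_zero])
    simp only [map_smul, LinearMap.smul_apply, real_inner_smul_left, real_inner_smul_right] at h2
    have h3 : r⁻¹ * (r⁻¹ * (r⁻¹ * (r⁻¹ * (inner ℝ (R H (C 0 H) (C 0 H)) H : ℝ)))) =
        (inner ℝ (R H (C 0 H) (C 0 H)) H : ℝ) / r ^ 4 := by
      field_simp
    rw [h3, div_lt_iff₀ (by positivity)] at h2
    rw [s.form_hor (hHz 0), ← hrr]
    rw [← hrr, hu] at h4
    have h5 : r ^ 4 ≤ 1 := by nlinarith [mul_pos hr hr]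
    nlinarith [pow_pos hr 4]

end

end

end Pool.Agent.L5helper93.Sas
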