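import Mathlib
import Pool.Agent.L5helper93.Sas.Pt

/-!
# Three-Sasakian structures on a manifold
-/

open Bundle Manifold ContDiff VectorField Filter
open scoped Topology

set_option linter.unusedSectionVars false
set_option linter.unusedVariables false
set_option linter.unusedSimpArgs false

noncomputable section

namespace Pool.Agent.L5helper93.Sas

open Pool.Agent.Results.MP_b296c2_gt
open Pool.Agent.Results.MP_b296c2_gt.Riemannian
open Pool.Agent.L5helper93.Ein Pool.Agent.L5helper93.Geo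

variable {E : Type*} [NormedAddCommGroup E] [NormedSpace ℝ E] [FiniteDimensional ℝ E]
  {H : Type*} [TopologicalSpace H] {I : ModelWithCorners ℝ E H}
  {M : Type*} [TopologicalSpace M] [ChartedSpace H M] [IsManifold I ∞ M]
  [RiemannianBundle (fun x : M => TangentSpace I x)]
  [IsContMDiffRiemannianBundle I ∞ E (fun x : M => TangentSpace I x)]
  [T2Space M] [SigmaCompactSpace M] [Nontrivial E]
  {cov : CovariantDerivative I E (TangentSpace I : M → Type _)}

/-- Three-Sasakian structures. -/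
structure S3 (cov : CovariantDerivative I E (TangentSpace I : M → Type _))
    (ξ : Fin 3 → Π x : M, TangentSpace I x) : Prop where
  sm : ∀ a, CMDiff ∞ (T% (ξ a))
  on : ∀ x a b, inner ℝ (ξ a x) (ξ b x) = if a = b then (1 : ℝ) else 0
  killing : ∀ a x (u w : TangentSpace I x), inner ℝ (cov (ξ a) x u) w =
    (- inner ℝ u (cov (ξ a) x w) : ℝ)
  b01 : ∀ x, mlieBracket I (ξ 0) (ξ 1) x = (2 : ℝ) • ξ 2 x
  b12 : ∀ x, mlieBracket I (ξ 1) (ξ 2) x = (2 : ℝ) • ξ 0 x
  b20 : ∀ x, mlieBracket I (ξ 2) (ξ 0) x = (2 : ℝ) • ξ 1 x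
  sasaki : ∀ a ⦃X Y : Π x : M, TangentSpace I x⦄, CMDiff ∞ (T% X) → CMDiff ∞ (T% Y) → ∀ x,
    cov (nabla cov Y (ξ a)) x (X x) - cov (ξ a) x (cov Y x (X x)) =
      (inner ℝ (ξ a x) (Y x) : ℝ) • X x - (inner ℝ (X x) (Y x) : ℝ) • ξ a x

/-- The covariant derivative of a field at a point as a linear map. -/
def CL (cov : CovariantDerivative I E (TangentSpace I : M → Type _))
    (ξ : Π x : M, TangentSpace I x) (x : M) : TangentSpace I x →ₗ[ℝ] TangentSpace I x :=
  { toFun := fun v => cov ξ x v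
    map_add' := fun v w => map_add _ v w
    map_smul' := fun c v => map_smul _ c v }

variable (h : IsLeviCivita cov) {R : CurvField I M} (hR : IsRiemannTensor cov R)
  {ξ : Fin 3 → Π x : M, TangentSpace I x} (s : S3 cov ξ)

include h s

theorem S3.self (a : Fin 3) (x : M) : cov (ξ a) x (ξ a x) = 0 := by
  apply ext_inner_right ℝ
  intro w
  rw [s.killing, inner_zero_left]
  have h1 := dinner h.metric (s.sm a) (s.sm a) x w
  have h2 : (fun y => inner ℝ (ξ a y) (ξ a y)) = fun _ => (1 : ℝ) := by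
    ext y
    rw [s.on y a a, if_pos rfl]
  rw [h2, mvfderiv_const, real_inner_comm (ξ a x) (cov (ξ a) x w)] at h1
  have h3 : (0 : ℝ) = inner ℝ (ξ a x) (cov (ξ a) x w) + inner ℝ (ξ a x) (cov (ξ a) x w) := h1
  linarith

theorem S3.sq (a : Fin 3) (x : M) (u : TangentSpace I x) :
    cov (ξ a) x (cov (ξ a) x u) = - u + (inner ℝ (ξ a x) u : ℝ) • ξ a x := by
  obtain ⟨U, hU, rfl⟩ := exists_smooth_field (I := I) x u
  have h1 := s.sasaki a hU (s.sm a) x
  have h2 : nabla cov (ξ a) (ξ a) = fun y => (0 : TangentSpace I y) := by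
    ext1 y
    exact s.self h a y
  have h0 : cov (fun y => (0 : TangentSpace I y)) x (U x) = 0 := by
    have h := cov_smul' cov (f := fun _ : M => (0 : ℝ)) (X := fun y => (0 : TangentSpace I y))
      contMDiff_const (contMDiff_zeroSection ℝ (TangentSpace I : M → Type _)) x (U x)
    rw [mvfderiv_const] at h
    simpa using h
  rw [h2, h0, s.on x a a, if_pos rfl, one_smul, zero_sub] at h1
  rw [← neg_neg (cov (ξ a) x (cov (ξ a) x (U x))), h1, real_inner_comm]
  abel

theorem S3.cross {a b c : Fin 3} (hab : a ≠ b) (hb : ∀ x, mlieBracket I (ξ a) (ξ b) x = (2 : ℝ) • ξ c x)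
    (x : M) : cov (ξ b) x (ξ a x) = ξ c x ∧ cov (ξ a) x (ξ b x) = - ξ c x := by
  have h1 : cov (ξ b) x (ξ a x) = - cov (ξ a) x (ξ b x) := by
    apply ext_inner_right ℝ
    intro w
    rw [s.killing, inner_neg_left, s.killing, neg_neg]
    have h1 := dinner h.metric (s.sm a) (s.sm b) x w
    have h2 : (fun y => inner ℝ (ξ a y) (ξ b y)) = fun _ => (0 : ℝ) := by
      ext y
      rw [s.on y a b, if_neg hab]
    rw [h2, mvfderiv_const, real_inner_comm (ξ b x) (cov (ξ a) x w)] at h1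
    have h3 : (0 : ℝ) = inner ℝ (ξ b x) (cov (ξ a) x w) + inner ℝ (ξ a x) (cov (ξ b) x w) := h1
    linarith
  have h2 := h.torsionFree (s.sm a) (s.sm b) x
  rw [hb, h1] at h2
  have h3 : (2 : ℝ) • (- cov (ξ a) x (ξ b x)) = (2 : ℝ) • ξ c x := by
    rw [← h2, two_smul]
    abel
  have h4 : - cov (ξ a) x (ξ b x) = ξ c x := by
    have := congrArg (fun v => (2 : ℝ)⁻¹ • v) h3
    simp only [smul_smul] at this
    norm_num at this
    exact this
  refine ⟨by rw [h1, h4], ?_⟩
  rw [← h4, neg_neg]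

theorem S3.mul {a b c : Fin 3} (hab : a ≠ b) (hb : ∀ x, mlieBracket I (ξ a) (ξ b) x = (2 : ℝ) • ξ c x)
    (x : M) (u : TangentSpace I x) : cov (ξ a) x (cov (ξ b) x u) = - cov (ξ c) x u +
      (inner ℝ (ξ b x) u : ℝ) • ξ a x := by
  obtain ⟨U, hU, rfl⟩ := exists_smooth_field (I := I) x u
  have h1 := s.sasaki a hU (s.sm b) x
  have h2 : nabla cov (ξ b) (ξ a) = fun y => - ξ c y := by
    ext1 y
    exact (s.cross h hab hb y).2
  rw [h2, cov_neg' cov (s.sm c), s.on x a b, if_neg hab, zero_smul, zero_sub] at h1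
  rw [real_inner_comm]
  have h3 : cov (ξ a) x (cov (ξ b) x (U x)) = - cov (ξ c) x (U x) -
      (- ((inner ℝ (U x) (ξ b x) : ℝ) • ξ a x)) := by
    rw [← h1]
    abel
  rw [h3]
  abel

include hR in
theorem S3.k1 (a : Fin 3) (x : M) (u w : TangentSpace I x) : R x u w (ξ a x) =
    (inner ℝ (ξ a x) w : ℝ) • u - (inner ℝ (ξ a x) u : ℝ) • w := by
  obtain ⟨U, hU, rfl⟩ := exists_smooth_field (I := I) x u
  obtain ⟨W, hW, rfl⟩ := exists_smooth_field (I := I) x w
  have h0 := hR hU hW (s.sm a) x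
  have h1 := s.sasaki a hU hW x
  have h2 := s.sasaki a hW hU x
  have h3 := h.torsionFree hU hW x
  rw [h0]
  simp only [curv]
  rw [sub_eq_iff_eq_add] at h1 h2
  rw [h1, h2, ← h3, map_sub, real_inner_comm (U x) (W x)]
  abel

include hR in
theorem S3.k2 (a : Fin 3) (x : M) (u w z : TangentSpace I x) :
    R x u w (cov (ξ a) x z) - cov (ξ a) x (R x u w z) = (inner ℝ (cov (ξ a) x u) z : ℝ) • w -
    (inner ℝ (cov (ξ a) x w) z : ℝ) • u - (inner ℝ w z : ℝ) • cov (ξ a) x u +
    (inner ℝ u z : ℝ) • cov (ξ a) x w := by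
  obtain ⟨U, hU, rfl, hU0⟩ := exists_adapted cov x u
  obtain ⟨W, hW, rfl, hW0⟩ := exists_adapted cov x w
  obtain ⟨Z, hZ, rfl, hZ0⟩ := exists_adapted cov x z
  have key : ∀ A B : Π x : M, TangentSpace I x, CMDiff ∞ (T% A) → CMDiff ∞ (T% B) →
      (∀ w : TangentSpace I x, cov A x w = 0) → (∀ w : TangentSpace I x, cov B x w = 0) →
      cov (nabla cov B (nabla cov Z (ξ a))) x (A x) =
      cov (ξ a) x (cov (nabla cov B Z) x (A x)) + (inner ℝ (cov (ξ a) x (A x)) (Z x) : ℝ) • B x -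
        (inner ℝ (B x) (Z x) : ℝ) • cov (ξ a) x (A x) := by
    intro A B hA hB hA0 hB0
    have s1 : CMDiff ∞ (T% (nabla cov B Z)) := sm_nabla h hB hZ
    have s2 : CMDiff ∞ (T% (nabla cov (nabla cov B Z) (ξ a))) := sm_nabla h s1 (s.sm a)
    have s3 : CMDiff ∞ (fun y => inner ℝ (ξ a y) (Z y)) := smooth_inner (s.sm a) hZ
    have s4 : CMDiff ∞ (fun y => inner ℝ (B y) (Z y)) := smooth_inner hB hZ
    have e1 : nabla cov B (nabla cov Z (ξ a)) = fun y => (nabla cov (nabla cov B Z) (ξ a) y +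
        (inner ℝ (ξ a y) (Z y) : ℝ) • B y) - (inner ℝ (B y) (Z y) : ℝ) • ξ a y := by
      ext1 y
      have := s.sasaki a hB hZ y
      rw [sub_eq_iff_eq_add] at this
      have e2 : nabla cov B (nabla cov Z (ξ a)) y = cov (nabla cov Z (ξ a)) y (B y) := rfl
      have e3 : nabla cov (nabla cov B Z) (ξ a) y = cov (ξ a) y (cov Z y (B y)) := rfl
      rw [e2, e3, this]
      abel
    rw [e1, cov_sub' cov (sm_add s2 (sm_smul s3 hB)) (sm_smul s4 (s.sm a)),
      cov_add' cov s2 (sm_smul s3 hB), cov_smul' cov s3 hB, cov_smul' cov s4 (s.sm a),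
      dinner h.metric (s.sm a) hZ, dinner h.metric hB hZ, hZ0, hB0]
    have e4 := s.sasaki a hA s1 x
    rw [sub_eq_iff_eq_add] at e4
    have e5 : nabla cov B Z x = 0 := hZ0 _
    rw [e5, inner_zero_right, inner_zero_right, zero_smul, zero_smul, sub_zero, zero_add] at e4
    rw [e4]
    simp only [inner_zero_left, inner_zero_right, zero_smul, smul_zero, add_zero, zero_add]
  have hb0 : mlieBracket I U W x = 0 := by
    rw [← h.torsionFree hU hW x, hU0, hW0, sub_zero]
  have h1 := hR hU hW (sm_nabla h hZ (s.sm a)) x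
  have h2 := hR hU hW hZ x
  simp only [curv] at h1 h2
  rw [hb0, map_zero, sub_zero, key U W hU hW hU0 hW0, key W U hW hU hW0 hU0] at h1
  rw [hb0, map_zero, sub_zero] at h2
  have h3 : R x (U x) (W x) (cov (ξ a) x (Z x)) = R x (U x) (W x) (nabla cov Z (ξ a) x) := rfl
  rw [h3, h1, h2, map_sub]
  abel

include hR in
theorem S3.pt (x : M) : PtSas (R x) (fun a => CL cov (ξ a) x) (fun a => ξ a x) where
  curv := isCurvatureTensor h hR x
  skew a u w := s.killing a x u w
  sq a u := s.sq h a x u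
  c01 u := s.mul h (by decide) s.b01 x u
  c12 u := s.mul h (by decide) s.b12 x u
  c20 u := s.mul h (by decide) s.b20 x u
  on a b := s.on x a b
  k1 a u w := s.k1 h hR a x u w
  k2 a u w z := s.k2 h hR a x u w z

include hR in
/-- The derivative of the curvature with a vertical field in the third slot. -/
theorem S3.DR_vert (a : Fin 3) {V X Y : Π x : M, TangentSpace I x} (hV : CMDiff ∞ (T% V))
    (hX : CMDiff ∞ (T% X)) (hY : CMDiff ∞ (T% Y)) (x : M) :
    DR cov R V X Y (ξ a) x = - TO (R x) (X x) (Y x) (cov (ξ a) x (V x)) := by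
  have s3 : CMDiff ∞ (fun y => inner ℝ (ξ a y) (Y y)) := smooth_inner (s.sm a) hY
  have s4 : CMDiff ∞ (fun y => inner ℝ (ξ a y) (X y)) := smooth_inner (s.sm a) hX
  have e1 : RF R X Y (ξ a) = fun y => (inner ℝ (ξ a y) (Y y) : ℝ) • X y -
      (inner ℝ (ξ a y) (X y) : ℝ) • Y y := by
    ext1 y
    exact s.k1 h hR a y _ _
  unfold DR
  rw [e1, cov_sub' cov (sm_smul s3 hX) (sm_smul s4 hY), cov_smul' cov s3 hX, cov_smul' cov s4 hY,
    dinner h.metric (s.sm a) hX, dinner h.metric (s.sm a) hY, s.k1 h hR, s.k1 h hR]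
  unfold TO
  rw [real_inner_comm (cov (ξ a) x (V x)) (Y x), real_inner_comm (cov (ξ a) x (V x)) (X x)]
  module

end Pool.Agent.L5helper93.Sas

end
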