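import Mathlib
import Pool.Agent.L5helper93.Sas.Pt

/-!
# Splitting the norm of the derivative of the curvature
-/

namespace Pool.Agent.L5helper93.Sas

open Finset Matrix Pool.Agent.L5helper93.Ein

set_option linter.unusedSectionVars false
set_option linter.unusedVariables false
set_option linter.unusedSimpArgs false

noncomputable section

variable {n : ℕ}

/-- The indices of the vertical vectors. -/
def vi (n : ℕ) (a : Fin 3) : Fin (4 * n + 3) := Fin.natAdd (4 * n) a

/-- The indicator function of the vertical indices. -/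
def ch (n : ℕ) (i : Fin (4 * n + 3)) : ℝ := if 4 * n ≤ (i : ℕ) then 1 else 0

theorem ch_sum (g : Fin (4 * n + 3) → ℝ) : ∑ i, ch n i * g i = ∑ a, g (vi n a) := by
  rw [Fin.sum_univ_add]
  have h1 : ∑ i : Fin (4 * n), ch n (Fin.castAdd 3 i) * g (Fin.castAdd 3 i) = 0 := by
    refine Finset.sum_eq_zero fun i _ => ?_
    have : ¬ (4 * n ≤ ((Fin.castAdd 3 i : Fin (4 * n + 3)) : ℕ)) := by
      rw [Fin.val_castAdd]
      exact not_le.2 i.2
    unfold ch
    rw [if_neg this, zero_mul]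
  rw [h1, zero_add]
  refine Finset.sum_congr rfl fun a _ => ?_
  have : 4 * n ≤ ((Fin.natAdd (4 * n) a : Fin (4 * n + 3)) : ℕ) := by
    rw [Fin.val_natAdd]
    exact Nat.le_add_right _ _
  unfold ch vi
  rw [if_pos this, one_mul]

theorem ch_cases (i : Fin (4 * n + 3)) : ch n i = 0 ∨ (ch n i = 1 ∧ ∃ a, i = vi n a) := by
  unfold ch
  by_cases hi : 4 * n ≤ (i : ℕ)
  · right
    refine ⟨if_pos hi, ⟨(i : ℕ) - 4 * n, by have := i.2; omega⟩, ?_⟩
    apply Fin.ext
    unfold vi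
    rw [Fin.val_natAdd]
    simp only
    omega
  · left
    exact if_neg hi

/-- The part of a sum over horizontal indices. -/
def hp (n : ℕ) (k l m p : Fin (4 * n + 3)) : ℝ :=
  (1 - ch n k) * (1 - ch n l) * (1 - ch n m) * (1 - ch n p)

theorem hp_nonneg (k l m p : Fin (4 * n + 3)) : 0 ≤ hp n k l m p := by
  unfold hp
  rcases ch_cases k with h1 | ⟨h1, -⟩ <;> rcases ch_cases l with h2 | ⟨h2, -⟩ <;>
  rcases ch_cases m with h3 | ⟨h3, -⟩ <;> rcases ch_cases p with h4 | ⟨h4, -⟩ <;>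
  rw [h1, h2, h3, h4] <;> norm_num

/-- Splitting the squared norm of a curvature-like tensor. -/
theorem split {D : Fin (4 * n + 3) → Fin (4 * n + 3) → Fin (4 * n + 3) → Fin (4 * n + 3) → ℝ}
    (hD : IsCurv D) (h0 : ∀ a b k l, D k (vi n a) l (vi n b) = 0)
    (h0' : ∀ a b k l, D k l (vi n a) (vi n b) = 0) :
    nS D = (∑ k, ∑ l, ∑ m, ∑ p, hp n k l m p * D k l m p ^ 2) +
      4 * ∑ a, ∑ k, ∑ l, ∑ m, D k l m (vi n a) ^ 2 := by
  have hpt : ∀ k l m p, D k l m p ^ 2 = hp n k l m p * D k l m p ^ 2 +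
      (ch n k * D k l m p ^ 2 + ch n l * D k l m p ^ 2 + ch n m * D k l m p ^ 2 +
        ch n p * D k l m p ^ 2) := by
    intro k l m p
    unfold hp
    rcases ch_cases k with h1 | ⟨h1, a1, e1⟩ <;> rcases ch_cases l with h2 | ⟨h2, a2, e2⟩ <;>
    rcases ch_cases m with h3 | ⟨h3, a3, e3⟩ <;> rcases ch_cases p with h4 | ⟨h4, a4, e4⟩
    · rw [h1, h2, h3, h4]; ring
    · rw [h1, h2, h3, h4]; ring
    · rw [h1, h2, h3, h4]; ring
    · have : D k l m p = 0 := by rw [e3, e4]; exact h0' _ _ _ _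
      rw [this]; ring
    · rw [h1, h2, h3, h4]; ring
    · have : D k l m p = 0 := by rw [e2, e4]; exact h0 _ _ _ _
      rw [this]; ring
    · have : D k l m p = 0 := by rw [hD.a2, e2, e3, h0]; ring
      rw [this]; ring
    · have : D k l m p = 0 := by rw [e3, e4]; exact h0' _ _ _ _
      rw [this]; ring
    · rw [h1, h2, h3, h4]; ring
    · have : D k l m p = 0 := by rw [hD.a1, e1, e4, h0]; ring
      rw [this]; ring
    · have : D k l m p = 0 := by rw [hD.a1, hD.a2, e1, e3, h0]; ring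
      rw [this]; ring
    · have : D k l m p = 0 := by rw [e3, e4]; exact h0' _ _ _ _
      rw [this]; ring
    · have : D k l m p = 0 := by rw [hD.pair, e1, e2]; exact h0' _ _ _ _
      rw [this]; ring
    · have : D k l m p = 0 := by rw [hD.pair, e1, e2]; exact h0' _ _ _ _
      rw [this]; ring
    · have : D k l m p = 0 := by rw [hD.pair, e1, e2]; exact h0' _ _ _ _
      rw [this]; ring
    · have : D k l m p = 0 := by rw [hD.pair, e1, e2]; exact h0' _ _ _ _
      rw [this]; ring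
  have c4 : ∑ k, ∑ l, ∑ m, ∑ p, ch n p * D k l m p ^ 2 =
      ∑ a, ∑ k, ∑ l, ∑ m, D k l m (vi n a) ^ 2 := by
    simp only [ch_sum]
    calc ∑ k, ∑ l, ∑ m, ∑ a, D k l m (vi n a) ^ 2
        = ∑ k, ∑ l, ∑ a, ∑ m, D k l m (vi n a) ^ 2 :=
          Finset.sum_congr rfl fun k _ => Finset.sum_congr rfl fun l _ => Finset.sum_comm
      _ = ∑ k, ∑ a, ∑ l, ∑ m, D k l m (vi n a) ^ 2 :=
          Finset.sum_congr rfl fun k _ => Finset.sum_comm
      _ = _ := Finset.sum_comm
  have c3 : ∑ k, ∑ l, ∑ m, ∑ p, ch n m * D k l m p ^ 2 =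
      ∑ k, ∑ l, ∑ m, ∑ p, ch n p * D k l m p ^ 2 := by
    refine Finset.sum_congr rfl fun k _ => Finset.sum_congr rfl fun l _ => ?_
    rw [Finset.sum_comm]
    refine Finset.sum_congr rfl fun m _ => Finset.sum_congr rfl fun p _ => ?_
    rw [hD.a2 k l p m]
    ring
  have c1 : ∑ k, ∑ l, ∑ m, ∑ p, ch n k * D k l m p ^ 2 =
      ∑ k, ∑ l, ∑ m, ∑ p, ch n m * D k l m p ^ 2 := by
    calc ∑ k, ∑ l, ∑ m, ∑ p, ch n k * D k l m p ^ 2
        = ∑ k, ∑ m, ∑ l, ∑ p, ch n k * D k l m p ^ 2 :=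
          Finset.sum_congr rfl fun k _ => Finset.sum_comm
      _ = ∑ m, ∑ k, ∑ l, ∑ p, ch n k * D k l m p ^ 2 := Finset.sum_comm
      _ = ∑ m, ∑ k, ∑ p, ∑ l, ch n k * D k l m p ^ 2 :=
          Finset.sum_congr rfl fun m _ => Finset.sum_congr rfl fun k _ => Finset.sum_comm
      _ = ∑ m, ∑ p, ∑ k, ∑ l, ch n k * D k l m p ^ 2 :=
          Finset.sum_congr rfl fun m _ => Finset.sum_comm
      _ = _ := by
          refine Finset.sum_congr rfl fun m _ => Finset.sum_congr rfl fun p _ =>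
            Finset.sum_congr rfl fun k _ => Finset.sum_congr rfl fun l _ => ?_
          rw [hD.pair k l m p]
  have c2 : ∑ k, ∑ l, ∑ m, ∑ p, ch n l * D k l m p ^ 2 =
      ∑ k, ∑ l, ∑ m, ∑ p, ch n k * D k l m p ^ 2 := by
    rw [Finset.sum_comm]
    refine Finset.sum_congr rfl fun k _ => Finset.sum_congr rfl fun l _ =>
      Finset.sum_congr rfl fun m _ => Finset.sum_congr rfl fun p _ => ?_
    rw [hD.a1 l k m p]
    ring
  unfold nS
  rw [Finset.sum_congr rfl fun k _ => Finset.sum_congr rfl fun l _ =>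
    Finset.sum_congr rfl fun m _ => Finset.sum_congr rfl fun p _ => hpt k l m p]
  simp only [Finset.sum_add_distrib]
  rw [c2, c1, c3, c4]
  ring

variable {ι : Type*} [Fintype ι] [DecidableEq ι] {A : ι → ι → ι → ι → ℝ}
  {J : Fin 3 → Matrix ι ι ℝ} {v : Fin 3 → ι → ℝ}

/-- The norm of the components with one vertical slot. -/
theorem HKT.vert_norm (h : HKT J v A) (q : Quat J v) (a : Fin 3) :
    ∑ i, ∑ k, ∑ l, ∑ m, (∑ r, J a r i * A k l m r) ^ 2 = nS A := by
  have h1 : ∀ k l m, ∑ i, (∑ r, J a r i * A k l m r) ^ 2 = ∑ r, A k l m r ^ 2 := by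
    intro k l m
    obtain ⟨t, ht⟩ : ∃ t : ι → ℝ, t = fun r => A k l m r := ⟨_, rfl⟩
    have hs : ∀ m r, J a m r = - J a r m := by
      intro m r
      have := congrFun (congrFun (q.skew a) r) m
      simpa only [Matrix.transpose_apply, Matrix.neg_apply] using this
    have h2 : ∀ i, (∑ r, J a r i * A k l m r) = - (J a *ᵥ t) i := by
      intro i
      rw [Matrix.mulVec]
      unfold dotProduct
      rw [← Finset.sum_neg_distrib]
      refine Finset.sum_congr rfl fun r _ => ?_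
      rw [hs r i, ht]
      ring
    have h3 : ∑ i, (∑ r, J a r i * A k l m r) ^ 2 = (J a *ᵥ t) ⬝ᵥ (J a *ᵥ t) := by
      unfold dotProduct
      refine Finset.sum_congr rfl fun i _ => ?_
      rw [h2]
      ring
    have h4 : v a ⬝ᵥ t = 0 := by
      have := congrFun (h.kill a k l) m
      simp only [mulVec, dotProduct, Mt, Matrix.of_apply, Pi.zero_apply] at this
      unfold dotProduct
      rw [← this, ht]
      exact Finset.sum_congr rfl fun r _ => mul_comm _ _
    rw [h3, q.skew_dot, q.sqv, h4, zero_smul, add_zero, dotProduct_neg, neg_neg]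
    unfold dotProduct
    rw [ht]
    exact Finset.sum_congr rfl fun r _ => by ring
  calc ∑ i, ∑ k, ∑ l, ∑ m, (∑ r, J a r i * A k l m r) ^ 2
      = ∑ k, ∑ i, ∑ l, ∑ m, (∑ r, J a r i * A k l m r) ^ 2 := Finset.sum_comm
    _ = ∑ k, ∑ l, ∑ i, ∑ m, (∑ r, J a r i * A k l m r) ^ 2 :=
        Finset.sum_congr rfl fun k _ => Finset.sum_comm
    _ = ∑ k, ∑ l, ∑ m, ∑ i, (∑ r, J a r i * A k l m r) ^ 2 :=
        Finset.sum_congr rfl fun k _ => Finset.sum_congr rfl fun l _ => Finset.sum_comm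
    _ = nS A := Finset.sum_congr rfl fun k _ => Finset.sum_congr rfl fun l _ =>
        Finset.sum_congr rfl fun m _ => h1 k l m

end

end Pool.Agent.L5helper93.Sas
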