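import Mathlib
import Pool.Agent.L5helper93.Sas.Geo
import Pool.Agent.L5helper93.Sas.Split

/-!
# The rigidity theorem for 3-Sasakian manifolds
-/

open Bundle Manifold ContDiff VectorField Filter
open scoped Topology

set_option linter.unusedSectionVars false
set_option linter.unusedVariables false
set_option linter.unusedSimpArgs false

noncomputable section

namespace Pool.Agent.L5helper93.Sas

open Pool.Agent.Results.MP_b296c2_gt
open Pool.Agent.Results.MP_b296c2_gt.Riemannian
open Pool.Agent.L5helper93.Ein Pool.Agent.L5helper93.Geo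

theorem HP_nonneg {n : ℕ} (D : Fin (4 * n + 3) → Fin (4 * n + 3) → Fin (4 * n + 3) →
    Fin (4 * n + 3) → Fin (4 * n + 3) → ℝ) :
    0 ≤ ∑ i, ∑ k, ∑ l, ∑ m, ∑ p, hp n k l m p * D i k l m p ^ 2 :=
  Finset.sum_nonneg fun i _ => Finset.sum_nonneg fun k _ => Finset.sum_nonneg fun l _ =>
    Finset.sum_nonneg fun m _ => Finset.sum_nonneg fun p _ =>
      mul_nonneg (hp_nonneg k l m p) (sq_nonneg _)

variable {E : Type*} [NormedAddCommGroup E] [NormedSpace ℝ E] [FiniteDimensional ℝ E]
  {H : Type*} [TopologicalSpace H] {I : ModelWithCorners ℝ E H}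
  {M : Type*} [TopologicalSpace M] [ChartedSpace H M] [IsManifold I ∞ M]
  [RiemannianBundle (fun x : M => TangentSpace I x)]
  [IsContMDiffRiemannianBundle I ∞ E (fun x : M => TangentSpace I x)]
  [T2Space M] [SigmaCompactSpace M] [Nontrivial E]
  {cov : CovariantDerivative I E (TangentSpace I : M → Type _)}

section General

variable (h : IsLeviCivita cov) {R : CurvField I M} (hR : IsRiemannTensor cov R)
  {z : M} {n : ℕ} {e : Fin n → Π x : M, TangentSpace I x} (ha : Adapted cov z e)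
  (hn : Module.finrank ℝ E = n)

include h hR ha

/-- A four-linear expansion. -/
theorem GF_cext' (V : Π x : M, TangentSpace I x) (a b c d : Fin n → ℝ)
    (h0 : ∀ k l q m, a k * b l * c q * d m * GF cov R V (e k) (e l) (e q) (e m) z = 0) :
    GF cov R V (cext e a) (cext e b) (cext e c) (cext e d) z = 0 := by
  have sa := sm_cext ha a
  have sb := sm_cext ha b
  have sc := sm_cext ha c
  have sd := sm_cext ha d
  have zero : ∀ (X Y Z W : Π x : M, TangentSpace I x), (X z = 0 ∨ Y z = 0 ∨ Z z = 0 ∨ W z = 0) →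
      TF R X Y Z W z = 0 := by
    intro X Y Z W h1
    unfold TF RF
    rcases h1 with h1 | h1 | h1 | h1 <;> rw [h1] <;> simp
  have e1 := dTF_field (V := V) h hR sa sb sc sd z
  rw [zero (nabla cov V (cext e a)) _ _ _ (Or.inl (cext_par ha a _)),
    zero _ (nabla cov V (cext e b)) _ _ (Or.inr (Or.inl (cext_par ha b _))),
    zero _ _ (nabla cov V (cext e c)) _ (Or.inr (Or.inr (Or.inl (cext_par ha c _)))),
    zero _ _ _ (nabla cov V (cext e d)) (Or.inr (Or.inr (Or.inr (cext_par ha d _))))] at e1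
  have e2 : TF R (cext e a) (cext e b) (cext e c) (cext e d) = fun y => ∑ k, ∑ l, ∑ q, ∑ m,
      (a k * b l * c q * d m) * TF R (e k) (e l) (e q) (e m) y := by
    ext y
    unfold TF RF cext
    simp only [map_sum, map_smul, LinearMap.sum_apply, LinearMap.smul_apply, sum_inner, inner_sum,
      real_inner_smul_left, real_inner_smul_right]
    have perm : ∀ f : Fin n → Fin n → Fin n → Fin n → ℝ,
        ∑ m, ∑ q, ∑ l, ∑ k, f k l q m = ∑ k, ∑ l, ∑ q, ∑ m, f k l q m := by
      intro f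
      calc ∑ m, ∑ q, ∑ l, ∑ k, f k l q m = ∑ m, ∑ q, ∑ k, ∑ l, f k l q m :=
            Finset.sum_congr rfl fun m _ => Finset.sum_congr rfl fun q _ => Finset.sum_comm
        _ = ∑ m, ∑ k, ∑ q, ∑ l, f k l q m := Finset.sum_congr rfl fun m _ => Finset.sum_comm
        _ = ∑ k, ∑ m, ∑ q, ∑ l, f k l q m := Finset.sum_comm
        _ = ∑ k, ∑ m, ∑ l, ∑ q, f k l q m :=
            Finset.sum_congr rfl fun k _ => Finset.sum_congr rfl fun m _ => Finset.sum_comm
        _ = ∑ k, ∑ l, ∑ m, ∑ q, f k l q m := Finset.sum_congr rfl fun k _ => Finset.sum_comm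
        _ = ∑ k, ∑ l, ∑ q, ∑ m, f k l q m :=
            Finset.sum_congr rfl fun k _ => Finset.sum_congr rfl fun l _ => Finset.sum_comm
    rw [← perm]
    simp only [Finset.mul_sum]
    refine Finset.sum_congr rfl fun m _ => Finset.sum_congr rfl fun q _ =>
      Finset.sum_congr rfl fun l _ => Finset.sum_congr rfl fun k _ => ?_
    ring
  have hT : ∀ k l q m, CMDiff ∞ (TF R (e k) (e l) (e q) (e m)) := fun k l q m =>
    sm_TF h hR (ha.sm k) (ha.sm l) (ha.sm q) (ha.sm m)
  have s1 : ∀ k l q m, CMDiff ∞ (fun x => (a k * b l * c q * d m) *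
      TF R (e k) (e l) (e q) (e m) x) := fun k l q m => contMDiff_const.mul (hT k l q m)
  have s2 : ∀ k l q, CMDiff ∞ (fun x => ∑ m, (a k * b l * c q * d m) *
      TF R (e k) (e l) (e q) (e m) x) := fun k l q => contMDiff_finsetSum fun m _ => s1 k l q m
  have s3 : ∀ k l, CMDiff ∞ (fun x => ∑ q, ∑ m, (a k * b l * c q * d m) *
      TF R (e k) (e l) (e q) (e m) x) := fun k l => contMDiff_finsetSum fun q _ => s2 k l q
  have s4 : ∀ k, CMDiff ∞ (fun x => ∑ l, ∑ q, ∑ m, (a k * b l * c q * d m) *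
      TF R (e k) (e l) (e q) (e m) x) := fun k => contMDiff_finsetSum fun l _ => s3 k l
  have e3 : d% (TF R (cext e a) (cext e b) (cext e c) (cext e d)) z (V z) = 0 := by
    rw [e2, d_sum Finset.univ fun k _ => s4 k]
    refine Finset.sum_eq_zero fun k _ => ?_
    rw [d_sum Finset.univ fun l _ => s3 k l]
    refine Finset.sum_eq_zero fun l _ => ?_
    rw [d_sum Finset.univ fun q _ => s2 k l q]
    refine Finset.sum_eq_zero fun q _ => ?_
    rw [d_sum Finset.univ fun m _ => s1 k l q m]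
    refine Finset.sum_eq_zero fun m _ => ?_
    rw [d_constmul (hT k l q m), dTF_field h hR (ha.sm k) (ha.sm l) (ha.sm q) (ha.sm m),
      zero (nabla cov V (e k)) _ _ _ (Or.inl (ha.par k _)),
      zero _ (nabla cov V (e l)) _ _ (Or.inr (Or.inl (ha.par l _))),
      zero _ _ (nabla cov V (e q)) _ (Or.inr (Or.inr (Or.inl (ha.par q _)))),
      zero _ _ _ (nabla cov V (e m)) (Or.inr (Or.inr (Or.inr (ha.par m _))))]
    have := h0 k l q m
    linarith
  linarith

include hn in
theorem GF_vanish' {V X Y Z W : Π x : M, TangentSpace I x} (hV : CMDiff ∞ (T% V))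
    (hX : CMDiff ∞ (T% X)) (hY : CMDiff ∞ (T% Y)) (hZ : CMDiff ∞ (T% Z)) (hW : CMDiff ∞ (T% W))
    (h0 : ∀ k l q m, (inner ℝ (X z) (e k z) * inner ℝ (Y z) (e l z) * inner ℝ (Z z) (e q z) *
      inner ℝ (W z) (e m z) : ℝ) * GF cov R V (e k) (e l) (e q) (e m) z = 0) :
    GF cov R V X Y Z W z = 0 := by
  have hc : ∀ v : TangentSpace I z, v = cext e (fun k => inner ℝ v (e k z)) z := fun v =>
    ha.expand hn v
  set X' := cext e (fun k => inner ℝ (X z) (e k z)) with hX'
  set Y' := cext e (fun k => inner ℝ (Y z) (e k z)) with hY'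
  set Z' := cext e (fun k => inner ℝ (Z z) (e k z)) with hZ'
  set W' := cext e (fun k => inner ℝ (W z) (e k z)) with hW'
  have sX : CMDiff ∞ (T% X') := sm_cext ha _
  have sY : CMDiff ∞ (T% Y') := sm_cext ha _
  have sZ : CMDiff ∞ (T% Z') := sm_cext ha _
  have sW : CMDiff ∞ (T% W') := sm_cext ha _
  rw [GF_congr1 h hR hX hY hZ hW sX (hc (X z)), GF_a1 h hR hV sX hY hZ hW,
    GF_congr1 h hR hY sX hZ hW sY (hc (Y z)), ← GF_a1 h hR hV sX sY hZ hW,
    GF_pair h hR hV sX sY hZ hW, GF_congr1 h hR hZ hW sX sY sZ (hc (Z z)),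
    GF_a1 h hR hV sZ hW sX sY, GF_congr1 h hR hW sZ sX sY sW (hc (W z)),
    ← GF_a1 h hR hV sZ sW sX sY, ← GF_pair h hR hV sX sY sZ sW]
  exact GF_cext' h hR ha V _ _ _ _ h0

end General

variable (h : IsLeviCivita cov) {R : CurvField I M} (hR : IsRiemannTensor cov R)
  {ξ : Fin 3 → Π x : M, TangentSpace I x} (s : S3 cov ξ) {n : ℕ}
  (hn : Module.finrank ℝ E = 4 * n + 3)

include s hn in
theorem frame3 (h : IsLeviCivita cov) (z : M) : ∃ e : Fin (4 * n + 3) → Π x : M, TangentSpace I x,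
    Adapted cov z e ∧ ∀ a, e (vi n a) z = ξ a z := by
  have hfd : FiniteDimensional ℝ (TangentSpace I z) := inferInstanceAs (FiniteDimensional ℝ E)
  have hn' : Module.finrank ℝ (TangentSpace I z) = 4 * n + 3 := hn
  obtain ⟨w, hw⟩ : ∃ w : Fin (4 * n + 3) → TangentSpace I z, ∀ a, w (vi n a) = ξ a z := by
    refine ⟨Fin.addCases (fun _ => 0) (fun a => ξ a z), fun a => ?_⟩
    exact Fin.addCases_right (motive := fun _ => TangentSpace I z) a
  have hinj : Function.Injective (vi n) := Fin.natAdd_injective _ _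
  have hv : Orthonormal ℝ ((Set.range (vi n)).domRestrict w) := by
    rw [orthonormal_iff_ite]
    rintro ⟨i, a, rfl⟩ ⟨j, b, rfl⟩
    have h1 : (Set.range (vi n)).domRestrict w ⟨vi n a, ⟨a, rfl⟩⟩ = ξ a z := hw a
    have h2 : (Set.range (vi n)).domRestrict w ⟨vi n b, ⟨b, rfl⟩⟩ = ξ b z := hw b
    rw [h1, h2, s.on z a b]
    by_cases hab : a = b
    · subst hab; simp
    · rw [if_neg hab, if_neg]
      intro hcon
      exact hab (hinj (Subtype.ext_iff.1 hcon))
  obtain ⟨b, hb⟩ := Orthonormal.exists_orthonormalBasis_extension_of_card_eq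
    (ι := Fin (4 * n + 3)) (by simp [hn']) hv
  obtain ⟨e, h1, h2, h3, h4⟩ := exists_on_frame h.metric z (4 * n + 3) b (by
    intro i j
    exact orthonormal_iff_ite.1 b.orthonormal i j)
  refine ⟨e, ⟨h1, h3, h4⟩, fun a => ?_⟩
  rw [h2, hb _ ⟨a, rfl⟩, hw]

/-- The derivative of the curvature in a frame. -/
def Di (cov : CovariantDerivative I E (TangentSpace I : M → Type _)) (R : CurvField I M) {N : ℕ}
    (e : Fin N → Π x : M, TangentSpace I x) (z : M) (i k l m p : Fin N) : ℝ :=
  GF cov R (e i) (e k) (e l) (e p) (e m) z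

include h hR

theorem Di_curv {N : ℕ} {e : Fin N → Π x : M, TangentSpace I x} {z : M} (ha : Adapted cov z e)
    (i : Fin N) : IsCurv (Di cov R e z i) where
  a1 a b c d := GF_a1 h hR (ha.sm i) (ha.sm a) (ha.sm b) (ha.sm d) (ha.sm c) z
  a2 a b c d := GF_a2 h hR (ha.sm i) (ha.sm a) (ha.sm b) (ha.sm d) (ha.sm c) z
  bi a b c d := by
    unfold Di
    rw [GF_a2 h hR (ha.sm i) (ha.sm a) (ha.sm b) (ha.sm d) (ha.sm c) z,
      GF_a2 h hR (ha.sm i) (ha.sm b) (ha.sm c) (ha.sm d) (ha.sm a) z,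
      GF_a2 h hR (ha.sm i) (ha.sm c) (ha.sm a) (ha.sm d) (ha.sm b) z]
    have := GF_bi h hR (ha.sm i) (ha.sm a) (ha.sm b) (ha.sm c) (ha.sm d) z
    linarith

include s hn

/-- The Ricci curvature of a 3-Sasakian manifold. -/
theorem ric3 (x : M) (w : Fin (4 * n + 3) → TangentSpace I x)
    (hw : ∀ i j, inner ℝ (w i) (w j) = if i = j then (1 : ℝ) else 0) (a b : Fin (4 * n + 3)) :
    ∑ k, (inner ℝ (R x (w a) (w k) (w k)) (w b) : ℝ) = (4 * (n : ℝ) + 2) * if a = b then 1 else 0 := by
  have hfd : FiniteDimensional ℝ (TangentSpace I x) := inferInstanceAs (FiniteDimensional ℝ E)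
  have hn' : Module.finrank ℝ (TangentSpace I x) = 4 * n + 3 := hn
  have sp := s.pt h hR x
  have h1 := (sp.hkt hn' hw).ric (sp.quat hn' hw) a b
  rw [Finset.sum_congr rfl fun k _ => Tt_cst (R := R x) hw a k b k, Finset.sum_add_distrib, h1,
    zero_add]
  unfold cst dl
  rw [Finset.sum_sub_distrib]
  by_cases hab : a = b
  · subst hab
    simp
    ring
  · simp [hab, Ne.symm hab]

theorem Di_vert {e : Fin (4 * n + 3) → Π x : M, TangentSpace I x} {z : M} (ha : Adapted cov z e)
    (he : ∀ a, e (vi n a) z = ξ a z) (i k l m : Fin (4 * n + 3)) (a : Fin 3) :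
    Di cov R e z i k l m (vi n a) = ∑ r, Jm (fun a => CL cov (ξ a) z) (fun j => e j z) a r i *
      Tt (R z) (fun j => e j z) k l m r := by
  have hfd : FiniteDimensional ℝ (TangentSpace I z) := inferInstanceAs (FiniteDimensional ℝ E)
  have hn' : Module.finrank ℝ (TangentSpace I z) = 4 * n + 3 := hn
  have hsx := s.sm a
  unfold Di
  rw [GF_pair h hR (ha.sm i) (ha.sm k) (ha.sm l) (ha.sm _) (ha.sm m),
    GF_congr1 h hR (ha.sm _) (ha.sm m) (ha.sm k) (ha.sm l) hsx (he a),
    GF_pair h hR (ha.sm i) hsx (ha.sm m) (ha.sm k) (ha.sm l)]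
  unfold GF
  rw [s.DR_vert h hR a (ha.sm i) (ha.sm k) (ha.sm l), inner_neg_left]
  have h1 := on_expand hn' (fun j => e j z) ha.onp (cov (ξ a) z (e i z))
  rw [h1, TO_sum3, sum_inner, ← Finset.sum_neg_distrib]
  refine Finset.sum_congr rfl fun r _ => ?_
  rw [TO_smul3, real_inner_smul_left]
  simp only [Jm, Matrix.of_apply, Tt]
  rw [real_inner_comm (e r z) (cov (ξ a) z (e i z))]
  have h2 : (CL cov (ξ a) z) (e i z) = cov (ξ a) z (e i z) := rfl
  rw [h2]
  ring

/-- The Laplacian of the squared norm of the curvature. -/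
theorem lap3 {e : Fin (4 * n + 3) → Π x : M, TangentSpace I x} {z : M} (ha : Adapted cov z e)
    (he : ∀ a, e (vi n a) z = ξ a z) :
    ∑ i, d% (fun y => d% (nR hn R) y (e i y)) z (e i z) =
      2 * (∑ i, ∑ k, ∑ l, ∑ m, ∑ p, hp n k l m p * Di cov R e z i k l m p ^ 2) +
      2 * (8 * ((n : ℝ) + 2) * nS (Tt (R z) fun j => e j z) - cub (Tt (R z) fun j => e j z)) ∧
    nR hn R z = nS (Tt (R z) fun j => e j z) + 2 * (4 * (n : ℝ) + 3) * (4 * (n : ℝ) + 2) := by
  have hfd : FiniteDimensional ℝ (TangentSpace I z) := inferInstanceAs (FiniteDimensional ℝ E)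
  have hn' : Module.finrank ℝ (TangentSpace I z) = 4 * n + 3 := hn
  have sp := s.pt h hR z
  have hq := sp.quat hn' ha.onp
  have hk := sp.hkt hn' ha.onp
  have hA := Af_curv h hR ha
  obtain ⟨T, hT⟩ : ∃ T, T = Tt (R z) fun j => e j z := ⟨_, rfl⟩
  rw [← hT] at hk ⊢
  have hsh := shift (T := T) (A := Af R z e) hk.curv (hk.ric hq) hA (by
    intro a b c d
    rw [hT]
    exact Tt_cst (R := R z) ha.onp a b c d)
  have hcard : (Fintype.card (Fin (4 * n + 3)) : ℝ) = 4 * (n : ℝ) + 3 := by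
    rw [Fintype.card_fin]; push_cast; ring
  rw [hcard] at hsh
  have hE : ∀ᶠ x in 𝓝 z, ∀ a b, ∑ k, TF R (e a) (e k) (e k) (e b) x =
      (4 * (n : ℝ) + 2) * if a = b then 1 else 0 := by
    filter_upwards [ha.on] with x hx a b
    exact ric3 h hR s hn x (fun j => e j x) hx a b
  have hsum : ∑ i, ∑ k, ∑ l, ∑ q, ∑ m, (GF cov R (e i) (e k) (e l) (e q) (e m) z) ^ 2 =
      (∑ i, ∑ k, ∑ l, ∑ m, ∑ p, hp n k l m p * Di cov R e z i k l m p ^ 2) + 12 * nS T := by
    have h1 : ∀ i, ∑ k, ∑ l, ∑ q, ∑ m, (GF cov R (e i) (e k) (e l) (e q) (e m) z) ^ 2 =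
        nS (Di cov R e z i) := by
      intro i
      unfold nS Di
      refine Finset.sum_congr rfl fun k _ => Finset.sum_congr rfl fun l _ => ?_
      exact Finset.sum_comm
    have hv := Di_vert h hR s hn ha he
    have h0 : ∀ i a b k l, Di cov R e z i k (vi n a) l (vi n b) = 0 := by
      intro i a b k l
      rw [hv]
      refine Finset.sum_eq_zero fun r _ => ?_
      have : Tt (R z) (fun j => e j z) k (vi n a) l r = 0 := by
        unfold Tt
        beta_reduce
        rw [he, TO_anti sp.curv, sp.TO_kill1, neg_zero, inner_zero_left]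
      rw [this, mul_zero]
    have h0' : ∀ i a b k l, Di cov R e z i k l (vi n a) (vi n b) = 0 := by
      intro i a b k l
      rw [hv]
      refine Finset.sum_eq_zero fun r _ => ?_
      have : Tt (R z) (fun j => e j z) k l (vi n a) r = 0 := by
        unfold Tt
        beta_reduce
        rw [he, TO_skew sp.curv, sp.TO_kill, inner_zero_left, neg_zero]
      rw [this, mul_zero]
    have h2 : ∀ i, nS (Di cov R e z i) = (∑ k, ∑ l, ∑ m, ∑ p, hp n k l m p *
        Di cov R e z i k l m p ^ 2) + 4 * ∑ a, ∑ k, ∑ l, ∑ m, Di cov R e z i k l m (vi n a) ^ 2 :=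
      fun i => split (Di_curv h hR ha i) (h0 i) (h0' i)
    rw [Finset.sum_congr rfl fun i _ => (h1 i).trans (h2 i), Finset.sum_add_distrib,
      ← Finset.mul_sum]
    have h3 : ∑ i, ∑ a, ∑ k, ∑ l, ∑ m, Di cov R e z i k l m (vi n a) ^ 2 = 3 * nS T := by
      rw [Finset.sum_comm]
      have h4 : ∀ a, ∑ i, ∑ k, ∑ l, ∑ m, Di cov R e z i k l m (vi n a) ^ 2 = nS T := by
        intro a
        rw [← hk.vert_norm hq a]
        refine Finset.sum_congr rfl fun i _ => Finset.sum_congr rfl fun k _ =>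
          Finset.sum_congr rfl fun l _ => Finset.sum_congr rfl fun m _ => ?_
        rw [hv, hT]
      rw [Finset.sum_congr rfl fun a _ => h4 a]
      simp
    rw [h3]
    ring
  refine ⟨?_, ?_⟩
  · rw [nR_lap h hR hn ha hE, hsum]
    have := hsh.1
    linarith
  · have h5 : nR hn R z = nS (Af R z e) := by
      rw [(nR_near h hR hn ha).self_of_nhds]
      unfold nS Af
      refine Finset.sum_congr rfl fun k _ => Finset.sum_congr rfl fun l _ => ?_
      exact Finset.sum_comm
    rw [h5, hsh.2]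
    ring

/-- The rigidity theorem. -/
theorem sas_main [BoundarylessManifold I M] [CompactSpace M] [PreconnectedSpace M]
    (hK : ∀ (x : M) (u : TangentSpace I x), inner ℝ u u = (1 : ℝ) →
      (∀ a, inner ℝ (ξ a x) u = (0 : ℝ)) →
      (inner ℝ (R x u (cov (ξ 0) x u) (cov (ξ 0) x u)) u : ℝ) ≤ 5) :
    (∀ ⦃V X Y Z W : Π x : M, TangentSpace I x⦄, CMDiff ∞ (T% V) → CMDiff ∞ (T% X) →
      CMDiff ∞ (T% Y) → CMDiff ∞ (T% Z) → CMDiff ∞ (T% W) → ∀ z,
      (∀ a, inner ℝ (ξ a z) (X z) = (0 : ℝ)) → (∀ a, inner ℝ (ξ a z) (Y z) = (0 : ℝ)) →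
      (∀ a, inner ℝ (ξ a z) (Z z) = (0 : ℝ)) → (∀ a, inner ℝ (ξ a z) (W z) = (0 : ℝ)) →
      GF cov R V X Y Z W z = 0) ∧
    ((∀ (x : M) (u v w : TangentSpace I x),
      R x u v w = (inner ℝ v w : ℝ) • u - (inner ℝ u w : ℝ) • v) ∨
    ∀ x : M, ∃ u : TangentSpace I x, inner ℝ u u = (1 : ℝ) ∧
      (∀ a, inner ℝ (ξ a x) u = (0 : ℝ)) ∧
      (inner ℝ (R x u (cov (ξ 0) x u) (cov (ξ 0) x u)) u : ℝ) = 5) := by
  have hcub : ∀ (z : M) (e : Fin (4 * n + 3) → Π x : M, TangentSpace I x), Adapted cov z e →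
      cub (Tt (R z) fun j => e j z) ≤ 8 * ((n : ℝ) + 2) * nS (Tt (R z) fun j => e j z) := by
    intro z e ha
    have hfd : FiniteDimensional ℝ (TangentSpace I z) := inferInstanceAs (FiniteDimensional ℝ E)
    have hn' : Module.finrank ℝ (TangentSpace I z) = 4 * n + 3 := hn
    have sp := s.pt h hR z
    have hq := sp.quat hn' ha.onp
    have hk := sp.hkt hn' ha.onp
    have h1 := cubic_le hq (n := n) (by simp) hk (l := 4) (fun u => by
      refine sp.Fbound hn' ha.onp (by norm_num) (fun v h1 h2 => ?_) u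
      have := hK z v h1 h2
      have h3 : (inner ℝ (R z v (CL cov (ξ 0) z v) (CL cov (ξ 0) z v)) v : ℝ) ≤ 5 := this
      linarith)
    linarith
  have sm := smooth_nR h hR hn
  have hlap : ∀ (z : M) (e : Fin (4 * n + 3) → Π x : M, TangentSpace I x), Adapted cov z e →
      0 ≤ ∑ i, d% (fun y => d% (nR hn R) y (e i y)) z (e i z) := by
    intro z e' ha'
    obtain ⟨e, ha, he⟩ := frame3 s hn h z
    rw [lap_eq_trace hn h sm ha.sm ha.on ha', ← lap_eq_trace hn h sm ha.sm ha.on ha,
      (lap3 h hR s hn ha he).1]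
    have h1 := hcub z e ha
    have h2 := HP_nonneg (n := n) (Di cov R e z)
    linarith
  have hconst := strong_max hn h sm hlap
  have h3 : ∀ (z : M) (e : Fin (4 * n + 3) → Π x : M, TangentSpace I x) (i : Fin (4 * n + 3)),
      d% (fun y => d% (nR hn R) y (e i y)) z (e i z) = 0 := by
    intro z e i
    have hcf : nR hn R = fun _ => nR hn R z := by
      ext y; exact hconst y z
    have : (fun y => d% (nR hn R) y (e i y)) = fun _ => (0 : ℝ) := by
      ext y
      rw [hcf, mvfderiv_const]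
      rfl
    rw [this, mvfderiv_const]
    rfl
  have hzero : ∀ (z : M) (e : Fin (4 * n + 3) → Π x : M, TangentSpace I x), Adapted cov z e →
      (∀ a, e (vi n a) z = ξ a z) →
      (∀ i k l m p, hp n k l m p * Di cov R e z i k l m p ^ 2 = 0) ∧
      8 * ((n : ℝ) + 2) * nS (Tt (R z) fun j => e j z) - cub (Tt (R z) fun j => e j z) = 0 := by
    intro z e ha he
    have h0 := (lap3 h hR s hn ha he).1
    rw [Finset.sum_eq_zero fun i _ => h3 z e i] at h0
    have h1 := hcub z e ha
    have n5 : ∀ i k l m p, 0 ≤ hp n k l m p * Di cov R e z i k l m p ^ 2 :=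
      fun i k l m p => mul_nonneg (hp_nonneg k l m p) (sq_nonneg _)
    have n4 := fun i k l m => Finset.sum_nonneg (s := Finset.univ) fun p _ => n5 i k l m p
    have n3 := fun i k l => Finset.sum_nonneg (s := Finset.univ) fun m _ => n4 i k l m
    have n2 := fun i k => Finset.sum_nonneg (s := Finset.univ) fun l _ => n3 i k l
    have n1 := fun i => Finset.sum_nonneg (s := Finset.univ) fun k _ => n2 i k
    have n0 := Finset.sum_nonneg (s := Finset.univ) fun i _ => n1 i
    have z0 : ∑ i, ∑ k, ∑ l, ∑ m, ∑ p, hp n k l m p * Di cov R e z i k l m p ^ 2 = 0 :=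
      le_antisymm (by linarith) n0
    refine ⟨?_, by linarith⟩
    intro i k l m p
    have z1 := (Finset.sum_eq_zero_iff_of_nonneg fun i _ => n1 i).1 z0 i (Finset.mem_univ _)
    have z2 := (Finset.sum_eq_zero_iff_of_nonneg fun k _ => n2 i k).1 z1 k (Finset.mem_univ _)
    have z3 := (Finset.sum_eq_zero_iff_of_nonneg fun l _ => n3 i k l).1 z2 l (Finset.mem_univ _)
    have z4 := (Finset.sum_eq_zero_iff_of_nonneg fun m _ => n4 i k l m).1 z3 m (Finset.mem_univ _)
    exact (Finset.sum_eq_zero_iff_of_nonneg fun p _ => n5 i k l m p).1 z4 p (Finset.mem_univ _)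
  constructor
  · intro V X Y Z W hV hX hY hZ hW z pX pY pZ pW
    obtain ⟨e, ha, he⟩ := frame3 s hn h z
    -- linear in `V`
    have hlin : ∀ i, GF cov R (e i) X Y Z W z = 0 := by
      intro i
      refine GF_vanish' h hR ha hn (ha.sm i) hX hY hZ hW ?_
      intro k l q m
      have hD := (hzero z e ha he).1 i k l m q
      have hvert : ∀ (U : TangentSpace I z), (∀ a, inner ℝ (ξ a z) U = (0 : ℝ)) →
          ∀ j, ch n j = 0 ∨ inner ℝ U (e j z) = (0 : ℝ) := by
        intro U hU j
        rcases ch_cases j with h1 | ⟨-, a, ha'⟩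
        · exact Or.inl h1
        · right
          rw [ha', he, real_inner_comm]
          exact hU a
      rcases hvert _ pX k with h1 | h1
      · rcases hvert _ pY l with h2 | h2
        · rcases hvert _ pZ q with h3 | h3
          · rcases hvert _ pW m with h4 | h4
            · have : GF cov R (e i) (e k) (e l) (e q) (e m) z = 0 := by
                unfold hp at hD
                rw [h1, h2, h3, h4] at hD
                have h5 : Di cov R e z i k l m q ^ 2 = 0 := by linarith
                exact pow_eq_zero_iff (two_ne_zero) |>.1 h5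
              rw [this, mul_zero]
            · rw [h4]; ring
          · rw [h3]; ring
        · rw [h2]; ring
      · rw [h1]; ring
    have hexp := ha.expand hn (V z)
    have e1 : DR cov R V X Y Z z = ∑ i, (inner ℝ (V z) (e i z) : ℝ) •
        DR cov R (e i) X Y Z z := by
      unfold DR
      conv_lhs => rw [hexp]
      simp only [map_sum, map_smul, LinearMap.sum_apply, LinearMap.smul_apply, smul_sub,
        Finset.sum_sub_distrib]
    unfold GF
    rw [e1, sum_inner]
    refine Finset.sum_eq_zero fun i _ => ?_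
    rw [real_inner_smul_left]
    have := hlin i
    unfold GF at this
    rw [this, mul_zero]
  · by_contra hcon
    push Not at hcon
    obtain ⟨hc1, x0, hx0⟩ := hcon
    obtain ⟨e, ha, he⟩ := frame3 s hn h x0
    have hfd : FiniteDimensional ℝ (TangentSpace I x0) := inferInstanceAs (FiniteDimensional ℝ E)
    have hn' : Module.finrank ℝ (TangentSpace I x0) = 4 * n + 3 := hn
    have sp := s.pt h hR x0
    have hq := sp.quat hn' ha.onp
    have hk := sp.hkt hn' ha.onp
    have hne : (Sph (Fin (4 * n + 3))).Nonempty := by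
      refine ⟨Pi.single 0 1, ?_⟩
      show (Pi.single 0 1 : Fin (4 * n + 3) → ℝ) ⬝ᵥ Pi.single 0 1 = 1
      simp
    obtain ⟨T, hT⟩ : ∃ T, T = Tt (R x0) fun j => e j x0 := ⟨_, rfl⟩
    have hstr : ∀ v : Fin (4 * n + 3) → ℝ, v ⬝ᵥ v = 1 →
        Fh (Jm (fun a => CL cov (ξ a) x0) (fun j => e j x0) 0) T v < 4 := by
      intro v hv
      rw [hT]
      refine sp.Fstrict hn' ha.onp (by norm_num) (fun u h1 h2 => ?_) v hv
      have h4 := hK x0 u h1 h2
      have h5 := hx0 u h1 h2
      have h6 := lt_of_le_of_ne h4 h5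
      have h7 : (inner ℝ (R x0 u (CL cov (ξ 0) x0 u) (CL cov (ξ 0) x0 u)) u : ℝ) < 5 := h6
      linarith
    obtain ⟨v0, hv0, hmax⟩ := Sph_compact.exists_isMaxOn hne
      (Fh_contu (Jm (fun a => CL cov (ξ a) x0) (fun j => e j x0) 0) T).continuousOn
    obtain ⟨l, hl⟩ : ∃ l, l = mx (Jm (fun a => CL cov (ξ a) x0) (fun j => e j x0) 0) T :=
      ⟨_, rfl⟩
    have hmx : l < 4 := by
      rw [hl]
      exact lt_of_le_of_lt (mx_le _ _ hne fun u hu => hmax hu) (hstr v0 hv0)
    have hz := (hzero x0 e ha he).2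
    rw [← hT] at hk hz
    have h5 := cubic_le hq (n := n) (by simp) hk (l := l) (fun u => by
      rw [hl]; exact le_mx _ _ u)
    have hnS := nS_nonneg T
    have hnS0 : nS T = 0 := by
      by_contra hne0
      have hpos : 0 < nS T := lt_of_le_of_ne hnS (Ne.symm hne0)
      have h6 : 0 < (n : ℝ) + 2 := by positivity
      have h7 : 0 < ((n : ℝ) + 2) * nS T * (4 - l) := by
        have : 0 < 4 - l := by linarith
        positivity
      nlinarith
    have hR0 := (lap3 h hR s hn ha he).2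
    rw [← hT, hnS0] at hR0
    obtain ⟨x, u, v, w, hne1⟩ := hc1
    apply hne1
    obtain ⟨e1, ha1, he1⟩ := frame3 s hn h x
    have hfd1 : FiniteDimensional ℝ (TangentSpace I x) := inferInstanceAs (FiniteDimensional ℝ E)
    have hn1 : Module.finrank ℝ (TangentSpace I x) = 4 * n + 3 := hn
    have hR1 := (lap3 h hR s hn ha1 he1).2
    rw [hconst x x0, hR0] at hR1
    have hS1 : nS (Tt (R x) fun j => e1 j x) = 0 := by linarith
    have hT0 := zero_of_nS hS1
    have hTO : TO (R x) u v w = 0 := by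
      apply ext_inner_right ℝ
      intro t
      have g1 := on_expand hn1 (fun j => e1 j x) ha1.onp u
      have g2 := on_expand hn1 (fun j => e1 j x) ha1.onp v
      have g3 := on_expand hn1 (fun j => e1 j x) ha1.onp w
      have g4 := on_expand hn1 (fun j => e1 j x) ha1.onp t
      rw [g1, g2, g3, g4, ← T4_geo, T4_eq, inner_zero_left]
      refine Finset.sum_eq_zero fun a _ => Finset.sum_eq_zero fun b _ =>
        Finset.sum_eq_zero fun c _ => Finset.sum_eq_zero fun d _ => ?_
      rw [hT0, zero_mul]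
    unfold TO at hTO
    exact sub_eq_zero.1 hTO

end Pool.Agent.L5helper93.Sas

end
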