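import Mathlib
import Pool.Agent.L5helper93.Sas.Main
import Pool.Agent.L5helper93.Sas.Four

/-!
# Horizontally parallel curvature
-/

open Bundle Manifold ContDiff VectorField Filter
open scoped Topology

set_option linter.unusedSectionVars false
set_option linter.unusedVariables false
set_option linter.unusedSimpArgs false

noncomputable section

namespace Pool.Agent.L5helper93.Sas

open Pool.Agent.Results.MP_b296c2_gt
open Pool.Agent.Results.MP_b296c2_gt.Riemannian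
open Pool.Agent.L5helper93.Ein Pool.Agent.L5helper93.Geo Matrix

/-! ### Vertical vectors in the slots -/

section Slots

variable {V : Type*} [NormedAddCommGroup V] [InnerProductSpace ℝ V] [FiniteDimensional ℝ V]
  {R : V →ₗ[ℝ] V →ₗ[ℝ] V →ₗ[ℝ] V} {C : Fin 3 → V →ₗ[ℝ] V} {ζ : Fin 3 → V} (s : PtSas R C ζ)

include s

theorem PtSas.ks1 (u b c d : V) (r : Fin 3 → ℝ) :
    (inner ℝ (TO R (u + ∑ a, r a • ζ a) b c) d : ℝ) = inner ℝ (TO R u b c) d := by
  rw [TO_add1, TO_sum1]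
  simp only [TO_smul1, s.TO_kill1, smul_zero, Finset.sum_const_zero, add_zero]

theorem PtSas.ks2 (u b c d : V) (r : Fin 3 → ℝ) :
    (inner ℝ (TO R u (b + ∑ a, r a • ζ a) c) d : ℝ) = inner ℝ (TO R u b c) d := by
  rw [TO_anti s.curv, inner_neg_left, s.ks1, ← inner_neg_left, ← TO_anti s.curv]

theorem PtSas.ks3 (u b c d : V) (r : Fin 3 → ℝ) :
    (inner ℝ (TO R u b (c + ∑ a, r a • ζ a)) d : ℝ) = inner ℝ (TO R u b c) d := by
  rw [TO_add3, TO_sum3]
  simp only [TO_smul3, s.TO_kill, smul_zero, Finset.sum_const_zero, add_zero]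

theorem PtSas.ks4 (u b c d : V) (r : Fin 3 → ℝ) :
    (inner ℝ (TO R u b c) (d + ∑ a, r a • ζ a) : ℝ) = inner ℝ (TO R u b c) d := by
  rw [TO_skew s.curv, s.ks3, ← TO_skew s.curv]

end Slots

section Fields

variable {E : Type*} [NormedAddCommGroup E] [NormedSpace ℝ E] [FiniteDimensional ℝ E]
  {H : Type*} [TopologicalSpace H] {I : ModelWithCorners ℝ E H}
  {M : Type*} [TopologicalSpace M] [ChartedSpace H M] [IsManifold I ∞ M]
  [RiemannianBundle (fun x : M => TangentSpace I x)]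
  [IsContMDiffRiemannianBundle I ∞ E (fun x : M => TangentSpace I x)]
  [T2Space M] [SigmaCompactSpace M] [Nontrivial E]
  {cov : CovariantDerivative I E (TangentSpace I : M → Type _)}

/-- The difference from the curvature tensor of the unit sphere, on fields. -/
def PF (R : CurvField I M) (X Y Z W : Π x : M, TangentSpace I x) : M → ℝ :=
  fun y => inner ℝ (TO (R y) (X y) (Y y) (Z y)) (W y)

/-- The covariant derivative corrected by vertical vectors. -/
def PH (cov : CovariantDerivative I E (TangentSpace I : M → Type _))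
    (ξ : Fin 3 → Π x : M, TangentSpace I x) (V X : Π x : M, TangentSpace I x) :
    Π x : M, TangentSpace I x :=
  fun y => nabla cov V X y + ∑ a, (inner ℝ (nabla cov V (ξ a) y) (X y) : ℝ) • ξ a y

/-- Horizontal fields. -/
def HF (ξ : Fin 3 → Π x : M, TangentSpace I x) (X : Π x : M, TangentSpace I x) : Prop :=
  CMDiff ∞ (T% X) ∧ ∀ a y, inner ℝ (ξ a y) (X y) = (0 : ℝ)

variable (h : IsLeviCivita cov) {R : CurvField I M} (hR : IsRiemannTensor cov R)
  {ξ : Fin 3 → Π x : M, TangentSpace I x} (s : S3 cov ξ)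

include s in
/-- The horizontal part of a field. -/
theorem exists_hf (z : M) (v : TangentSpace I z) (hv : ∀ a, inner ℝ (ξ a z) v = (0 : ℝ)) :
    ∃ X : Π x : M, TangentSpace I x, HF ξ X ∧ X z = v := by
  obtain ⟨X, hX, hz⟩ := exists_smooth_field (I := I) z v
  refine ⟨fun y => X y - ∑ a, (inner ℝ (ξ a y) (X y) : ℝ) • ξ a y, ⟨?_, ?_⟩, ?_⟩
  · exact sm_sub hX (sm_sum Finset.univ fun a => sm_smul (smooth_inner (s.sm a) hX) (s.sm a))
  · intro b y
    rw [inner_sub_right, inner_sum]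
    simp only [real_inner_smul_right, s.on]
    simp
  · beta_reduce
    rw [hz]
    simp [hv]

include h s in
theorem hf_PH {V X : Π x : M, TangentSpace I x} (hV : CMDiff ∞ (T% V)) (hX : HF ξ X) :
    HF ξ (PH cov ξ V X) := by
  refine ⟨?_, ?_⟩
  · exact sm_add (sm_nabla h hV hX.1) (sm_sum Finset.univ fun a =>
      sm_smul (smooth_inner (sm_nabla h hV (s.sm a)) hX.1) (s.sm a))
  · intro b y
    have h1 := dinner h.metric (s.sm b) hX.1 y (V y)
    have h2 : (fun y => inner ℝ (ξ b y) (X y)) = fun _ => (0 : ℝ) := by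
      ext y; exact hX.2 b y
    rw [h2, mvfderiv_const] at h1
    have h3 : (0 : ℝ) = inner ℝ (cov (ξ b) y (V y)) (X y) + inner ℝ (ξ b y) (cov X y (V y)) := h1
    unfold PH
    rw [inner_add_right, inner_sum]
    simp only [real_inner_smul_right, s.on]
    simp
    unfold nabla
    linarith

include h hR in
theorem sm_PF {X Y Z W : Π x : M, TangentSpace I x} (hX : CMDiff ∞ (T% X))
    (hY : CMDiff ∞ (T% Y)) (hZ : CMDiff ∞ (T% Z)) (hW : CMDiff ∞ (T% W)) :
    CMDiff ∞ (PF R X Y Z W) := by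
  have e : PF R X Y Z W = fun y => TF R X Y Z W y - (inner ℝ (Y y) (Z y) * inner ℝ (X y) (W y) -
      inner ℝ (X y) (Z y) * inner ℝ (Y y) (W y)) := by
    ext y
    unfold PF TO TF RF
    simp only [inner_sub_left, real_inner_smul_left]
  rw [e]
  exact (sm_TF h hR hX hY hZ hW).sub (((smooth_inner hY hZ).mul (smooth_inner hX hW)).sub
    ((smooth_inner hX hZ).mul (smooth_inner hY hW)))

include h hR s

/-- The derivative of the form on horizontal fields. -/
theorem dPF (hpar : ∀ ⦃V X Y Z W : Π x : M, TangentSpace I x⦄, CMDiff ∞ (T% V) →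
      CMDiff ∞ (T% X) → CMDiff ∞ (T% Y) → CMDiff ∞ (T% Z) → CMDiff ∞ (T% W) → ∀ z,
      (∀ a, inner ℝ (ξ a z) (X z) = (0 : ℝ)) → (∀ a, inner ℝ (ξ a z) (Y z) = (0 : ℝ)) →
      (∀ a, inner ℝ (ξ a z) (Z z) = (0 : ℝ)) → (∀ a, inner ℝ (ξ a z) (W z) = (0 : ℝ)) →
      GF cov R V X Y Z W z = 0)
    {V X Y Z W : Π x : M, TangentSpace I x} (hV : CMDiff ∞ (T% V)) (hX : HF ξ X) (hY : HF ξ Y)
    (hZ : HF ξ Z) (hW : HF ξ W) (y : M) :
    d% (PF R X Y Z W) y (V y) = PF R (PH cov ξ V X) Y Z W y + PF R X (PH cov ξ V Y) Z W y +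
      PF R X Y (PH cov ξ V Z) W y + PF R X Y Z (PH cov ξ V W) y := by
  have hfd : FiniteDimensional ℝ (TangentSpace I y) := inferInstanceAs (FiniteDimensional ℝ E)
  have sp := s.pt h hR y
  have e : PF R X Y Z W = fun y => TF R X Y Z W y - (inner ℝ (Y y) (Z y) * inner ℝ (X y) (W y) -
      inner ℝ (X y) (Z y) * inner ℝ (Y y) (W y)) := by
    ext y
    unfold PF TO TF RF
    simp only [inner_sub_left, real_inner_smul_left]
  have i1 := smooth_inner hY.1 hZ.1
  have i2 := smooth_inner hX.1 hW.1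
  have i3 := smooth_inner hX.1 hZ.1
  have i4 := smooth_inner hY.1 hW.1
  have g := hpar hV hX.1 hY.1 hZ.1 hW.1 y (fun a => hX.2 a y) (fun a => hY.2 a y)
    (fun a => hZ.2 a y) (fun a => hW.2 a y)
  have i12 : CMDiff ∞ (fun y => (inner ℝ (Y y) (Z y) * inner ℝ (X y) (W y) : ℝ)) := i1.mul i2
  have i34 : CMDiff ∞ (fun y => (inner ℝ (X y) (Z y) * inner ℝ (Y y) (W y) : ℝ)) := i3.mul i4
  have i5 : CMDiff ∞ (fun y => (inner ℝ (Y y) (Z y) * inner ℝ (X y) (W y) -
      inner ℝ (X y) (Z y) * inner ℝ (Y y) (W y) : ℝ)) := i12.sub i34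
  rw [e, d_sub (sm_TF h hR hX.1 hY.1 hZ.1 hW.1) i5,
    d_sub i12 i34, d_mul i1 i2, d_mul i3 i4, dTF_field h hR hX.1 hY.1 hZ.1 hW.1,
    g, dinner h.metric hY.1 hZ.1, dinner h.metric hX.1 hW.1, dinner h.metric hX.1 hZ.1,
    dinner h.metric hY.1 hW.1]
  unfold PF PH
  rw [sp.ks1, sp.ks2, sp.ks3, sp.ks4]
  unfold TO TF RF nabla
  simp only [inner_sub_left, real_inner_smul_left]
  ring

/-- The curvature operator of the base. -/
def AA (cov : CovariantDerivative I E (TangentSpace I : M → Type _)) (R : CurvField I M)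
    (ξ : Fin 3 → Π x : M, TangentSpace I x) (z : M) (u w v : TangentSpace I z) :
    TangentSpace I z :=
  R z u w v + ∑ a, ((inner ℝ (cov (ξ a) z w) v : ℝ) • cov (ξ a) z u -
    (inner ℝ (cov (ξ a) z u) v : ℝ) • cov (ξ a) z w)

theorem PH_PH {U V X : Π x : M, TangentSpace I x} (hU : CMDiff ∞ (T% U)) (hV : CMDiff ∞ (T% V))
    (hX : HF ξ X) {z : M} (hU0 : ∀ w : TangentSpace I z, cov U z w = 0)
    (hV0 : ∀ w : TangentSpace I z, cov V z w = 0) : ∃ r : Fin 3 → ℝ,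
    PH cov ξ U (PH cov ξ V X) z - PH cov ξ V (PH cov ξ U X) z =
      AA cov R ξ z (U z) (V z) (X z) + ∑ a, r a • ξ a z := by
  have key : ∀ U V : Π x : M, TangentSpace I x, CMDiff ∞ (T% U) → CMDiff ∞ (T% V) →
      ∃ r : Fin 3 → ℝ, PH cov ξ U (PH cov ξ V X) z = cov (nabla cov V X) z (U z) +
      ∑ a, (inner ℝ (cov (ξ a) z (V z)) (X z) : ℝ) • cov (ξ a) z (U z) + ∑ a, r a • ξ a z := by
    intro U V hU hV
    have s0 : ∀ a, CMDiff ∞ (fun y => inner ℝ (nabla cov V (ξ a) y) (X y)) := fun a =>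
      smooth_inner (sm_nabla h hV (s.sm a)) hX.1
    refine ⟨fun a => d% (fun y => inner ℝ (nabla cov V (ξ a) y) (X y)) z (U z) +
      inner ℝ (nabla cov U (ξ a) z) (PH cov ξ V X z), ?_⟩
    have e1 : PH cov ξ U (PH cov ξ V X) z = cov (PH cov ξ V X) z (U z) +
      ∑ a, (inner ℝ (nabla cov U (ξ a) z) (PH cov ξ V X z) : ℝ) • ξ a z := rfl
    have e2 : cov (PH cov ξ V X) z (U z) = cov (nabla cov V X) z (U z) +
        ∑ a, ((inner ℝ (nabla cov V (ξ a) z) (X z) : ℝ) • cov (ξ a) z (U z) +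
          d% (fun y => inner ℝ (nabla cov V (ξ a) y) (X y)) z (U z) • ξ a z) := by
      have e3 : PH cov ξ V X = fun y => nabla cov V X y +
          ∑ a, (inner ℝ (nabla cov V (ξ a) y) (X y) : ℝ) • ξ a y := rfl
      rw [e3, cov_add' cov (sm_nabla h hV hX.1) (sm_sum Finset.univ fun a =>
        sm_smul (s0 a) (s.sm a)), cov_sum' cov Finset.univ fun a => sm_smul (s0 a) (s.sm a)]
      congr 1
      refine Finset.sum_congr rfl fun a _ => ?_
      rw [cov_smul' cov (s0 a) (s.sm a)]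
    rw [e1, e2]
    simp only [add_smul, Finset.sum_add_distrib]
    have e4 : ∀ a, nabla cov V (ξ a) z = cov (ξ a) z (V z) := fun a => rfl
    simp only [e4]
    abel
  obtain ⟨r, hr⟩ := key U V hU hV
  obtain ⟨r', hr'⟩ := key V U hV hU
  refine ⟨fun a => r a - r' a, ?_⟩
  have hb0 : mlieBracket I U V z = 0 := by
    rw [← h.torsionFree hU hV z, hU0, hV0, sub_zero]
  have h1 := hR hU hV hX.1 z
  simp only [curv] at h1
  rw [hb0, map_zero, sub_zero] at h1
  rw [hr, hr']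
  unfold AA
  rw [h1]
  simp only [sub_smul, Finset.sum_sub_distrib]
  abel

theorem par_der (hpar : ∀ ⦃V X Y Z W : Π x : M, TangentSpace I x⦄, CMDiff ∞ (T% V) →
      CMDiff ∞ (T% X) → CMDiff ∞ (T% Y) → CMDiff ∞ (T% Z) → CMDiff ∞ (T% W) → ∀ z,
      (∀ a, inner ℝ (ξ a z) (X z) = (0 : ℝ)) → (∀ a, inner ℝ (ξ a z) (Y z) = (0 : ℝ)) →
      (∀ a, inner ℝ (ξ a z) (Z z) = (0 : ℝ)) → (∀ a, inner ℝ (ξ a z) (W z) = (0 : ℝ)) →
      GF cov R V X Y Z W z = 0)
    (z : M) (u w a b c d : TangentSpace I z) (ha : ∀ i, inner ℝ (ξ i z) a = (0 : ℝ))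
    (hb : ∀ i, inner ℝ (ξ i z) b = (0 : ℝ)) (hc : ∀ i, inner ℝ (ξ i z) c = (0 : ℝ))
    (hd : ∀ i, inner ℝ (ξ i z) d = (0 : ℝ)) :
    (inner ℝ (TO (R z) (AA cov R ξ z u w a) b c) d : ℝ) +
      inner ℝ (TO (R z) a (AA cov R ξ z u w b) c) d +
      inner ℝ (TO (R z) a b (AA cov R ξ z u w c)) d +
      inner ℝ (TO (R z) a b c) (AA cov R ξ z u w d) = 0 := by
  obtain ⟨U, hU, rfl, hU0⟩ := exists_adapted cov z u
  obtain ⟨V, hV, rfl, hV0⟩ := exists_adapted cov z w
  obtain ⟨X, hX, rfl⟩ := exists_hf s z a ha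
  obtain ⟨Y, hY, rfl⟩ := exists_hf s z b hb
  obtain ⟨Z, hZ, rfl⟩ := exists_hf s z c hc
  obtain ⟨W, hW, rfl⟩ := exists_hf s z d hd
  have hfd : FiniteDimensional ℝ (TangentSpace I z) := inferInstanceAs (FiniteDimensional ℝ E)
  have sp := s.pt h hR z
  have second : ∀ U V : Π x : M, TangentSpace I x, CMDiff ∞ (T% U) → CMDiff ∞ (T% V) →
      d% (fun y => d% (PF R X Y Z W) y (V y)) z (U z) =
      PF R (PH cov ξ U (PH cov ξ V X)) Y Z W z + PF R (PH cov ξ V X) (PH cov ξ U Y) Z W z +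
      PF R (PH cov ξ V X) Y (PH cov ξ U Z) W z + PF R (PH cov ξ V X) Y Z (PH cov ξ U W) z +
      (PF R (PH cov ξ U X) (PH cov ξ V Y) Z W z + PF R X (PH cov ξ U (PH cov ξ V Y)) Z W z +
      PF R X (PH cov ξ V Y) (PH cov ξ U Z) W z + PF R X (PH cov ξ V Y) Z (PH cov ξ U W) z) +
      (PF R (PH cov ξ U X) Y (PH cov ξ V Z) W z + PF R X (PH cov ξ U Y) (PH cov ξ V Z) W z +
      PF R X Y (PH cov ξ U (PH cov ξ V Z)) W z + PF R X Y (PH cov ξ V Z) (PH cov ξ U W) z) +
      (PF R (PH cov ξ U X) Y Z (PH cov ξ V W) z + PF R X (PH cov ξ U Y) Z (PH cov ξ V W) z +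
      PF R X Y (PH cov ξ U Z) (PH cov ξ V W) z + PF R X Y Z (PH cov ξ U (PH cov ξ V W)) z) := by
    intro U V hU hV
    have pX := hf_PH h s hV hX
    have pY := hf_PH h s hV hY
    have pZ := hf_PH h s hV hZ
    have pW := hf_PH h s hV hW
    have e : (fun y => d% (PF R X Y Z W) y (V y)) = fun y => PF R (PH cov ξ V X) Y Z W y +
        PF R X (PH cov ξ V Y) Z W y + PF R X Y (PH cov ξ V Z) W y +
        PF R X Y Z (PH cov ξ V W) y := by
      ext y
      exact dPF h hR s hpar hV hX hY hZ hW y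
    have t1 := sm_PF h hR pX.1 hY.1 hZ.1 hW.1
    have t2 := sm_PF h hR hX.1 pY.1 hZ.1 hW.1
    have t3 := sm_PF h hR hX.1 hY.1 pZ.1 hW.1
    have t4 := sm_PF h hR hX.1 hY.1 hZ.1 pW.1
    have t12 : CMDiff ∞ (fun y => PF R (PH cov ξ V X) Y Z W y +
        PF R X (PH cov ξ V Y) Z W y) := t1.add t2
    have t123 : CMDiff ∞ (fun y => PF R (PH cov ξ V X) Y Z W y +
        PF R X (PH cov ξ V Y) Z W y + PF R X Y (PH cov ξ V Z) W y) := t12.add t3
    rw [e, d_add t123 t4, d_add t12 t3, d_add t1 t2, dPF h hR s hpar hU pX hY hZ hW,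
      dPF h hR s hpar hU hX pY hZ hW, dPF h hR s hpar hU hX hY pZ hW,
      dPF h hR s hpar hU hX hY hZ pW]
  have hb0 : mlieBracket I U V z = 0 := by
    rw [← h.torsionFree hU hV z, hU0, hV0, sub_zero]
  have sf := sm_PF h hR hX.1 hY.1 hZ.1 hW.1
  have h1 := comm_fun sf hU hV (smooth_d sf hU) (smooth_d sf hV) z
  rw [hb0, map_zero, second U V hU hV, second V U hV hU] at h1
  obtain ⟨r1, g1⟩ := PH_PH h hR s hU hV hX hU0 hV0
  obtain ⟨r2, g2⟩ := PH_PH h hR s hU hV hY hU0 hV0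
  obtain ⟨r3, g3⟩ := PH_PH h hR s hU hV hZ hU0 hV0
  obtain ⟨r4, g4⟩ := PH_PH h hR s hU hV hW hU0 hV0
  have m1 : PF R (PH cov ξ U (PH cov ξ V X)) Y Z W z - PF R (PH cov ξ V (PH cov ξ U X)) Y Z W z =
      inner ℝ (TO (R z) (AA cov R ξ z (U z) (V z) (X z)) (Y z) (Z z)) (W z) := by
    rw [← sp.ks1 _ _ _ _ r1, ← g1]
    unfold PF TO
    simp only [map_sub, LinearMap.sub_apply, inner_sub_left, real_inner_smul_left]
    ring
  have m2 : PF R X (PH cov ξ U (PH cov ξ V Y)) Z W z - PF R X (PH cov ξ V (PH cov ξ U Y)) Z W z =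
      inner ℝ (TO (R z) (X z) (AA cov R ξ z (U z) (V z) (Y z)) (Z z)) (W z) := by
    rw [← sp.ks2 _ _ _ _ r2, ← g2]
    unfold PF TO
    simp only [map_sub, LinearMap.sub_apply, inner_sub_left, real_inner_smul_left]
    ring
  have m3 : PF R X Y (PH cov ξ U (PH cov ξ V Z)) W z - PF R X Y (PH cov ξ V (PH cov ξ U Z)) W z =
      inner ℝ (TO (R z) (X z) (Y z) (AA cov R ξ z (U z) (V z) (Z z))) (W z) := by
    rw [← sp.ks3 _ _ _ _ r3, ← g3]
    unfold PF TO
    simp only [map_sub, LinearMap.sub_apply, inner_sub_left, inner_sub_right,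
      real_inner_smul_left]
    ring
  have m4 : PF R X Y Z (PH cov ξ U (PH cov ξ V W)) z - PF R X Y Z (PH cov ξ V (PH cov ξ U W)) z =
      inner ℝ (TO (R z) (X z) (Y z) (Z z)) (AA cov R ξ z (U z) (V z) (W z)) := by
    rw [← sp.ks4 _ _ _ _ r4, ← g4]
    unfold PF
    rw [inner_sub_right]
  linarith

end Fields

/-! ### Coordinates -/

section Coord

variable {V : Type*} [NormedAddCommGroup V] [InnerProductSpace ℝ V] [FiniteDimensional ℝ V]
  {R : V →ₗ[ℝ] V →ₗ[ℝ] V →ₗ[ℝ] V} {C : Fin 3 → V →ₗ[ℝ] V} {ζ : Fin 3 → V} {N : ℕ}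
  {w : Fin N → V} (hN : Module.finrank ℝ V = N)
  (hw : ∀ i j, (inner ℝ (w i) (w j) : ℝ) = if i = j then 1 else 0)

/-- The vector with the given coordinates. -/
def lin (w : Fin N → V) (u : Fin N → ℝ) : V := ∑ i, u i • w i

theorem lin_add (u u' : Fin N → ℝ) : lin w (u + u') = lin w u + lin w u' := by
  unfold lin
  simp only [Pi.add_apply, add_smul, Finset.sum_add_distrib]

theorem lin_sub (u u' : Fin N → ℝ) : lin w (u - u') = lin w u - lin w u' := by
  unfold lin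
  simp only [Pi.sub_apply, sub_smul, Finset.sum_sub_distrib]

theorem lin_smul (r : ℝ) (u : Fin N → ℝ) : lin w (r • u) = r • lin w u := by
  unfold lin
  simp only [Pi.smul_apply, smul_eq_mul, mul_smul, Finset.smul_sum]

theorem lin_sum {κ : Type*} (s : Finset κ) (f : κ → Fin N → ℝ) :
    lin w (∑ a ∈ s, f a) = ∑ a ∈ s, lin w (f a) := by
  classical
  induction s using Finset.induction_on with
  | empty => unfold lin; simp
  | insert a s ha ih => rw [Finset.sum_insert ha, Finset.sum_insert ha, lin_add, ih]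

theorem T4_lin (a b c d : Fin N → ℝ) : T4 (Tt R w) a b c d =
    inner ℝ (TO R (lin w a) (lin w b) (lin w d)) (lin w c) := T4_geo a b c d

include hN hw

theorem lin_J (a : Fin 3) (u : Fin N → ℝ) : lin w (Jm C w a *ᵥ u) = - C a (lin w u) := by
  have h1 := on_expand hN w hw (C a (lin w u))
  rw [h1, ← Finset.sum_neg_distrib]
  unfold lin
  refine Finset.sum_congr rfl fun i _ => ?_
  rw [← neg_smul]
  congr 1
  rw [map_sum, sum_inner, Matrix.mulVec]
  unfold dotProduct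
  rw [← Finset.sum_neg_distrib]
  refine Finset.sum_congr rfl fun j _ => ?_
  simp only [Jm, Matrix.of_apply, map_smul, real_inner_smul_left]
  rw [real_inner_comm (w i)]
  ring

theorem lin_RV (u v z : Fin N → ℝ) : lin w (RV (Tt R w) u v z) =
    TO R (lin w u) (lin w v) (lin w z) := by
  have h1 := on_expand hN w hw (TO R (lin w u) (lin w v) (lin w z))
  rw [h1]
  unfold lin
  refine Finset.sum_congr rfl fun i _ => ?_
  congr 1
  unfold RV
  rw [T4_geo]
  congr 1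
  rw [Finset.sum_eq_single i]
  · rw [Pi.single_eq_same, one_smul]
  · intro b _ hb
    rw [Pi.single_eq_of_ne hb, zero_smul]
  · simp

/-- The curvature operator of the base. -/
def AP (R : V →ₗ[ℝ] V →ₗ[ℝ] V →ₗ[ℝ] V) (C : Fin 3 → V →ₗ[ℝ] V) (u w v : V) : V :=
  R u w v + ∑ a, ((inner ℝ (C a w) v : ℝ) • C a u - (inner ℝ (C a u) v : ℝ) • C a w)

theorem lin_Am (u v z : Fin N → ℝ) : lin w (Am (Jm C w) (Tt R w) u v z) =
    AP R C (lin w u) (lin w v) (lin w z) := by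
  have hd : ∀ a b : Fin N → ℝ, a ⬝ᵥ b = inner ℝ (lin w a) (lin w b) := fun a b =>
    (inner_lin a b hw).symm
  unfold Am
  rw [lin_sub, lin_sub, lin_add, lin_sum, lin_smul, lin_smul, lin_RV hN hw]
  simp only [lin_sub, lin_smul, lin_J hN hw, hd]
  unfold AP TO
  simp only [inner_neg_left, neg_smul, smul_neg, Finset.sum_sub_distrib]
  abel_nf

theorem Fh_coord (H : V) : Fh (Jm C w 0) (Tt R w) (fun i => inner ℝ H (w i)) =
    inner ℝ (TO R H (C 0 H) (C 0 H)) H := by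
  have h1 : lin w (fun i => inner ℝ H (w i)) = H := (on_expand hN w hw H).symm
  unfold Fh
  rw [T4_lin, lin_J hN hw, h1]
  have h2 : (- C 0 H : V) = (-1 : ℝ) • C 0 H := by simp
  rw [h2, TO_smul2, TO_smul3, smul_smul]
  norm_num

theorem PtSas.max4 (s : PtSas R C ζ) (hN0 : 0 < N)
    (hA : ∀ u v a b c d : V, (∀ i, (inner ℝ (ζ i) a : ℝ) = 0) →
      (∀ i, (inner ℝ (ζ i) b : ℝ) = 0) → (∀ i, (inner ℝ (ζ i) c : ℝ) = 0) →
      (∀ i, (inner ℝ (ζ i) d : ℝ) = 0) →
      (inner ℝ (TO R (AP R C u v a) b c) d : ℝ) + inner ℝ (TO R a (AP R C u v b) c) d +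
      inner ℝ (TO R a b (AP R C u v c)) d + inner ℝ (TO R a b c) (AP R C u v d) = 0)
    (H : V) (h1 : (inner ℝ H H : ℝ) = 1) : (inner ℝ (TO R H (C 0 H) (C 0 H)) H : ℝ) ≤ 4 := by
  have hq := s.quat hN hw
  have hk := s.hkt hN hw
  obtain ⟨T, hT⟩ : ∃ T, T = Tt R w := ⟨_, rfl⟩
  rw [← hT] at hk
  have hne : (Sph (Fin N)).Nonempty := by
    refine ⟨Pi.single ⟨0, hN0⟩ 1, ?_⟩
    show (Pi.single ⟨0, hN0⟩ 1 : Fin N → ℝ) ⬝ᵥ Pi.single ⟨0, hN0⟩ 1 = 1
    simp
  obtain ⟨v0, hv0, hmax⟩ := Sph_compact.exists_isMaxOn hne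
    (Fh_contu (Jm C w 0) T).continuousOn
  obtain ⟨l, hl⟩ : ∃ l, l = mx (Jm C w 0) T := ⟨_, rfl⟩
  have hv1 : v0 ⬝ᵥ v0 = 1 := hv0
  have hle : ∀ u, Fh (Jm C w 0) T u ≤ l * (u ⬝ᵥ u) ^ 2 := fun u => by
    rw [hl]; exact le_mx _ _ u
  have he : Fh (Jm C w 0) T v0 = l := by
    apply le_antisymm
    · have := hle v0
      rw [hv1] at this
      linarith
    · rw [hl]
      exact mx_le _ _ hne fun u hu => hmax hu
  have hl4 : l ≤ 4 := by
    by_contra hcon
    push Not at hcon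
    have := hk.max_four hq (by linarith) hv1 hle he (by
      intro u w' a b c d _ _ ha hb hc hd
      have hz : ∀ a : Fin N → ℝ, (∀ i, vv ζ w i ⬝ᵥ a = 0) →
          ∀ i, (inner ℝ (ζ i) (lin w a) : ℝ) = 0 := by
        intro a ha i
        rw [← ha i]
        unfold lin vv dotProduct
        rw [inner_sum]
        refine Finset.sum_congr rfl fun j _ => ?_
        rw [real_inner_smul_right, mul_comm]
      have h2 := hA (lin w u) (lin w w') (lin w a) (lin w b) (lin w d) (lin w c) (hz a ha)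
        (hz b hb) (hz d hd) (hz c hc)
      unfold Der
      rw [hT, T4_lin, T4_lin, T4_lin, T4_lin, lin_Am hN hw, lin_Am hN hw, lin_Am hN hw,
        lin_Am hN hw]
      linarith)
    linarith
  have h2 := hle (fun i => inner ℝ H (w i))
  rw [hT, Fh_coord hN hw] at h2
  have h3 : (fun i => (inner ℝ H (w i) : ℝ)) ⬝ᵥ (fun i => (inner ℝ H (w i) : ℝ)) = 1 := by
    rw [← inner_lin _ _ hw, ← on_expand hN w hw H, h1]
  rw [h3] at h2
  linarith

end Coord

section Fields2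

variable {E : Type*} [NormedAddCommGroup E] [NormedSpace ℝ E] [FiniteDimensional ℝ E]
  {H : Type*} [TopologicalSpace H] {I : ModelWithCorners ℝ E H}
  {M : Type*} [TopologicalSpace M] [ChartedSpace H M] [IsManifold I ∞ M]
  [RiemannianBundle (fun x : M => TangentSpace I x)]
  [IsContMDiffRiemannianBundle I ∞ E (fun x : M => TangentSpace I x)]
  [T2Space M] [SigmaCompactSpace M] [Nontrivial E]
  {cov : CovariantDerivative I E (TangentSpace I : M → Type _)}
  (h : IsLeviCivita cov) {R : CurvField I M} (hR : IsRiemannTensor cov R)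
  {ξ : Fin 3 → Π x : M, TangentSpace I x} (s : S3 cov ξ)

include h hR s

theorem sas_conv {n : ℕ} (hn : Module.finrank ℝ E = 4 * n + 3)
    (hpar : ∀ ⦃V X Y Z W : Π x : M, TangentSpace I x⦄, CMDiff ∞ (T% V) →
      CMDiff ∞ (T% X) → CMDiff ∞ (T% Y) → CMDiff ∞ (T% Z) → CMDiff ∞ (T% W) → ∀ z,
      (∀ a, inner ℝ (ξ a z) (X z) = (0 : ℝ)) → (∀ a, inner ℝ (ξ a z) (Y z) = (0 : ℝ)) →
      (∀ a, inner ℝ (ξ a z) (Z z) = (0 : ℝ)) → (∀ a, inner ℝ (ξ a z) (W z) = (0 : ℝ)) →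
      GF cov R V X Y Z W z = 0)
    (x : M) (u : TangentSpace I x) (h1 : inner ℝ u u = (1 : ℝ))
    (hu : ∀ a, inner ℝ (ξ a x) u = (0 : ℝ)) :
    (inner ℝ (R x u (cov (ξ 0) x u) (cov (ξ 0) x u)) u : ℝ) ≤ 5 := by
  obtain ⟨e, ha, he⟩ := frame3 s hn h x
  have hfd : FiniteDimensional ℝ (TangentSpace I x) := inferInstanceAs (FiniteDimensional ℝ E)
  have hn' : Module.finrank ℝ (TangentSpace I x) = 4 * n + 3 := hn
  have sp := s.pt h hR x
  have h2 := sp.max4 hn' ha.onp (by omega) (fun u v a b c d ha hb hc hd =>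
    par_der h hR s hpar x u v a b c d ha hb hc hd) u h1
  have h3 := sp.form_hor (hu 0)
  rw [h3, h1] at h2
  have h4 : (inner ℝ (R x u (CL cov (ξ 0) x u) (CL cov (ξ 0) x u)) u : ℝ) ≤ 5 := by linarith
  exact h4

end Fields2

end Pool.Agent.L5helper93.Sas

end
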