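import Mathlib
import Pool.Agent.L5helper93.Sas.Four

/-!
# The minimum of the holomorphic sectional curvature in the symmetric case
-/

namespace Pool.Agent.L5helper93.Sas

open Finset Matrix Pool.Agent.L5helper93.Ein

set_option linter.unusedSectionVars false
set_option linter.unusedVariables false
set_option linter.unusedSimpArgs false

noncomputable section

variable {ι : Type*} [Fintype ι] [DecidableEq ι] {A B : ι → ι → ι → ι → ℝ}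
  {J : Fin 3 → Matrix ι ι ℝ} {v : Fin 3 → ι → ℝ}

/-- First and second order conditions at a minimum. -/
theorem HKT.conditions_min (h : HKT J v A) (q : Quat J v) {x : ι → ℝ} {l : ℝ}
    (hx : x ⬝ᵥ x = 1) (hF : ∀ u, l * (u ⬝ᵥ u) ^ 2 ≤ Fh (J 0) A u) (he : Fh (J 0) A x = l)
    (w : ι → ℝ) : T4 A x (J 0 *ᵥ w) x (J 0 *ᵥ x) = l * (x ⬝ᵥ w) ∧
      l * (2 * (w ⬝ᵥ w) + 4 * (x ⬝ᵥ w) ^ 2) ≤
        2 * T4 A x w x w + 6 * T4 A x (J 0 *ᵥ w) x (J 0 *ᵥ w) := by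
  have h' := h.smul (-1)
  have e : ∀ u, Fh (J 0) (fun a b c d => -1 * A a b c d) u = - Fh (J 0) A u := by
    intro u
    unfold Fh
    rw [T4_smulA]
    ring
  have c := h'.conditions q (x := x) (l := -l) hx (fun u => by rw [e]; have := hF u; linarith)
    (by rw [e, he]) w
  rw [T4_smulA, T4_smulA, T4_smulA] at c
  exact ⟨by linarith [c.1], by linarith [c.2]⟩

/-- If the curvature operators of the base annihilate the tensor, then the minimum of the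
holomorphic sectional curvature is `-2`. -/
theorem HKT.min_two (h : HKT J v A) (q : Quat J v) {x : ι → ℝ} {l : ℝ} (hl : l < 0)
    (hx : x ⬝ᵥ x = 1) (hF : ∀ u, l * (u ⬝ᵥ u) ^ 2 ≤ Fh (J 0) A u) (he : Fh (J 0) A x = l)
    (hder : ∀ u w a b c d : ι → ℝ, (∀ s, v s ⬝ᵥ u = 0) → (∀ s, v s ⬝ᵥ w = 0) →
      (∀ s, v s ⬝ᵥ a = 0) → (∀ s, v s ⬝ᵥ b = 0) → (∀ s, v s ⬝ᵥ c = 0) → (∀ s, v s ⬝ᵥ d = 0) →
      Der A (fun z => Am J A u w z) a b c d = 0) : l = -2 := by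
  by_contra hl2
  have hl2' : l + 2 ≠ 0 := fun h0 => hl2 (by linarith)
  have cond := h.conditions_min q hx hF he
  -- `x` is horizontal
  have hvx : ∀ s, v s ⬝ᵥ x = 0 := by
    intro s
    have h1 := (cond (v s)).1
    have h2 : T4 A x (J 0 *ᵥ v s) x (J 0 *ᵥ x) = 0 := by
      have e1 := h.J12 q 0 x (v s) x (J 0 *ᵥ x)
      rw [h.v2] at e1
      have e2 := h.J12 q 0 x (v s) x (J 0 *ᵥ x)
      have e3 : T4 A x (J 0 *ᵥ v s) x (J 0 *ᵥ x) = - T4 A (J 0 *ᵥ x) (v s) x (J 0 *ᵥ x) := by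
        rw [e2, neg_neg]
      rw [e3, h.v2, neg_zero]
    rw [h2] at h1
    have h3 : x ⬝ᵥ v s = 0 := by
      rcases mul_eq_zero.1 h1.symm with h3 | h3
      · exact absurd h3 hl.ne
      · exact h3
    rw [dotProduct_comm]; exact h3
  obtain ⟨l1, l2, l3, l4, l5, l6, l7, l8, l9⟩ := q.line hvx
  obtain ⟨o1, o2, o3, o4, o5, o6, o7, o8, o9⟩ := q.ortho hvx hx
  have hh : ∀ r s, v s ⬝ᵥ (J r *ᵥ x) = 0 := fun r s => q.hor hvx r s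
  -- first order condition
  have f1 : ∀ y, T4 A x y x (J 0 *ᵥ x) = l * ((J 0 *ᵥ x) ⬝ᵥ y) := by
    intro y
    have e1 := (cond (J 0 *ᵥ y)).1
    rw [q.sqv, T4_add2, T4_smul2, h.v2, mul_zero, add_zero] at e1
    have e2 : T4 A x (-y) x (J 0 *ᵥ x) = - T4 A x y x (J 0 *ᵥ x) := by
      have : (-y : ι → ℝ) = (-1 : ℝ) • y := by simp
      rw [this, T4_smul2]; ring
    rw [e2] at e1
    have e3 := q.skew_dot 0 x y
    rw [e3]
    linarith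
  have R1 : RV A x (J 0 *ᵥ x) x = (-l) • (J 0 *ᵥ x) := by
    apply vec_ext
    intro y
    rw [dot_RV, dotProduct_smul, smul_eq_mul, T4_a2 h.curv, T4_pair h.curv, f1 y, dotProduct_comm]
    ring
  have neg2 : ∀ a b c d : ι → ℝ, T4 A a (-b) c d = - T4 A a b c d := by
    intro a b c d
    have : (-b : ι → ℝ) = (-1 : ℝ) • b := by simp
    rw [this, T4_smul2]; ring
  have neg4 : ∀ a b c d : ι → ℝ, T4 A a b c (-d) = - T4 A a b c d := fun a b c d => T4_neg4 a b c d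
  have f1' : ∀ y, T4 A x (J 0 *ᵥ x) x y = l * ((J 0 *ᵥ x) ⬝ᵥ y) := by
    intro y
    rw [T4_pair h.curv, f1]
  -- the relation between the two forms
  have G : ∀ y, T4 A x (J 1 *ᵥ x) x (J 0 *ᵥ y) =
      T4 A x (J 2 *ᵥ x) x y + l * ((J 2 *ᵥ x) ⬝ᵥ y) := by
    intro y
    have e1 := h.J34 q 0 x (J 1 *ᵥ x) x y
    have e2 := T4_bi h.curv x (J 1 *ᵥ x) (J 0 *ᵥ x) y
    have e3 : T4 A (J 1 *ᵥ x) (J 0 *ᵥ x) x y = T4 A x (J 2 *ᵥ x) x y := by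
      rw [h.J12 q, l7, neg2, neg_neg]
    have e4 : T4 A (J 0 *ᵥ x) x (J 1 *ᵥ x) y = l * ((J 2 *ᵥ x) ⬝ᵥ y) := by
      rw [T4_a1 h.curv, h.J34 q, neg_neg, f1']
      have := q.skew_dot 1 (J 0 *ᵥ x) y
      rw [l7, neg_dotProduct] at this
      rw [show (J 0 *ᵥ x) ⬝ᵥ (J 1 *ᵥ y) = (J 2 *ᵥ x) ⬝ᵥ y by linarith]
    linarith
  obtain ⟨a, ha⟩ : ∃ a, a = T4 A x (J 1 *ᵥ x) x (J 1 *ᵥ x) := ⟨_, rfl⟩
  obtain ⟨b, hb⟩ : ∃ b, b = T4 A x (J 2 *ᵥ x) x (J 2 *ᵥ x) := ⟨_, rfl⟩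
  obtain ⟨c, hc⟩ : ∃ c, c = T4 A x (J 1 *ᵥ x) x (J 2 *ᵥ x) := ⟨_, rfl⟩
  have hc' : T4 A x (J 2 *ᵥ x) x (J 1 *ᵥ x) = c := by rw [hc, T4_pair h.curv]
  have hab : a + b + l = 0 := by
    have e := G (J 2 *ᵥ x)
    rw [l9, neg4, ← ha, ← hb, o3] at e
    linarith
  -- the first operator
  have A1 : ∀ z, Am J A x (J 0 *ᵥ x) z = RV A x (J 0 *ᵥ x) z + (2 * ((J 0 *ᵥ x) ⬝ᵥ z)) • x -
      (2 * (x ⬝ᵥ z)) • (J 0 *ᵥ x) + (2 * ((J 1 *ᵥ x) ⬝ᵥ z)) • (J 2 *ᵥ x) -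
      (2 * ((J 2 *ᵥ x) ⬝ᵥ z)) • (J 1 *ᵥ x) := by
    intro z
    unfold Am
    rw [Fin.sum_univ_three, l1, l7, l6]
    simp only [neg_dotProduct, smul_neg, neg_smul]
    module
  obtain ⟨D, hD⟩ : ∃ D : (ι → ℝ) → (ι → ℝ), D = fun z => Am J A x (J 0 *ᵥ x) z + (l + 2) • (J 0 *ᵥ z) :=
    ⟨_, rfl⟩
  have D0 : D x = 0 := by
    rw [hD]
    beta_reduce
    rw [A1, R1, o2, o2, o2, hx]
    module
  have D2 : D (J 1 *ᵥ x) = (2 * (l + 2)) • (J 2 *ᵥ x) := by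
    rw [hD]
    beta_reduce
    rw [A1, h.RV_J q, R1, Matrix.mulVec_smul, l7, o1, o3, o4, o9, l4]
    module
  have D3 : D (J 2 *ᵥ x) = (-(2 * (l + 2))) • (J 1 *ᵥ x) := by
    rw [hD]
    beta_reduce
    rw [A1, h.RV_J q, R1, Matrix.mulVec_smul, l6, o1, o3, o6, o8, l9]
    module
  have hD0 : ∀ a b c d : ι → ℝ, (∀ s, v s ⬝ᵥ a = 0) → (∀ s, v s ⬝ᵥ b = 0) →
      (∀ s, v s ⬝ᵥ c = 0) → (∀ s, v s ⬝ᵥ d = 0) → Der A D a b c d = 0 := by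
    intro a b c d h1 h2 h3 h4
    rw [hD, Der_add (fun z => Am J A x (J 0 *ᵥ x) z) (fun z => J 0 *ᵥ z), h.der_J q,
      hder x (J 0 *ᵥ x) a b c d hvx (hh 0) h1 h2 h3 h4]
    ring
  have E : ∀ y, (∀ s, v s ⬝ᵥ y = 0) → 2 * (l + 2) * T4 A x (J 2 *ᵥ x) x y +
      T4 A x (J 1 *ᵥ x) x (D y) = 0 := by
    intro y hy
    have e := hD0 x (J 1 *ᵥ x) x y hvx (hh 1) hvx hy
    unfold Der at e
    rw [D0, D2, T4_smul2] at e
    have z1 : ∀ b c d : ι → ℝ, T4 A 0 b c d = 0 := by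
      intro b c d
      have := T4_smul1 (A := A) 0 0 b c d
      simpa using this
    have z3 : ∀ a b d : ι → ℝ, T4 A a b 0 d = 0 := by
      intro a b d
      have := T4_smul3 (A := A) 0 a b 0 d
      simpa using this
    rw [z1, z3] at e
    linarith
  -- `c = 0` and `a = b`
  have hc0 : c = 0 := by
    have e := E (J 1 *ᵥ x) (hh 1)
    rw [D2, T4_smul4, hc', ← hc] at e
    have : (4 * (l + 2)) * c = 0 := by linarith
    rcases mul_eq_zero.1 this with h1 | h1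
    · exact absurd (by linarith) hl2'
    · exact h1
  have hab' : a = b := by
    have e := E (J 2 *ᵥ x) (hh 2)
    rw [D3, T4_smul4, ← ha, ← hb] at e
    have : (2 * (l + 2)) * (b - a) = 0 := by linarith
    rcases mul_eq_zero.1 this with h1 | h1
    · exact absurd (by linarith) hl2'
    · linarith
  -- the vector `κ`
  obtain ⟨κ, hκ⟩ : ∃ κ : ι → ℝ, κ = -(RV A x (J 2 *ᵥ x) x) - b • (J 2 *ᵥ x) := ⟨_, rfl⟩
  have kd : ∀ y, y ⬝ᵥ κ = T4 A x (J 2 *ᵥ x) x y - b * ((J 2 *ᵥ x) ⬝ᵥ y) := by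
    intro y
    rw [hκ, dotProduct_sub, dotProduct_neg, dot_RV, dotProduct_smul, smul_eq_mul,
      T4_a2 h.curv, neg_neg, dotProduct_comm y]
  have kx : x ⬝ᵥ κ = 0 := by
    rw [kd, o2]
    have := T4_a2 h.curv x (J 2 *ᵥ x) x x
    linarith
  have k1 : (J 0 *ᵥ x) ⬝ᵥ κ = 0 := by
    rw [kd, o7, T4_pair h.curv, f1', o6]; ring
  have k2 : (J 1 *ᵥ x) ⬝ᵥ κ = 0 := by
    rw [kd, o9, hc', hc0]; ring
  have k3 : (J 2 *ᵥ x) ⬝ᵥ κ = 0 := by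
    rw [kd, o3, ← hb]; ring
  have kv : ∀ s, v s ⬝ᵥ κ = 0 := by
    intro s
    rw [kd, h.v4, dotProduct_comm, hh]; ring
  have jκ : J 0 *ᵥ (J 0 *ᵥ κ) = - κ := by rw [q.sqv, kv, zero_smul, add_zero]
  -- the form of `J 1 x`
  have g1 : ∀ y, T4 A x (J 1 *ᵥ x) x y = y ⬝ᵥ (J 0 *ᵥ κ) + a * ((J 1 *ᵥ x) ⬝ᵥ y) := by
    intro y
    have e4 := G (J 0 *ᵥ y)
    rw [q.sqv, T4_add4, T4_smul4, h.v4, neg4] at e4
    have e5 := kd (J 0 *ᵥ y)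
    rw [q.skew_dot] at e5
    have e6 := q.skew_dot 0 (J 2 *ᵥ x) y
    rw [l9, neg_dotProduct] at e6
    have e7 : (J 2 *ᵥ x) ⬝ᵥ (J 0 *ᵥ y) = (J 1 *ᵥ x) ⬝ᵥ y := by linarith
    rw [e7] at e4 e5
    linear_combination -e4 + e5 - ((J 1 *ᵥ x) ⬝ᵥ y) * hab
  have kf : ∀ y, T4 A x (J 2 *ᵥ x) x y = y ⬝ᵥ κ + b * ((J 2 *ᵥ x) ⬝ᵥ y) := by
    intro y
    have := kd y
    linarith
  have e9 : (J 0 *ᵥ x) ⬝ᵥ (J 1 *ᵥ κ) = 0 := by
    have := q.skew_dot 1 (J 0 *ᵥ x) κ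
    rw [l7, neg_dotProduct, k3] at this
    linarith
  -- the eigenvalue of `κ`
  have S0κ : S0 J A x κ = 3 * (l + 2) * (κ ⬝ᵥ κ) := by
    have e := E κ kv
    have e1 : D κ = RV A x (J 0 *ᵥ x) κ + (l + 2) • (J 0 *ᵥ κ) := by
      rw [hD]
      beta_reduce
      rw [A1, kx, k1, k2, k3]
      module
    have e2 : T4 A x (J 2 *ᵥ x) x κ = κ ⬝ᵥ κ := by
      rw [kd κ, k3]; ring
    have e3 := G κ
    rw [k3, e2] at e3
    rw [e1, T4_add4, T4_smul4, e3, e2] at e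
    have g2 : T4 A x (J 1 *ᵥ x) x (RV A x (J 0 *ᵥ x) κ) = - S0 J A x κ := by
      have e8 : (RV A x (J 0 *ᵥ x) κ) ⬝ᵥ (J 0 *ᵥ κ) = T4 A x (J 0 *ᵥ x) (J 0 *ᵥ κ) κ := by
        rw [dotProduct_comm, dot_RV]
      rw [g1, e8, dot_RV, h.J34 q 1, f1', e9, T4_a2 h.curv, h.T_mixed q]
      unfold S0
      ring
    rw [g2] at e
    linarith
  -- the second operator
  have R2 : RV A x (J 1 *ᵥ x) x = -(J 0 *ᵥ κ) - a • (J 1 *ᵥ x) := by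
    apply vec_ext
    intro y
    rw [dot_RV, dotProduct_sub, dotProduct_neg, dotProduct_smul, smul_eq_mul, T4_a2 h.curv, g1 y,
      dotProduct_comm (J 1 *ᵥ x) y]
    ring
  have A2 : ∀ z, Am J A x (J 1 *ᵥ x) z = RV A x (J 1 *ᵥ x) z + (2 * ((J 1 *ᵥ x) ⬝ᵥ z)) • x -
      (2 * (x ⬝ᵥ z)) • (J 1 *ᵥ x) - (2 * ((J 0 *ᵥ x) ⬝ᵥ z)) • (J 2 *ᵥ x) +
      (2 * ((J 2 *ᵥ x) ⬝ᵥ z)) • (J 0 *ᵥ x) := by
    intro z
    unfold Am
    rw [Fin.sum_univ_three, l2, l4, l8]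
    simp only [neg_dotProduct, smul_neg, neg_smul]
    module
  have jκ20 : J 2 *ᵥ (J 0 *ᵥ κ) = J 1 *ᵥ κ := by
    rw [Matrix.mulVec_mulVec, q.m20, Matrix.add_mulVec, Matrix.vecMulVec_mulVec,
      op_smul_eq_smul, kv, zero_smul, add_zero]
  obtain ⟨D', hD'⟩ : ∃ D : (ι → ℝ) → (ι → ℝ),
    D = fun z => Am J A x (J 1 *ᵥ x) z + (a + 2) • (J 1 *ᵥ z) := ⟨_, rfl⟩
  have D0' : D' x = -(J 0 *ᵥ κ) := by
    rw [hD']
    beta_reduce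
    rw [A2, R2, o2, o2, o2, hx]
    module
  have D1' : D' (J 0 *ᵥ x) = (-(2 * (a + 2))) • (J 2 *ᵥ x) + κ := by
    rw [hD']
    beta_reduce
    rw [A2, h.RV_J q, R2, Matrix.mulVec_sub, Matrix.mulVec_neg, jκ, Matrix.mulVec_smul, l4, o1, o3,
      o5, o7, l7]
    module
  have D3' : D' (J 2 *ᵥ x) = (2 * (a + 2)) • (J 0 *ᵥ x) - J 1 *ᵥ κ := by
    rw [hD']
    beta_reduce
    rw [A2, h.RV_J q, R2, Matrix.mulVec_sub, Matrix.mulVec_neg, jκ20, Matrix.mulVec_smul, l8, o1, o3,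
      o6, o8, l5]
    module
  have kk : κ ⬝ᵥ κ = -((a + 2) * (l - b)) := by
    have e := hder x (J 1 *ᵥ x) x (J 0 *ᵥ x) x (J 2 *ᵥ x) hvx (hh 1) hvx (hh 0) hvx (hh 2)
    have e' : Der A D' x (J 0 *ᵥ x) x (J 2 *ᵥ x) = 0 := by
      rw [hD', Der_add (fun z => Am J A x (J 1 *ᵥ x) z) (fun z => J 1 *ᵥ z), h.der_J q, e]
      ring
    unfold Der at e'
    rw [D0', D1', D3'] at e'
    have neg1 : ∀ a b c d : ι → ℝ, T4 A (-a) b c d = - T4 A a b c d := by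
      intro a b c d
      have : (-a : ι → ℝ) = (-1 : ℝ) • a := by simp
      rw [this, T4_smul1]; ring
    have neg3 : ∀ a b c d : ι → ℝ, T4 A a b (-c) d = - T4 A a b c d := by
      intro a b c d
      have : (-c : ι → ℝ) = (-1 : ℝ) • c := by simp
      rw [this, T4_smul3]; ring
    -- the four terms
    have t1 : T4 A (-(J 0 *ᵥ κ)) (J 0 *ᵥ x) x (J 2 *ᵥ x) = κ ⬝ᵥ κ := by
      rw [neg1, h.J12 q 0 κ (J 0 *ᵥ x), l1, neg2, neg_neg, T4_a1 h.curv κ x, neg_neg,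
        T4_pair h.curv, kf, k3]
      ring
    have t2 : T4 A x ((-(2 * (a + 2))) • (J 2 *ᵥ x) + κ) x (J 2 *ᵥ x) =
        -(2 * (a + 2)) * b + κ ⬝ᵥ κ := by
      rw [T4_add2, T4_smul2, ← hb, T4_pair h.curv x κ, kf, k3]
      ring
    have t3 : T4 A x (J 0 *ᵥ x) (-(J 0 *ᵥ κ)) (J 2 *ᵥ x) = 0 := by
      have s1 := h.J34 q 0 x (J 0 *ᵥ x) κ (J 2 *ᵥ x)
      rw [l9, neg4] at s1
      have s2 := h.J34 q 1 x (J 0 *ᵥ x) κ x
      rw [T4_a2 h.curv x (J 0 *ᵥ x) (J 1 *ᵥ κ) x, f1', e9] at s2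
      rw [neg3]
      linarith
    have t4 : T4 A x (J 0 *ᵥ x) x ((2 * (a + 2)) • (J 0 *ᵥ x) - J 1 *ᵥ κ) = 2 * (a + 2) * l := by
      rw [f1', dotProduct_sub, dotProduct_smul, o3, e9, smul_eq_mul]
      ring
    rw [t1, t2, t3, t4] at e'
    linarith
  -- values
  obtain ⟨k, hk⟩ : ∃ k, k = κ ⬝ᵥ κ := ⟨_, rfl⟩
  rw [← hk] at kk S0κ
  have ha2 : a = -l / 2 := by linarith
  have hb2 : b = -l / 2 := by linarith
  have kv2 : k = 3 / 4 * l * (l - 4) := by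
    rw [kk, ha2, hb2]; ring
  have kpos : 0 < k := by
    rw [kv2]
    nlinarith
  have xJκ : x ⬝ᵥ (J 0 *ᵥ κ) = 0 := by
    have := q.skew_dot 0 x κ
    rw [k1] at this
    linarith
  have JJκ : (J 0 *ᵥ κ) ⬝ᵥ (J 0 *ᵥ κ) = k := by
    rw [q.skew_dot, jκ, dotProduct_neg, neg_neg, hk]
  -- the second order condition in the direction of `J 1 κ`
  have low : l * 28 ≤ -48 := by
    obtain ⟨w, hw⟩ : ∃ w, w = J 1 *ᵥ κ := ⟨_, rfl⟩
    have hvw : ∀ s, v s ⬝ᵥ w = 0 := fun s => by rw [hw]; exact q.hor kv 1 s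
    have ww : w ⬝ᵥ w = k := by
      rw [hw, q.skew_dot, q.sqv, kv, zero_smul, add_zero, dotProduct_neg, neg_neg, hk]
    have xw : x ⬝ᵥ w = 0 := by
      have := q.skew_dot 1 x κ
      rw [k2] at this
      rw [hw]; linarith
    have xJw : x ⬝ᵥ (J 0 *ᵥ w) = 0 := by
      have h1 := q.skew_dot 0 x w
      rw [hw] at h1 ⊢
      have h2 : (J 0 *ᵥ x) ⬝ᵥ (J 1 *ᵥ κ) = 0 := e9
      linarith
    have JJw : J 0 *ᵥ (J 0 *ᵥ w) = - w := by rw [q.sqv, hvw, zero_smul, add_zero]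
    have JwJw : (J 0 *ᵥ w) ⬝ᵥ (J 0 *ᵥ w) = k := by
      rw [q.skew_dot, JJw, dotProduct_neg, neg_neg, ww]
    have u1 := (cond w).2
    have u2 := (cond (J 0 *ᵥ w)).2
    rw [JJw, xJw, JwJw, neg4, neg2] at u2
    rw [xw, ww] at u1
    have u3 := h.S0_J1 q x κ
    rw [← hw, S0κ] at u3
    unfold S0 at u3
    have u4 : (l * 28 + 48) * k ≤ 0 := by nlinarith
    nlinarith
  -- the second order condition in the directions of `p J 2 x + q κ` and `p J 1 x + q J 0 κ`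
  have up : -4 ≤ 3 * l := by
    have m2 : T4 A x (J 2 *ᵥ x) x κ = k := by rw [kf, k3, ← hk]; ring
    have m2' : T4 A x κ x (J 2 *ᵥ x) = k := by rw [T4_pair h.curv]; exact m2
    have J1Jκ : (J 1 *ᵥ x) ⬝ᵥ (J 0 *ᵥ κ) = 0 := by
      have := q.skew_dot 0 (J 1 *ᵥ x) κ
      rw [l4, k3] at this
      linarith
    have J2κ' : (J 2 *ᵥ x) ⬝ᵥ κ = 0 := k3
    have m1 : T4 A x (J 1 *ᵥ x) x (J 0 *ᵥ κ) = k := by
      rw [g1, J1Jκ, JJκ]; ring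
    have m1' : T4 A x (J 0 *ᵥ κ) x (J 1 *ᵥ x) = k := by rw [T4_pair h.curv]; exact m1
    have cA := (cond ((2 * k) • (J 2 *ᵥ x) + (-3 * l) • κ)).2
    have cB := (cond ((2 * k) • (J 1 *ᵥ x) + (-3 * l) • (J 0 *ᵥ κ))).2
    have xJ : ∀ s, x ⬝ᵥ (J s *ᵥ x) = 0 := o1
    rw [Matrix.mulVec_add, Matrix.mulVec_smul, Matrix.mulVec_smul, l9] at cA
    rw [Matrix.mulVec_add, Matrix.mulVec_smul, Matrix.mulVec_smul, l4, jκ] at cB
    simp only [T4_add2, T4_add4, T4_smul2, T4_smul4, neg2, neg4, dotProduct_add, add_dotProduct,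
      dotProduct_smul, smul_dotProduct, smul_eq_mul, xJ, kx, xJκ, o3, m2, m2', m1, m1',
      J1Jκ, J2κ', ← ha, ← hb, ← hk, JJκ] at cA cB
    rw [dotProduct_comm κ (J 2 *ᵥ x), k3] at cA
    rw [dotProduct_comm (J 0 *ᵥ κ) (J 1 *ᵥ x), J1Jκ] at cB
    unfold S0 at S0κ
    obtain ⟨P, hP⟩ : ∃ P, P = T4 A x κ x κ := ⟨_, rfl⟩
    obtain ⟨P', hP'⟩ : ∃ P', P' = T4 A x (J 0 *ᵥ κ) x (J 0 *ᵥ κ) := ⟨_, rfl⟩
    rw [← hP, ← hP'] at cA cB S0κ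
    rw [ha2, hb2] at cA cB
    have hPP : P' = 3 * (l + 2) * k - P := by linarith
    rw [hPP] at cA cB
    -- sum
    have hs : 0 ≤ 12 * (-l) * k * (-4 * k + 3 * (-l) * (12 + 5 * l)) := by
      nlinarith [cA, cB]
    have hs2 : 0 ≤ -4 * k + 3 * (-l) * (12 + 5 * l) := by
      by_contra hcon
      push Not at hcon
      have : 12 * (-l) * k * (-4 * k + 3 * (-l) * (12 + 5 * l)) < 0 := by
        apply mul_neg_of_pos_of_neg _ hcon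
        have : 0 < -l := by linarith
        positivity
      linarith
    rw [kv2] at hs2
    nlinarith
  linarith

end

end Pool.Agent.L5helper93.Sas
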