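import Mathlib
import Pool.Agent.L5helper93.Sas.Conv
import Pool.Agent.L5helper93.Sas.Two

/-!
# The lower bound
-/

open Bundle Manifold ContDiff VectorField Filter
open scoped Topology

set_option linter.unusedSectionVars false
set_option linter.unusedVariables false
set_option linter.unusedSimpArgs false

noncomputable section

namespace Pool.Agent.L5helper93.Sas

open Pool.Agent.Results.MP_b296c2_gt
open Pool.Agent.Results.MP_b296c2_gt.Riemannian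
open Pool.Agent.L5helper93.Ein Pool.Agent.L5helper93.Geo Matrix

section Coord

variable {V : Type*} [NormedAddCommGroup V] [InnerProductSpace ℝ V] [FiniteDimensional ℝ V]
  {R : V →ₗ[ℝ] V →ₗ[ℝ] V →ₗ[ℝ] V} {C : Fin 3 → V →ₗ[ℝ] V} {ζ : Fin 3 → V} {N : ℕ}
  {w : Fin N → V} (hN : Module.finrank ℝ V = N)
  (hw : ∀ i j, (inner ℝ (w i) (w j) : ℝ) = if i = j then 1 else 0)

include hN hw

theorem PtSas.min2 (s : PtSas R C ζ) (hN0 : 0 < N)
    (hA : ∀ u v a b c d : V, (∀ i, (inner ℝ (ζ i) a : ℝ) = 0) →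
      (∀ i, (inner ℝ (ζ i) b : ℝ) = 0) → (∀ i, (inner ℝ (ζ i) c : ℝ) = 0) →
      (∀ i, (inner ℝ (ζ i) d : ℝ) = 0) →
      (inner ℝ (TO R (AP R C u v a) b c) d : ℝ) + inner ℝ (TO R a (AP R C u v b) c) d +
      inner ℝ (TO R a b (AP R C u v c)) d + inner ℝ (TO R a b c) (AP R C u v d) = 0)
    (H : V) (h1 : (inner ℝ H H : ℝ) = 1) : -2 ≤ (inner ℝ (TO R H (C 0 H) (C 0 H)) H : ℝ) := by
  have hq := s.quat hN hw
  have hk := s.hkt hN hw
  obtain ⟨T, hT⟩ : ∃ T, T = Tt R w := ⟨_, rfl⟩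
  rw [← hT] at hk
  have hne : (Sph (Fin N)).Nonempty := by
    refine ⟨Pi.single ⟨0, hN0⟩ 1, ?_⟩
    show (Pi.single ⟨0, hN0⟩ 1 : Fin N → ℝ) ⬝ᵥ Pi.single ⟨0, hN0⟩ 1 = 1
    simp
  have hneg : ∀ u, Fh (Jm C w 0) (fun a b c d => -1 * T a b c d) u = - Fh (Jm C w 0) T u := by
    intro u
    unfold Fh
    rw [T4_smulA]
    ring
  obtain ⟨v0, hv0, hmin⟩ := Sph_compact.exists_isMinOn hne
    (Fh_contu (Jm C w 0) T).continuousOn
  obtain ⟨l, hl⟩ : ∃ l, l = - mx (Jm C w 0) (fun a b c d => -1 * T a b c d) := ⟨_, rfl⟩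
  have hv1 : v0 ⬝ᵥ v0 = 1 := hv0
  have hle : ∀ u, l * (u ⬝ᵥ u) ^ 2 ≤ Fh (Jm C w 0) T u := fun u => by
    have h1 := le_mx (Jm C w 0) (fun a b c d => -1 * T a b c d) u
    rw [hneg] at h1
    rw [hl]
    linarith
  have he : Fh (Jm C w 0) T v0 = l := by
    apply le_antisymm
    · rw [hl]
      have h1 := mx_le (Jm C w 0) (fun a b c d => -1 * T a b c d) (l := - Fh (Jm C w 0) T v0) hne
        fun u hu => by
          rw [hneg]
          have : Fh (Jm C w 0) T v0 ≤ Fh (Jm C w 0) T u := hmin hu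
          linarith
      linarith
    · have := hle v0
      rw [hv1] at this
      linarith
  have hl4 : -2 ≤ l := by
    by_contra hcon
    push Not at hcon
    have := hk.min_two hq (by linarith) hv1 hle he (by
      intro u w' a b c d _ _ ha hb hc hd
      have hz : ∀ a : Fin N → ℝ, (∀ i, vv ζ w i ⬝ᵥ a = 0) →
          ∀ i, (inner ℝ (ζ i) (lin w a) : ℝ) = 0 := by
        intro a ha i
        rw [← ha i]
        unfold lin vv dotProduct
        rw [inner_sum]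
        refine Finset.sum_congr rfl fun j _ => ?_
        rw [real_inner_smul_right, mul_comm]
      have h2 := hA (lin w u) (lin w w') (lin w a) (lin w b) (lin w d) (lin w c) (hz a ha)
        (hz b hb) (hz d hd) (hz c hc)
      unfold Der
      rw [hT, T4_lin, T4_lin, T4_lin, T4_lin, lin_Am hN hw, lin_Am hN hw, lin_Am hN hw,
        lin_Am hN hw]
      linarith)
    linarith
  have h2 := hle (fun i => inner ℝ H (w i))
  rw [hT, Fh_coord hN hw] at h2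
  have h3 : (fun i => (inner ℝ H (w i) : ℝ)) ⬝ᵥ (fun i => (inner ℝ H (w i) : ℝ)) = 1 := by
    rw [← inner_lin _ _ hw, ← on_expand hN w hw H, h1]
  rw [h3] at h2
  linarith

omit hN hw in
theorem PtSas.hom_low (s : PtSas R C ζ) {l : ℝ} (hl : ∀ H : V, (inner ℝ H H : ℝ) = 1 →
      (∀ a, (inner ℝ (ζ a) H : ℝ) = 0) → 1 + l ≤ (inner ℝ (R H (C 0 H) (C 0 H)) H : ℝ))
    (H : V) (hH : ∀ a, (inner ℝ (ζ a) H : ℝ) = 0) :
    l * (inner ℝ H H) ^ 2 ≤ (inner ℝ (TO R H (C 0 H) (C 0 H)) H : ℝ) := by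
  rw [s.form_hor (hH 0)]
  by_cases h0 : H = 0
  · rw [h0]; simp
  · have hpos : 0 < (inner ℝ H H : ℝ) := real_inner_self_pos.2 h0
    obtain ⟨r, hr, hrr⟩ : ∃ r : ℝ, 0 < r ∧ r * r = inner ℝ H H :=
      ⟨Real.sqrt (inner ℝ H H), Real.sqrt_pos.2 hpos, Real.mul_self_sqrt hpos.le⟩
    have h1 := hl (r⁻¹ • H) (by
      rw [real_inner_smul_left, real_inner_smul_right, ← hrr]
      field_simp) (by
      intro a
      rw [real_inner_smul_right, hH, mul_zero])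
    simp only [map_smul, LinearMap.smul_apply, real_inner_smul_left, real_inner_smul_right] at h1
    have h2 : (1 + l) * (r ^ 4) ≤ (inner ℝ (R H (C 0 H) (C 0 H)) H : ℝ) := by
      have h3 : r⁻¹ * (r⁻¹ * (r⁻¹ * (r⁻¹ * (inner ℝ (R H (C 0 H) (C 0 H)) H : ℝ)))) =
          (inner ℝ (R H (C 0 H) (C 0 H)) H : ℝ) / r ^ 4 := by
        field_simp
      rw [h3, le_div_iff₀ (by positivity)] at h1
      exact h1
    rw [← hrr]
    nlinarith

/-- The other two curvatures. -/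
theorem PtSas.two (s : PtSas R C ζ) {H : V} (hH : ∀ a, (inner ℝ (ζ a) H : ℝ) = 0) :
    (∀ a, (inner ℝ (ζ a) (H - C 1 H) : ℝ) = 0) ∧ (∀ a, (inner ℝ (ζ a) (H - C 2 H) : ℝ) = 0) ∧
    (inner ℝ (H - C 1 H) (H - C 1 H) : ℝ) = 2 * inner ℝ H H ∧
    (inner ℝ (H - C 2 H) (H - C 2 H) : ℝ) = 2 * inner ℝ H H ∧
    (inner ℝ (TO R (H - C 1 H) (C 0 (H - C 1 H)) (C 0 (H - C 1 H))) (H - C 1 H) : ℝ) +
    inner ℝ (TO R (H - C 2 H) (C 0 (H - C 2 H)) (C 0 (H - C 2 H))) (H - C 2 H) =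
      -4 * inner ℝ (TO R H (C 0 H) (C 0 H)) H := by
  have hq := s.quat hN hw
  have hk := s.hkt hN hw
  have hor : ∀ b a, (inner ℝ (ζ a) (C b H) : ℝ) = 0 := by
    have key : ∀ b a, ∃ r : Fin 3 → ℝ, C b (ζ a) = ∑ c, r c • ζ c := by
      intro b a
      have d0 : ∀ a, ∃ r : Fin 3 → ℝ, ζ a = ∑ c, r c • ζ c := fun a =>
        ⟨fun c => if c = a then 1 else 0, by simp⟩
      have d1 : ∀ a, ∃ r : Fin 3 → ℝ, - ζ a = ∑ c, r c • ζ c := fun a =>
        ⟨fun c => if c = a then -1 else 0, by simp⟩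
      have dz : ∃ r : Fin 3 → ℝ, (0 : V) = ∑ c, r c • ζ c := ⟨fun c => 0, by simp⟩
      have e01 := s.C01
      have e02 := s.C02
      have e00 := s.C0
      have e11 := s.C1
      have e22 := s.C2
      have e10 : C 1 (ζ 0) = ζ 2 := by
        have h4 := s.c20 (ζ 0)
        rw [s.C0, map_zero, s.on 0 0, if_pos rfl, one_smul] at h4
        have : (0 : V) = - C 1 (ζ 0) + ζ 2 := h4
        rw [eq_comm, neg_add_eq_zero] at this
        exact this
      have e21 : C 2 (ζ 1) = ζ 0 := by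
        have h2 := s.c01 (ζ 1)
        rw [s.C1, map_zero, s.on 1 1, if_pos rfl, one_smul] at h2
        have : (0 : V) = - C 2 (ζ 1) + ζ 0 := h2
        rw [eq_comm, neg_add_eq_zero] at this
        exact this
      have e12 : C 1 (ζ 2) = - ζ 0 := by
        have := s.sq 1 (ζ 0)
        rw [e10, s.on 1 0] at this
        rw [this]
        simp
      have e20 : C 2 (ζ 0) = - ζ 1 := by
        have := s.sq 2 (ζ 1)
        rw [e21, s.on 2 1] at this
        rw [this]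
        simp
      fin_cases b <;> fin_cases a
      · exact e00 ▸ dz
      · exact e01 ▸ d1 2
      · exact e02 ▸ d0 1
      · exact e10 ▸ d0 2
      · exact e11 ▸ dz
      · exact e12 ▸ d1 0
      · exact e20 ▸ d1 1
      · exact e21 ▸ d0 0
      · exact e22 ▸ dz
    intro b a
    obtain ⟨r, hr⟩ := key b a
    have h1 := s.skew b (ζ a) H
    rw [hr, sum_inner] at h1
    simp only [real_inner_smul_left, hH, mul_zero, Finset.sum_const_zero] at h1
    linarith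
  have nrm : ∀ b, (inner ℝ (H - C b H) (H - C b H) : ℝ) = 2 * inner ℝ H H := by
    intro b
    have h1 := s.skew b H H
    have h2 : (inner ℝ H (C b H) : ℝ) = 0 := by
      rw [real_inner_comm] at h1
      linarith
    have h3 : (inner ℝ (C b H) (C b H) : ℝ) = inner ℝ H H := by
      rw [s.skew, s.sq, hH b, zero_smul, add_zero, inner_neg_right, neg_neg]
    rw [inner_sub_left, inner_sub_right, inner_sub_right, h1, h2, h3]
    ring
  refine ⟨fun a => ?_, fun a => ?_, nrm 1, nrm 2, ?_⟩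
  · rw [inner_sub_right, hH, hor, sub_zero]
  · rw [inner_sub_right, hH, hor, sub_zero]
  · obtain ⟨x, hx⟩ : ∃ x : Fin N → ℝ, x = fun i => inner ℝ H (w i) := ⟨_, rfl⟩
    have hlx : lin w x = H := by rw [hx]; exact (on_expand hN w hw H).symm
    have Fg : ∀ y : Fin N → ℝ, Fh (Jm C w 0) (Tt R w) y =
        inner ℝ (TO R (lin w y) (C 0 (lin w y)) (C 0 (lin w y))) (lin w y) := by
      intro y
      unfold Fh
      rw [T4_lin, lin_J hN hw]
      have h2 : ∀ H : V, (- C 0 H : V) = (-1 : ℝ) • C 0 H := fun H => by simp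
      rw [h2, TO_smul2, TO_smul3, smul_smul]
      norm_num
    have e1 := (hk.F12 hq x).1
    have e2 := (hk.F12 hq x).2
    have e3 := hk.Fsum hq x
    rw [Fg, lin_add, lin_J hN hw, hlx, ← sub_eq_add_neg] at e1 e2
    rw [Fg, hlx] at e3
    linarith

theorem PtSas.low_up (s : PtSas R C ζ) (hl : ∀ H : V, (inner ℝ H H : ℝ) = 1 →
      (∀ a, (inner ℝ (ζ a) H : ℝ) = 0) → -1 ≤ (inner ℝ (R H (C 0 H) (C 0 H)) H : ℝ))
    {H : V} (h1 : (inner ℝ H H : ℝ) = 1) (hH : ∀ a, (inner ℝ (ζ a) H : ℝ) = 0) :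
    (inner ℝ (R H (C 0 H) (C 0 H)) H : ℝ) ≤ 5 := by
  obtain ⟨a1, a2, a3, a4, a5⟩ := s.two hN hw hH
  have low := s.hom_low (l := -2) (fun H h1 h2 => by have := hl H h1 h2; linarith)
  have b1 := low _ a1
  have b2 := low _ a2
  rw [a3, h1] at b1
  rw [a4, h1] at b2
  have h3 := s.form_hor (hH 0)
  rw [h1] at h3
  linarith

theorem PtSas.low_att (s : PtSas R C ζ) (hl : ∀ H : V, (inner ℝ H H : ℝ) = 1 →
      (∀ a, (inner ℝ (ζ a) H : ℝ) = 0) → -1 ≤ (inner ℝ (R H (C 0 H) (C 0 H)) H : ℝ))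
    {H : V} (h1 : (inner ℝ H H : ℝ) = 1) (hH : ∀ a, (inner ℝ (ζ a) H : ℝ) = 0)
    (h5 : (inner ℝ (R H (C 0 H) (C 0 H)) H : ℝ) = 5) :
    ∃ G : V, (inner ℝ G G : ℝ) = 1 ∧ (∀ a, (inner ℝ (ζ a) G : ℝ) = 0) ∧
      (inner ℝ (R G (C 0 G) (C 0 G)) G : ℝ) = -1 := by
  obtain ⟨a1, a2, a3, a4, a5⟩ := s.two hN hw hH
  have low := s.hom_low (l := -2) (fun H h1 h2 => by have := hl H h1 h2; linarith)
  have b1 := low _ a1
  have b2 := low _ a2
  rw [a3, h1] at b1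
  rw [a4, h1] at b2
  have h3 := s.form_hor (hH 0)
  rw [h1, h5] at h3
  obtain ⟨K, hK⟩ : ∃ K, K = H - C 1 H := ⟨_, rfl⟩
  rw [← hK] at a1 a3 b1 a5
  have b3 : (inner ℝ (TO R K (C 0 K) (C 0 K)) K : ℝ) = -8 := by linarith
  have h4 := s.form_hor (a1 0)
  rw [a3, h1, b3] at h4
  obtain ⟨r, hr, hrr⟩ : ∃ r : ℝ, 0 < r ∧ r * r = 2 :=
    ⟨Real.sqrt 2, Real.sqrt_pos.2 (by norm_num), Real.mul_self_sqrt (by norm_num)⟩
  have hr4 : r⁻¹ * r⁻¹ = 1 / 2 := by
    rw [← mul_inv, hrr]; norm_num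
  refine ⟨r⁻¹ • K, ?_, ?_, ?_⟩
  · rw [real_inner_smul_left, real_inner_smul_right, a3, h1, ← mul_assoc, hr4]
    norm_num
  · intro a
    rw [real_inner_smul_right, a1, mul_zero]
  · simp only [map_smul, LinearMap.smul_apply, real_inner_smul_left, real_inner_smul_right]
    have h6 : (inner ℝ (R K (C 0 K) (C 0 K)) K : ℝ) = -4 := by linarith
    rw [h6]
    have : r⁻¹ * (r⁻¹ * (r⁻¹ * (r⁻¹ * (-4 : ℝ)))) = (r⁻¹ * r⁻¹) * (r⁻¹ * r⁻¹) * (-4) := by ring
    rw [this, hr4]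
    norm_num

end Coord

section Fields2

variable {E : Type*} [NormedAddCommGroup E] [NormedSpace ℝ E] [FiniteDimensional ℝ E]
  {H : Type*} [TopologicalSpace H] {I : ModelWithCorners ℝ E H}
  {M : Type*} [TopologicalSpace M] [ChartedSpace H M] [IsManifold I ∞ M]
  [RiemannianBundle (fun x : M => TangentSpace I x)]
  [IsContMDiffRiemannianBundle I ∞ E (fun x : M => TangentSpace I x)]
  [T2Space M] [SigmaCompactSpace M] [Nontrivial E]
  {cov : CovariantDerivative I E (TangentSpace I : M → Type _)}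
  (h : IsLeviCivita cov) {R : CurvField I M} (hR : IsRiemannTensor cov R)
  {ξ : Fin 3 → Π x : M, TangentSpace I x} (s : S3 cov ξ)

include h hR s

theorem sas_conv_low {n : ℕ} (hn : Module.finrank ℝ E = 4 * n + 3)
    (hpar : ∀ ⦃V X Y Z W : Π x : M, TangentSpace I x⦄, CMDiff ∞ (T% V) →
      CMDiff ∞ (T% X) → CMDiff ∞ (T% Y) → CMDiff ∞ (T% Z) → CMDiff ∞ (T% W) → ∀ z,
      (∀ a, inner ℝ (ξ a z) (X z) = (0 : ℝ)) → (∀ a, inner ℝ (ξ a z) (Y z) = (0 : ℝ)) →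
      (∀ a, inner ℝ (ξ a z) (Z z) = (0 : ℝ)) → (∀ a, inner ℝ (ξ a z) (W z) = (0 : ℝ)) →
      GF cov R V X Y Z W z = 0)
    (x : M) (u : TangentSpace I x) (h1 : inner ℝ u u = (1 : ℝ))
    (hu : ∀ a, inner ℝ (ξ a x) u = (0 : ℝ)) :
    -1 ≤ (inner ℝ (R x u (cov (ξ 0) x u) (cov (ξ 0) x u)) u : ℝ) := by
  obtain ⟨e, ha, he⟩ := frame3 s hn h x
  have hfd : FiniteDimensional ℝ (TangentSpace I x) := inferInstanceAs (FiniteDimensional ℝ E)
  have hn' : Module.finrank ℝ (TangentSpace I x) = 4 * n + 3 := hn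
  have sp := s.pt h hR x
  have h2 := sp.min2 hn' ha.onp (by omega) (fun u v a b c d ha hb hc hd =>
    par_der h hR s hpar x u v a b c d ha hb hc hd) u h1
  have h3 := sp.form_hor (hu 0)
  rw [h3, h1] at h2
  have h4 : -1 ≤ (inner ℝ (R x u (CL cov (ξ 0) x u) (CL cov (ξ 0) x u)) u : ℝ) := by linarith
  exact h4

theorem sas_up {n : ℕ} (hn : Module.finrank ℝ E = 4 * n + 3)
    (hK : ∀ (x : M) (u : TangentSpace I x), inner ℝ u u = (1 : ℝ) →
      (∀ a, inner ℝ (ξ a x) u = (0 : ℝ)) →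
      -1 ≤ (inner ℝ (R x u (cov (ξ 0) x u) (cov (ξ 0) x u)) u : ℝ))
    (x : M) (u : TangentSpace I x) (h1 : inner ℝ u u = (1 : ℝ))
    (hu : ∀ a, inner ℝ (ξ a x) u = (0 : ℝ)) :
    (inner ℝ (R x u (cov (ξ 0) x u) (cov (ξ 0) x u)) u : ℝ) ≤ 5 := by
  obtain ⟨e, ha, he⟩ := frame3 s hn h x
  have hfd : FiniteDimensional ℝ (TangentSpace I x) := inferInstanceAs (FiniteDimensional ℝ E)
  have hn' : Module.finrank ℝ (TangentSpace I x) = 4 * n + 3 := hn
  have sp := s.pt h hR x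
  exact sp.low_up hn' ha.onp (fun H h1 h2 => hK x H h1 h2) h1 hu

theorem sas_att {n : ℕ} (hn : Module.finrank ℝ E = 4 * n + 3)
    (hK : ∀ (x : M) (u : TangentSpace I x), inner ℝ u u = (1 : ℝ) →
      (∀ a, inner ℝ (ξ a x) u = (0 : ℝ)) →
      -1 ≤ (inner ℝ (R x u (cov (ξ 0) x u) (cov (ξ 0) x u)) u : ℝ))
    (x : M) (u : TangentSpace I x) (h1 : inner ℝ u u = (1 : ℝ))
    (hu : ∀ a, inner ℝ (ξ a x) u = (0 : ℝ))
    (h5 : (inner ℝ (R x u (cov (ξ 0) x u) (cov (ξ 0) x u)) u : ℝ) = 5) :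
    ∃ g : TangentSpace I x, inner ℝ g g = (1 : ℝ) ∧ (∀ a, inner ℝ (ξ a x) g = (0 : ℝ)) ∧
      (inner ℝ (R x g (cov (ξ 0) x g) (cov (ξ 0) x g)) g : ℝ) = -1 := by
  obtain ⟨e, ha, he⟩ := frame3 s hn h x
  have hfd : FiniteDimensional ℝ (TangentSpace I x) := inferInstanceAs (FiniteDimensional ℝ E)
  have hn' : Module.finrank ℝ (TangentSpace I x) = 4 * n + 3 := hn
  have sp := s.pt h hR x
  exact sp.low_att hn' ha.onp (fun H h1 h2 => hK x H h1 h2) h1 hu h5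

end Fields2

end Pool.Agent.L5helper93.Sas

end
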