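import Mathlib
import Pool.Agent.L5helper93.Sas.Low

/-!
# Pointwise pinching
-/

open Bundle Manifold ContDiff VectorField Filter
open scoped Topology

set_option linter.unusedSectionVars false
set_option linter.unusedVariables false
set_option linter.unusedSimpArgs false

noncomputable section

namespace Pool.Agent.L5helper93.Sas

open Pool.Agent.Results.MP_b296c2_gt
open Pool.Agent.Results.MP_b296c2_gt.Riemannian
open Pool.Agent.L5helper93.Ein Pool.Agent.L5helper93.Geo Matrix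

section Coord

variable {V : Type*} [NormedAddCommGroup V] [InnerProductSpace ℝ V] [FiniteDimensional ℝ V]
  {R : V →ₗ[ℝ] V →ₗ[ℝ] V →ₗ[ℝ] V} {C : Fin 3 → V →ₗ[ℝ] V} {ζ : Fin 3 → V} {N : ℕ}
  {w : Fin N → V} (hN : Module.finrank ℝ V = N)
  (hw : ∀ i j, (inner ℝ (w i) (w j) : ℝ) = if i = j then 1 else 0)

/-- The value at a vector of length `√2`. -/
theorem PtSas.half (s : PtSas R C ζ) {K : V} (h2 : (inner ℝ K K : ℝ) = 2)
    (hK : ∀ a, (inner ℝ (ζ a) K : ℝ) = 0) : ∃ G : V, (inner ℝ G G : ℝ) = 1 ∧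
    (∀ a, (inner ℝ (ζ a) G : ℝ) = 0) ∧
    4 * ((inner ℝ (R G (C 0 G) (C 0 G)) G : ℝ) - 1) = inner ℝ (TO R K (C 0 K) (C 0 K)) K := by
  have h4 := s.form_hor (hK 0)
  rw [h2] at h4
  obtain ⟨r, hr, hrr⟩ : ∃ r : ℝ, 0 < r ∧ r * r = 2 :=
    ⟨Real.sqrt 2, Real.sqrt_pos.2 (by norm_num), Real.mul_self_sqrt (by norm_num)⟩
  have hr4 : r⁻¹ * r⁻¹ = 1 / 2 := by
    rw [← mul_inv, hrr]; norm_num
  refine ⟨r⁻¹ • K, ?_, ?_, ?_⟩
  · rw [real_inner_smul_left, real_inner_smul_right, h2, ← mul_assoc, hr4]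
    norm_num
  · intro a
    rw [real_inner_smul_right, hK, mul_zero]
  · simp only [map_smul, LinearMap.smul_apply, real_inner_smul_left, real_inner_smul_right]
    obtain ⟨k, hk⟩ : ∃ k : ℝ, k = inner ℝ (R K (C 0 K) (C 0 K)) K := ⟨_, rfl⟩
    rw [← hk] at h4 ⊢
    have : r⁻¹ * (r⁻¹ * (r⁻¹ * (r⁻¹ * k))) = (r⁻¹ * r⁻¹) * (r⁻¹ * r⁻¹) * k := by ring
    rw [this, hr4, h4]
    ring

include hN hw

/-- Quarter pinching bounds the curvature from above. -/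
theorem PtSas.pinch_up (s : PtSas R C ζ) (hl : ∀ H G : V, (inner ℝ H H : ℝ) = 1 →
      (∀ a, (inner ℝ (ζ a) H : ℝ) = 0) → (inner ℝ G G : ℝ) = 1 →
      (∀ a, (inner ℝ (ζ a) G : ℝ) = 0) → (inner ℝ (R H (C 0 H) (C 0 H)) H : ℝ) + 3 ≤
        4 * ((inner ℝ (R G (C 0 G) (C 0 G)) G : ℝ) + 3))
    {H : V} (h1 : (inner ℝ H H : ℝ) = 1) (hH : ∀ a, (inner ℝ (ζ a) H : ℝ) = 0) :
    (inner ℝ (R H (C 0 H) (C 0 H)) H : ℝ) ≤ 5 := by
  obtain ⟨a1, a2, a3, a4, a5⟩ := s.two hN hw hH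
  rw [h1] at a3 a4
  obtain ⟨G1, g1, g2, g3⟩ := s.half (by linarith) a1
  obtain ⟨G2, k1, k2, k3⟩ := s.half (by linarith) a2
  have h3 := s.form_hor (hH 0)
  rw [h1] at h3
  have p1 := hl H G1 h1 hH g1 g2
  have p2 := hl H G2 h1 hH k1 k2
  linarith

end Coord

section Fields2

variable {E : Type*} [NormedAddCommGroup E] [NormedSpace ℝ E] [FiniteDimensional ℝ E]
  {H : Type*} [TopologicalSpace H] {I : ModelWithCorners ℝ E H}
  {M : Type*} [TopologicalSpace M] [ChartedSpace H M] [IsManifold I ∞ M]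
  [RiemannianBundle (fun x : M => TangentSpace I x)]
  [IsContMDiffRiemannianBundle I ∞ E (fun x : M => TangentSpace I x)]
  [T2Space M] [SigmaCompactSpace M] [Nontrivial E]
  {cov : CovariantDerivative I E (TangentSpace I : M → Type _)}
  (h : IsLeviCivita cov) {R : CurvField I M} (hR : IsRiemannTensor cov R)
  {ξ : Fin 3 → Π x : M, TangentSpace I x} (s : S3 cov ξ)

include h hR s

theorem sas_pinch {n : ℕ} (hn : Module.finrank ℝ E = 4 * n + 3) (x : M)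
    (hK : ∀ u v : TangentSpace I x, inner ℝ u u = (1 : ℝ) →
      (∀ a, inner ℝ (ξ a x) u = (0 : ℝ)) → inner ℝ v v = (1 : ℝ) →
      (∀ a, inner ℝ (ξ a x) v = (0 : ℝ)) →
      (inner ℝ (R x u (cov (ξ 0) x u) (cov (ξ 0) x u)) u : ℝ) + 3 ≤
        4 * ((inner ℝ (R x v (cov (ξ 0) x v) (cov (ξ 0) x v)) v : ℝ) + 3))
    (u : TangentSpace I x) (h1 : inner ℝ u u = (1 : ℝ))
    (hu : ∀ a, inner ℝ (ξ a x) u = (0 : ℝ)) :
    (inner ℝ (R x u (cov (ξ 0) x u) (cov (ξ 0) x u)) u : ℝ) ≤ 5 := by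
  obtain ⟨e, ha, he⟩ := frame3 s hn h x
  have hfd : FiniteDimensional ℝ (TangentSpace I x) := inferInstanceAs (FiniteDimensional ℝ E)
  have hn' : Module.finrank ℝ (TangentSpace I x) = 4 * n + 3 := hn
  have sp := s.pt h hR x
  exact sp.pinch_up hn' ha.onp (fun H G h1 h2 h3 h4 => hK H G h1 h2 h3 h4) h1 hu

end Fields2

end Pool.Agent.L5helper93.Sas

end
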